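import Mathlib

set_option autoImplicit false

/-!
# Zeros of bilinear forms of rank at least two in boxes over a domain

(following `TH910.Voj.Quad`, where the domain is the ring of rational integers)
-/

namespace Pool.Agent.R366.NF

open scoped Classical

variable {R : Type} [CommRing R] [IsDomain R]

/-- vectors with coordinates in `S` -/
noncomputable def sbox (n : ℕ) (S : Finset R) : Finset (Fin n → R) := Fintype.piFinset fun _ => S

/-- vectors with coordinates in `S` whose coordinates in `A` vanish -/
noncomputable def zsbox (n : ℕ) (A : Finset (Fin n)) (S : Finset R) : Finset (Fin n → R) :=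
  Fintype.piFinset fun i => if i ∈ A then {0} else S

omit [IsDomain R] in
lemma mem_sbox {n : ℕ} {S : Finset R} {x : Fin n → R} : x ∈ sbox n S ↔ ∀ i, x i ∈ S := by
  unfold sbox
  rw [Fintype.mem_piFinset]

omit [IsDomain R] in
lemma card_sbox (n : ℕ) (S : Finset R) : (sbox n S).card = S.card ^ n := by
  unfold sbox
  rw [Fintype.card_piFinset, Finset.prod_const, Finset.card_univ, Fintype.card_fin]

omit [IsDomain R] in
lemma card_zsbox (n : ℕ) (A : Finset (Fin n)) (S : Finset R) :
    (zsbox n A S).card = S.card ^ (n - A.card) := by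
  unfold zsbox
  rw [Fintype.card_piFinset]
  have h1 : ∀ i : Fin n, (if i ∈ A then ({0} : Finset R) else S).card =
      if i ∈ A then 1 else S.card := by
    intro i
    split_ifs
    · simp
    · rfl
  rw [Finset.prod_congr rfl fun i _ => h1 i, Finset.prod_ite, Finset.prod_const_one, one_mul,
    Finset.prod_const]
  congr 1
  have h2 : (Finset.univ.filter fun i => i ∉ A) = Aᶜ := by ext; simp
  rw [h2, Finset.card_compl, Fintype.card_fin]

omit [IsDomain R] in
lemma card_le_agree {n : ℕ} {S : Finset R} (A : Finset (Fin n)) (T : Finset (Fin n → R))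
    (hT : T ⊆ sbox n S) (h : ∀ u ∈ T, ∀ u' ∈ T, (∀ i, i ∉ A → u i = u' i) → u = u') :
    T.card ≤ S.card ^ (n - A.card) := by
  rw [← card_zsbox n A S]
  refine Finset.card_le_card_of_injOn (fun u i => if i ∈ A then 0 else u i) ?_ ?_
  · intro u hu
    have hub := mem_sbox.mp (hT hu)
    unfold zsbox
    rw [Finset.mem_coe, Fintype.mem_piFinset]
    intro i
    by_cases hi : i ∈ A
    · simp [hi]
    · simp only [hi, if_false]
      exact hub i
  · intro u hu u' hu' huu'
    refine h u hu u' hu' fun i hi => ?_
    have := congrFun huu' i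
    simpa [hi] using this

lemma card_one_eq' {n : ℕ} {S : Finset R} (c : Fin n → R) (a : Fin n) (ha : c a ≠ 0) :
    ((sbox n S).filter fun u => ∑ i, c i * u i = 0).card ≤ S.card ^ (n - 1) := by
  refine (card_le_agree {a} _ (Finset.filter_subset _ _) ?_).trans (by simp)
  intro u hu u' hu' h
  rw [Finset.mem_filter] at hu hu'
  have h1 : ∑ i, c i * (u i - u' i) = 0 := by
    simp only [mul_sub, Finset.sum_sub_distrib, hu.2, hu'.2, sub_zero]
  have h2 : ∀ i, i ≠ a → c i * (u i - u' i) = 0 := fun i hi => by
    rw [h i (by simpa using hi)]; ring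
  rw [Fintype.sum_eq_single a h2] at h1
  funext i
  by_cases hi : i = a
  · rw [hi]
    rcases mul_eq_zero.mp h1 with h3 | h3
    · exact absurd h3 ha
    · exact sub_eq_zero.1 h3
  · exact h i (by simpa using hi)

lemma card_two_eq' {n : ℕ} {S : Finset R} (c e : Fin n → R) (a p : Fin n) (hap : a ≠ p)
    (ha : c a ≠ 0) (hea : e a = 0) (hep : e p ≠ 0) :
    ((sbox n S).filter fun u => ∑ i, c i * u i = 0 ∧ ∑ i, e i * u i = 0).card ≤
      S.card ^ (n - 2) := by
  refine (card_le_agree {a, p} _ (Finset.filter_subset _ _) ?_).trans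
    (by rw [Finset.card_pair hap])
  intro u hu u' hu' h
  rw [Finset.mem_filter] at hu hu'
  have h1 : ∑ i, e i * (u i - u' i) = 0 := by
    simp only [mul_sub, Finset.sum_sub_distrib, hu.2.2, hu'.2.2, sub_zero]
  have h2 : ∀ i, i ≠ p → e i * (u i - u' i) = 0 := fun i hi => by
    by_cases hia : i = a
    · rw [hia, hea, zero_mul]
    · rw [h i (by simp [hi, hia])]; ring
  rw [Fintype.sum_eq_single p h2] at h1
  have hp : u p = u' p := by
    rcases mul_eq_zero.mp h1 with h3 | h3
    · exact absurd h3 hep
    · exact sub_eq_zero.1 h3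
  have h3 : ∑ i, c i * (u i - u' i) = 0 := by
    simp only [mul_sub, Finset.sum_sub_distrib, hu.2.1, hu'.2.1, sub_zero]
  have h4 : ∀ i, i ≠ a → c i * (u i - u' i) = 0 := fun i hi => by
    by_cases hip : i = p
    · rw [hip, hp]; ring
    · rw [h i (by simp [hi, hip])]; ring
  rw [Fintype.sum_eq_single a h4] at h3
  funext i
  by_cases hi : i = a
  · rw [hi]
    rcases mul_eq_zero.mp h3 with h5 | h5
    · exact absurd h5 ha
    · exact sub_eq_zero.1 h5
  · by_cases hip : i = p
    · rw [hip, hp]
    · exact h i (by simp [hi, hip])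

/-- `u` on a hyperplane, and `u`, `w` orthogonal for a non-zero matrix whose row `a` vanishes -/
lemma card_degenerate' {n : ℕ} {S : Finset R} (c : Fin n → R) (M : Fin n → Fin n → R)
    (a p q : Fin n) (ha : c a ≠ 0) (hMa : ∀ j, M a j = 0) (hM : M p q ≠ 0) :
    (((sbox n S) ×ˢ (sbox n S)).filter fun z => ∑ i, c i * z.1 i = 0 ∧
      ∑ i, ∑ j, M i j * z.1 i * z.2 j = 0).card ≤ 2 * S.card ^ (2 * (n - 1)) := by
  have hap : a ≠ p := by
    rintro rfl
    exact hM (hMa q)
  have hn2 : 2 ≤ n := by
    have h1 := a.2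
    have h2 := p.2
    have h3 : (a : ℕ) ≠ p := fun h => hap (Fin.ext h)
    omega
  set T := ((sbox n S) ×ˢ (sbox n S)).filter fun z => ∑ i, c i * z.1 i = 0 ∧
      ∑ i, ∑ j, M i j * z.1 i * z.2 j = 0 with hT
  set U := (sbox n S).filter fun u => ∑ i, c i * u i = 0 with hU
  set W := (sbox n S).filter fun w => ∑ j, M p j * w j = 0 with hW
  have hUc : U.card ≤ S.card ^ (n - 1) := card_one_eq' c a ha
  have hWc : W.card ≤ S.card ^ (n - 1) := card_one_eq' (M p) q hM
  have h1 : T ⊆ (U ×ˢ W) ∪ (T.filter fun z => z.2 ∉ W) := by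
    intro z hz
    rw [Finset.mem_union]
    by_cases hzW : z.2 ∈ W
    · left
      rw [Finset.mem_product]
      refine ⟨?_, hzW⟩
      rw [hT, Finset.mem_filter, Finset.mem_product] at hz
      rw [hU, Finset.mem_filter]
      exact ⟨hz.1.1, hz.2.1⟩
    · right
      rw [Finset.mem_filter]
      exact ⟨hz, hzW⟩
  have h2 : (T.filter fun z => z.2 ∉ W).card ≤ S.card ^ (n - 2) * (sbox n S).card := by
    refine Finset.card_le_mul_card_image_of_maps_to (f := fun z => z.2) ?_ _ ?_
    · intro z hz
      rw [Finset.mem_filter, hT, Finset.mem_filter, Finset.mem_product] at hz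
      exact hz.1.1.2
    · intro w hw
      by_cases hwW : w ∈ W
      · rw [Finset.card_eq_zero.mpr]
        · exact Nat.zero_le _
        · rw [Finset.filter_eq_empty_iff]
          rintro z hz rfl
          rw [Finset.mem_filter] at hz
          exact hz.2 hwW
      · have hne : ∑ j, M p j * w j ≠ 0 := by
          intro h
          exact hwW (by rw [hW, Finset.mem_filter]; exact ⟨hw, h⟩)
        refine le_trans ?_ (card_two_eq' (S := S) c (fun i => ∑ j, M i j * w j) a p hap ha ?_ hne)
        · refine Finset.card_le_card_of_injOn (fun z => z.1) ?_ ?_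
          · intro z hz
            rw [Finset.mem_coe, Finset.mem_filter, Finset.mem_filter, hT, Finset.mem_filter,
              Finset.mem_product] at hz
            obtain ⟨⟨⟨hzb, hz1, hz2⟩, -⟩, rfl⟩ := hz
            rw [Finset.mem_coe, Finset.mem_filter]
            refine ⟨hzb.1, hz1, ?_⟩
            rw [← hz2]
            refine Finset.sum_congr rfl fun i _ => ?_
            rw [Finset.sum_mul]
            exact Finset.sum_congr rfl fun j _ => by ring
          · intro z hz z' hz' hzz'
            rw [Finset.mem_coe, Finset.mem_filter] at hz hz'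
            exact Prod.ext hzz' (hz.2.trans hz'.2.symm)
        · exact Finset.sum_eq_zero fun j _ => by rw [hMa j, zero_mul]
  have h3 : T.card ≤ (U ×ˢ W).card + (T.filter fun z => z.2 ∉ W).card :=
    (Finset.card_le_card h1).trans (Finset.card_union_le _ _)
  rw [Finset.card_product] at h3
  rw [card_sbox] at h2
  have h4 : S.card ^ (n - 2) * S.card ^ n = S.card ^ (2 * (n - 1)) := by
    rw [← pow_add]; congr 1; omega
  have h5 : U.card * W.card ≤ S.card ^ (2 * (n - 1)) := by
    calc U.card * W.card ≤ S.card ^ (n - 1) * S.card ^ (n - 1) :=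
          Nat.mul_le_mul hUc hWc
      _ = _ := by rw [← pow_add]; congr 1; omega
  rw [h4] at h2
  omega

/-- the number of zeros of a bilinear form of rank at least two -/
theorem card_bilin {n : ℕ} (S : Finset R) (h0S : (0 : R) ∈ S) (M : Fin n → Fin n → R)
    (a b p q : Fin n) (hab : M a b ≠ 0)
    (hpq : M a b * M p q - M p b * M a q ≠ 0) (D : ℕ)
    (hD : ∀ u ∈ sbox n S, ∀ w ∈ sbox n S,
      ∑ i, ∑ j, (M a b * M i j - M i b * M a j) * u i * w j ≠ 0 →
      (((sbox n S).image fun y => ∑ i, M i b * y i).filter fun lam =>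
        lam ∣ ∑ i, ∑ j, (M a b * M i j - M i b * M a j) * u i * w j).card ≤ D) :
    (((sbox n S) ×ˢ (sbox n S)).filter fun z => ∑ i, ∑ j, M i j * z.1 i * z.2 j = 0).card ≤
      S.card ^ (2 * (n - 1)) * (D + 4) := by
  set N : Fin n → Fin n → R := fun i j => M a b * M i j - M i b * M a j with hN
  have hNa : ∀ j, N a j = 0 := fun j => by rw [hN]; ring
  have hNb : ∀ i, N i b = 0 := fun i => by rw [hN]; ring
  have hident : ∀ u w : Fin n → R, M a b * ∑ i, ∑ j, M i j * u i * w j =
      (∑ i, M i b * u i) * (∑ j, M a j * w j) + ∑ i, ∑ j, N i j * u i * w j := by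
    intro u w
    rw [Finset.mul_sum, Finset.sum_mul, ← Finset.sum_add_distrib]
    refine Finset.sum_congr rfl fun i _ => ?_
    rw [Finset.mul_sum, Finset.mul_sum, ← Finset.sum_add_distrib]
    refine Finset.sum_congr rfl fun j _ => ?_
    rw [hN]; ring
  have hn1 : 1 ≤ n := by have := a.2; omega
  set Z := ((sbox n S) ×ˢ (sbox n S)).filter fun z => ∑ i, ∑ j, M i j * z.1 i * z.2 j = 0 with hZ
  set Z1 := Z.filter fun z => ∑ i, ∑ j, N i j * z.1 i * z.2 j ≠ 0 with hZ1
  set Z2 := ((sbox n S) ×ˢ (sbox n S)).filter fun z => ∑ i, M i b * z.1 i = 0 ∧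
      ∑ i, ∑ j, N i j * z.1 i * z.2 j = 0 with hZ2
  set Z3 := ((sbox n S) ×ˢ (sbox n S)).filter fun z => ∑ j, M a j * z.1 j = 0 ∧
      ∑ j, ∑ i, N i j * z.1 j * z.2 i = 0 with hZ3
  have hZ2c : Z2.card ≤ 2 * S.card ^ (2 * (n - 1)) :=
    card_degenerate' (fun i => M i b) N a p q hab hNa hpq
  have hZ3c : Z3.card ≤ 2 * S.card ^ (2 * (n - 1)) :=
    card_degenerate' (fun j => M a j) (fun j i => N i j) b q p hab hNb hpq
  have hcover : Z ⊆ Z1 ∪ (Z2 ∪ Z3.image Prod.swap) := by
    intro z hz
    have hz' := hz
    rw [hZ, Finset.mem_filter, Finset.mem_product] at hz'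
    obtain ⟨⟨hz1, hz2⟩, hz3⟩ := hz'
    by_cases hs : ∑ i, ∑ j, N i j * z.1 i * z.2 j = 0
    · have h1 := hident z.1 z.2
      rw [hz3, hs, mul_zero, add_zero] at h1
      rcases mul_eq_zero.mp h1.symm with h2 | h2
      · refine Finset.mem_union_right _ (Finset.mem_union_left _ ?_)
        rw [hZ2, Finset.mem_filter, Finset.mem_product]
        exact ⟨⟨hz1, hz2⟩, h2, hs⟩
      · refine Finset.mem_union_right _ (Finset.mem_union_right _ ?_)
        rw [Finset.mem_image]
        refine ⟨(z.2, z.1), ?_, rfl⟩
        rw [hZ3, Finset.mem_filter, Finset.mem_product]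
        refine ⟨⟨hz2, hz1⟩, h2, ?_⟩
        rw [Finset.sum_comm, ← hs]
        exact Finset.sum_congr rfl fun i _ => Finset.sum_congr rfl fun j _ => by ring
    · refine Finset.mem_union_left _ ?_
      rw [hZ1, Finset.mem_filter]
      exact ⟨hz, hs⟩
  -- the main part
  set T : Finset ((_ : (Fin n → R) × (Fin n → R)) × R) :=
    ((zsbox n {a} S ×ˢ zsbox n {b} S).filter fun z => ∑ i, ∑ j, N i j * z.1 i * z.2 j ≠ 0).sigma
      (fun z => ((sbox n S).image fun y => ∑ i, M i b * y i).filter fun lam =>
        lam ∣ ∑ i, ∑ j, N i j * z.1 i * z.2 j) with hT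
  have hkill : ∀ z : (Fin n → R) × (Fin n → R),
      ∑ i, ∑ j, N i j * (if i = a then 0 else z.1 i) * (if j = b then 0 else z.2 j) =
      ∑ i, ∑ j, N i j * z.1 i * z.2 j := by
    intro z
    refine Finset.sum_congr rfl fun i _ => Finset.sum_congr rfl fun j _ => ?_
    by_cases hi : i = a
    · rw [hi, hNa j]; ring
    · by_cases hj : j = b
      · rw [hj, hNb i]; ring
      · simp [hi, hj]
  have hzb : ∀ (a : Fin n) (u : Fin n → R), u ∈ sbox n S →
      (fun i => if i = a then 0 else u i) ∈ zsbox n {a} S := by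
    intro a u hu
    have hub := mem_sbox.mp hu
    unfold zsbox
    rw [Fintype.mem_piFinset]
    intro i
    by_cases hi : i = a
    · simp [hi]
    · simp only [hi, if_false, Finset.mem_singleton]
      exact hub i
  have hZ1c : Z1.card ≤ T.card := by
    refine Finset.card_le_card_of_injOn (fun z =>
      (⟨(fun i => if i = a then 0 else z.1 i, fun j => if j = b then 0 else z.2 j),
        (∑ i, M i b * z.1 i)⟩ : (_ : (Fin n → R) × (Fin n → R)) × R)) ?_ ?_
    · intro z hz
      rw [Finset.mem_coe, hZ1, Finset.mem_filter, hZ, Finset.mem_filter, Finset.mem_product] at hz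
      obtain ⟨⟨⟨hz1, hz2⟩, hz3⟩, hz4⟩ := hz
      rw [Finset.mem_coe, hT, Finset.mem_sigma, Finset.mem_filter, Finset.mem_product]
      refine ⟨⟨⟨hzb a _ hz1, hzb b _ hz2⟩, ?_⟩, ?_⟩
      · simp only [hkill]
        exact hz4
      · simp only [hkill]
        rw [Finset.mem_filter]
        refine ⟨Finset.mem_image_of_mem _ hz1, ?_⟩
        have h1 := hident z.1 z.2
        rw [hz3, mul_zero] at h1
        refine ⟨-(∑ j, M a j * z.2 j), ?_⟩
        linear_combination -h1
    · intro z hz z' hz' hzz'
      rw [Finset.mem_coe] at hz hz'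
      have h7 : ((fun i => if i = a then 0 else z.1 i : Fin n → R),
        (fun j => if j = b then 0 else z.2 j : Fin n → R)) =
          ((fun i => if i = a then 0 else z'.1 i : Fin n → R),
        (fun j => if j = b then 0 else z'.2 j : Fin n → R)) :=
        congrArg Sigma.fst hzz'
      have hlam' : ∑ i, M i b * z.1 i = ∑ i, M i b * z'.1 i := congrArg Sigma.snd hzz'
      have h9 : ∀ i, i ≠ a → z.1 i = z'.1 i := fun i hi => by
        have := congrFun (congrArg Prod.fst h7) i
        simpa [hi] using this
      have h10 : ∀ j, j ≠ b → z.2 j = z'.2 j := fun j hj => by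
        have := congrFun (congrArg Prod.snd h7) j
        simpa [hj] using this
      have h11 : z.1 = z'.1 := by
        have h12 : ∑ i, M i b * (z.1 i - z'.1 i) = 0 := by
          simp only [mul_sub, Finset.sum_sub_distrib, hlam', sub_self]
        rw [Fintype.sum_eq_single a (fun i hi => by rw [h9 i hi]; ring)] at h12
        funext i
        by_cases hi : i = a
        · rw [hi]
          rcases mul_eq_zero.mp h12 with h13 | h13
          · exact absurd h13 hab
          · exact sub_eq_zero.1 h13
        · exact h9 i hi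
      rw [hZ1, Finset.mem_filter, hZ, Finset.mem_filter] at hz hz'
      have h14 : ∑ i, ∑ j, N i j * z.1 i * z.2 j = ∑ i, ∑ j, N i j * z'.1 i * z'.2 j := by
        rw [← hkill z, ← hkill z']
        refine Finset.sum_congr rfl fun i _ => Finset.sum_congr rfl fun j _ => ?_
        have h15 : (if i = a then (0 : R) else z.1 i) = if i = a then 0 else z'.1 i :=
          congrFun (congrArg Prod.fst h7) i
        have h16 : (if j = b then (0 : R) else z.2 j) = if j = b then 0 else z'.2 j :=
          congrFun (congrArg Prod.snd h7) j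
        rw [h15, h16]
      have h17 := hident z.1 z.2
      have h18 := hident z'.1 z'.2
      rw [hz.1.2, mul_zero] at h17
      rw [hz'.1.2, mul_zero] at h18
      have hlam : ∑ i, M i b * z.1 i ≠ 0 := by
        intro h0
        rw [h0, zero_mul, zero_add] at h17
        exact hz.2 h17.symm
      have h19 : (∑ i, M i b * z.1 i) * (∑ j, M a j * z.2 j) =
          (∑ i, M i b * z.1 i) * (∑ j, M a j * z'.2 j) := by
        rw [← hlam', ← h14] at h18
        linear_combination h18 - h17
      have h21 := mul_left_cancel₀ hlam h19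
      have h22 : z.2 = z'.2 := by
        have h12 : ∑ j, M a j * (z.2 j - z'.2 j) = 0 := by
          simp only [mul_sub, Finset.sum_sub_distrib, h21, sub_self]
        rw [Fintype.sum_eq_single b (fun j hj => by rw [h10 j hj]; ring)] at h12
        funext j
        by_cases hj : j = b
        · rw [hj]
          rcases mul_eq_zero.mp h12 with h13 | h13
          · exact absurd h13 hab
          · exact sub_eq_zero.1 h13
        · exact h10 j hj
      exact Prod.ext h11 h22
  have hTc : T.card ≤ S.card ^ (2 * (n - 1)) * D := by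
    rw [hT, Finset.card_sigma]
    have hsub : ∀ (a : Fin n) (u : Fin n → R), u ∈ zsbox n {a} S → u ∈ sbox n S := by
      intro a u hu
      rw [mem_sbox]
      intro i
      unfold zsbox at hu
      rw [Fintype.mem_piFinset] at hu
      have h7 := hu i
      split_ifs at h7 with hi
      · rw [Finset.mem_singleton] at h7
        rw [h7]
        exact h0S
      · exact h7
    refine (Finset.sum_le_card_nsmul _ _ D fun z hz => ?_).trans ?_
    · rw [Finset.mem_filter, Finset.mem_product] at hz
      exact hD z.1 (hsub a _ hz.1.1) z.2 (hsub b _ hz.1.2) hz.2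
    · rw [smul_eq_mul]
      refine Nat.mul_le_mul_right _ ((Finset.card_filter_le _ _).trans ?_)
      rw [Finset.card_product, card_zsbox, card_zsbox, Finset.card_singleton,
        Finset.card_singleton, ← pow_add]
      refine le_of_eq ?_
      congr 1
      omega
  have hcard : Z.card ≤ Z1.card + (Z2.card + Z3.card) := by
    refine (Finset.card_le_card hcover).trans ((Finset.card_union_le _ _).trans ?_)
    refine Nat.add_le_add_left ((Finset.card_union_le _ _).trans ?_) _
    exact Nat.add_le_add_left Finset.card_image_le _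
  calc Z.card ≤ Z1.card + (Z2.card + Z3.card) := hcard
    _ ≤ S.card ^ (2 * (n - 1)) * D + (2 * S.card ^ (2 * (n - 1)) + 2 * S.card ^ (2 * (n - 1))) :=
        Nat.add_le_add (hZ1c.trans hTc) (Nat.add_le_add hZ2c hZ3c)
    _ = _ := by ring

end Pool.Agent.R366.NF
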