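import Mathlib

set_option autoImplicit false

/-!
# The norm of the values of a polynomial over the ring of integers at rational integers
-/

namespace Pool.Agent.R366.NF

open MvPolynomial NumberField

variable {K : Type} [Field K] [NumberField K] {M : ℕ}

/-- the coordinate polynomials with respect to the integral basis -/
noncomputable def coordPoly (f : MvPolynomial (Fin M) (𝓞 K))
    (l : Module.Free.ChooseBasisIndex ℤ (𝓞 K)) : MvPolynomial (Fin M) ℤ :=
  ∑ s ∈ f.support, monomial s ((RingOfIntegers.basis K).repr (coeff s f) l)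

lemma eval_coordPoly (f : MvPolynomial (Fin M) (𝓞 K)) (l : Module.Free.ChooseBasisIndex ℤ (𝓞 K))
    (u : Fin M → ℤ) : eval u (coordPoly f l) =
      (RingOfIntegers.basis K).repr (eval (fun i => ((u i : ℤ) : 𝓞 K)) f) l := by
  have h1 : eval (fun i => ((u i : ℤ) : 𝓞 K)) f =
      ∑ s ∈ f.support, (∏ i ∈ s.support, u i ^ s i : ℤ) • coeff s f := by
    rw [MvPolynomial.eval_eq]
    refine Finset.sum_congr rfl fun s _ => ?_
    rw [zsmul_eq_mul, mul_comm]
    push_cast
    rfl
  rw [h1, map_sum, Finsupp.finsetSum_apply, coordPoly, map_sum]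
  refine Finset.sum_congr rfl fun s _ => ?_
  rw [eval_monomial, map_zsmul, Finsupp.smul_apply, zsmul_eq_mul, mul_comm]
  rfl

lemma coordPoly_hom {f : MvPolynomial (Fin M) (𝓞 K)} {k : ℕ} (hf : f.IsHomogeneous k)
    (l : Module.Free.ChooseBasisIndex ℤ (𝓞 K)) : (coordPoly f l).IsHomogeneous k := by
  refine IsHomogeneous.sum _ _ _ fun s hs => ?_
  refine isHomogeneous_monomial _ ?_
  rw [← hf (mem_support_iff.1 hs), Finsupp.degree_eq_weight_one]
  rfl

/-- the matrix of multiplication by the values of `f` -/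
noncomputable def mulMat (f : MvPolynomial (Fin M) (𝓞 K)) :
    Matrix (Module.Free.ChooseBasisIndex ℤ (𝓞 K)) (Module.Free.ChooseBasisIndex ℤ (𝓞 K))
      (MvPolynomial (Fin M) ℤ) :=
  fun i j => ∑ l, C (Algebra.leftMulMatrix (RingOfIntegers.basis K)
    (RingOfIntegers.basis K l) i j) * coordPoly f l

/-- the norm polynomial -/
noncomputable def normPoly (f : MvPolynomial (Fin M) (𝓞 K)) : MvPolynomial (Fin M) ℤ :=
  (mulMat f).det

lemma eval_normPoly (f : MvPolynomial (Fin M) (𝓞 K)) (u : Fin M → ℤ) :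
    eval u (normPoly f) = Algebra.norm ℤ (eval (fun i => ((u i : ℤ) : 𝓞 K)) f) := by
  rw [Algebra.norm_eq_matrix_det (RingOfIntegers.basis K), normPoly, RingHom.map_det]
  congr 1
  ext i j
  rw [RingHom.mapMatrix_apply, Matrix.map_apply, mulMat, map_sum]
  have h1 := (RingOfIntegers.basis K).sum_repr (eval (fun i => ((u i : ℤ) : 𝓞 K)) f)
  conv_rhs => rw [← h1]
  rw [map_sum, Matrix.sum_apply]
  refine Finset.sum_congr rfl fun l _ => ?_
  rw [map_mul, eval_C, eval_coordPoly, map_zsmul, Matrix.smul_apply, zsmul_eq_mul, mul_comm]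
  rfl

lemma normPoly_hom {f : MvPolynomial (Fin M) (𝓞 K)} {k : ℕ} (hf : f.IsHomogeneous k) :
    (normPoly f).IsHomogeneous (Module.finrank ℚ K * k) := by
  have hM : ∀ i j, (mulMat f i j).IsHomogeneous k := by
    intro i j
    refine IsHomogeneous.sum _ _ _ fun l _ => ?_
    have := (isHomogeneous_C (Fin M) (Algebra.leftMulMatrix (RingOfIntegers.basis K)
      (RingOfIntegers.basis K l) i j)).mul (coordPoly_hom hf l)
    rwa [zero_add] at this
  rw [normPoly, Matrix.det_apply']
  refine IsHomogeneous.sum _ _ _ fun σ _ => ?_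
  have h1 : (∏ i, mulMat f (σ i) i).IsHomogeneous
      (∑ _i : Module.Free.ChooseBasisIndex ℤ (𝓞 K), k) :=
    IsHomogeneous.prod _ _ _ fun i _ => hM (σ i) i
  have h2 : (((Equiv.Perm.sign σ : ℤˣ) : ℤ) : MvPolynomial (Fin M) ℤ) =
      C ((Equiv.Perm.sign σ : ℤˣ) : ℤ) := by simp
  have h3 := (isHomogeneous_C (Fin M) ((Equiv.Perm.sign σ : ℤˣ) : ℤ)).mul h1
  rw [zero_add, Finset.sum_const, smul_eq_mul, Finset.card_univ] at h3
  have h4 : Fintype.card (Module.Free.ChooseBasisIndex ℤ (𝓞 K)) = Module.finrank ℚ K := by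
    rw [← RingOfIntegers.rank K, Module.finrank_eq_card_basis (RingOfIntegers.basis K)]
  rw [h4] at h3
  have h5 : ((↑(Equiv.Perm.sign σ) : ℤ) : MvPolynomial (Fin M) ℤ) * ∏ i, mulMat f (σ i) i =
      C ((Equiv.Perm.sign σ : ℤˣ) : ℤ) * ∏ i, mulMat f (σ i) i := by rw [h2]
  rw [h5]
  exact h3

/-- the polynomial over the ring of integers -/
noncomputable abbrev ofZ (K : Type) [Field K] [NumberField K] {M : ℕ} :
    MvPolynomial (Fin M) ℤ →+* MvPolynomial (Fin M) (𝓞 K) := map (Int.castRingHom (𝓞 K))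

lemma sum_coordPoly (f : MvPolynomial (Fin M) (𝓞 K)) :
    ∑ l, C (RingOfIntegers.basis K l) * ofZ K (coordPoly f l) = f := by
  have h1 : ∀ l, ofZ K (coordPoly f l) = ∑ s ∈ f.support,
      monomial s (((RingOfIntegers.basis K).repr (coeff s f) l : ℤ) : 𝓞 K) := by
    intro l
    rw [coordPoly, map_sum]
    refine Finset.sum_congr rfl fun s _ => ?_
    rw [map_monomial]
    rfl
  simp only [h1, Finset.mul_sum, C_mul_monomial]
  rw [Finset.sum_comm]
  conv_rhs => rw [f.as_sum]
  refine Finset.sum_congr rfl fun s _ => ?_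
  rw [← map_sum]
  congr 1
  have h2 := (RingOfIntegers.basis K).sum_repr (coeff s f)
  conv_rhs => rw [← h2]
  refine Finset.sum_congr rfl fun l _ => ?_
  rw [zsmul_eq_mul, mul_comm]

lemma sum_mulMat (f : MvPolynomial (Fin M) (𝓞 K)) (j : Module.Free.ChooseBasisIndex ℤ (𝓞 K)) :
    ∑ i, C (RingOfIntegers.basis K i) * ofZ K (mulMat f i j) =
      f * C (RingOfIntegers.basis K j) := by
  have h1 : ∀ i, ofZ K (mulMat f i j) = ∑ l, C ((Algebra.leftMulMatrix (RingOfIntegers.basis K)
      (RingOfIntegers.basis K l) i j : ℤ) : 𝓞 K) * ofZ K (coordPoly f l) := by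
    intro i
    rw [mulMat, map_sum]
    refine Finset.sum_congr rfl fun l _ => ?_
    rw [map_mul, map_C]
    rfl
  simp only [h1, Finset.mul_sum]
  rw [Finset.sum_comm]
  have h2 : ∀ l, ∑ i, C (RingOfIntegers.basis K i) *
      (C ((Algebra.leftMulMatrix (RingOfIntegers.basis K)
        (RingOfIntegers.basis K l) i j : ℤ) : 𝓞 K) * ofZ K (coordPoly f l)) =
      C (RingOfIntegers.basis K l) * ofZ K (coordPoly f l) * C (RingOfIntegers.basis K j) := by
    intro l
    have h3 : ∑ i, RingOfIntegers.basis K i * ((Algebra.leftMulMatrix (RingOfIntegers.basis K)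
        (RingOfIntegers.basis K l) i j : ℤ) : 𝓞 K) =
        RingOfIntegers.basis K l * RingOfIntegers.basis K j := by
      have h4 := (RingOfIntegers.basis K).sum_repr
        (RingOfIntegers.basis K l * RingOfIntegers.basis K j)
      conv_rhs => rw [← h4]
      refine Finset.sum_congr rfl fun i _ => ?_
      rw [Algebra.leftMulMatrix_eq_repr_mul, zsmul_eq_mul, mul_comm]
    have h5 := congrArg (fun z : 𝓞 K => (C z : MvPolynomial (Fin M) (𝓞 K))) h3
    simp only [map_sum, C_mul] at h5
    calc _ = (∑ i, C (RingOfIntegers.basis K i) *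
          C ((Algebra.leftMulMatrix (RingOfIntegers.basis K)
            (RingOfIntegers.basis K l) i j : ℤ) : 𝓞 K)) * ofZ K (coordPoly f l) := by
          rw [Finset.sum_mul]
          exact Finset.sum_congr rfl fun i _ => by ring
      _ = _ := by rw [h5]; ring
  simp only [h2]
  rw [← Finset.sum_mul, sum_coordPoly]

/-- the polynomial divides its norm -/
lemma dvd_normPoly (f : MvPolynomial (Fin M) (𝓞 K)) : ∃ A, ofZ K (normPoly f) = A * f := by
  set b := RingOfIntegers.basis K with hb
  have h1 : ∀ j, C (b j) * ofZ K (normPoly f) =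
      (∑ i, C (b i) * ofZ K ((mulMat f).adjugate i j)) * f := by
    intro j
    have h2 : ∀ m, C (b m) * f = ∑ i, C (b i) * ofZ K (mulMat f i m) := by
      intro m
      rw [sum_mulMat, mul_comm]
    calc C (b j) * ofZ K (normPoly f)
        = ∑ i, C (b i) * ofZ K ((mulMat f * (mulMat f).adjugate) i j) := by
          rw [Matrix.mul_adjugate]
          rw [Finset.sum_eq_single j]
          · rw [Matrix.smul_apply, Matrix.one_apply_eq, smul_eq_mul, mul_one, normPoly]
          · intro i _ hij
            rw [Matrix.smul_apply, Matrix.one_apply_ne hij, smul_zero, map_zero, mul_zero]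
          · intro h
            exact absurd (Finset.mem_univ j) h
      _ = ∑ i, ∑ m, C (b i) * (ofZ K (mulMat f i m) * ofZ K ((mulMat f).adjugate m j)) := by
          refine Finset.sum_congr rfl fun i _ => ?_
          rw [Matrix.mul_apply, map_sum, Finset.mul_sum]
          exact Finset.sum_congr rfl fun m _ => by rw [map_mul]
      _ = ∑ m, (C (b m) * f) * ofZ K ((mulMat f).adjugate m j) := by
          rw [Finset.sum_comm]
          refine Finset.sum_congr rfl fun m _ => ?_
          rw [h2, Finset.sum_mul]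
          exact Finset.sum_congr rfl fun i _ => by ring
      _ = _ := by
          rw [Finset.sum_mul]
          exact Finset.sum_congr rfl fun i _ => by ring
  refine ⟨∑ j, C (((b.repr 1) j : ℤ) : 𝓞 K) * ∑ i, C (b i) * ofZ K ((mulMat f).adjugate i j), ?_⟩
  rw [Finset.sum_mul]
  have h3 : ∑ j, (((b.repr 1) j : ℤ) : 𝓞 K) * b j = 1 := by
    have h4 := b.sum_repr 1
    conv_rhs => rw [← h4]
    exact Finset.sum_congr rfl fun i _ => by rw [zsmul_eq_mul]
  have h5 := congrArg (fun z : 𝓞 K => (C z : MvPolynomial (Fin M) (𝓞 K))) h3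
  simp only [map_sum, C_mul, C_1] at h5
  calc ofZ K (normPoly f) = (∑ j, C (((b.repr 1) j : ℤ) : 𝓞 K) * C (b j)) * ofZ K (normPoly f) := by
        rw [h5, one_mul]
    _ = _ := by
        rw [Finset.sum_mul]
        refine Finset.sum_congr rfl fun j _ => ?_
        rw [mul_assoc, h1 j, mul_assoc]

end Pool.Agent.R366.NF
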