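import Mathlib
import Pool.Agent.R366.NF.Norm
import Pool.Agent.TH910.Voj.Elim

set_option autoImplicit false

/-!
# Elimination down to the rational integers
-/

namespace Pool.Agent.R366.NF

open MvPolynomial NumberField Pool.Agent.TH910.Voj

variable {K : Type} [Field K] [NumberField K] {M : ℕ}

/-- the polynomial over the field -/
noncomputable abbrev toK : MvPolynomial (Fin M) (𝓞 K) →+* MvPolynomial (Fin M) K :=
  map (algebraMap (𝓞 K) K)

omit [NumberField K] in
lemma toK_injective : Function.Injective (toK (K := K) (M := M)) :=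
  MvPolynomial.map_injective _ (FaithfulSMul.algebraMap_injective (𝓞 K) K)

/-- clearing denominators -/
lemma exists_toK (q : MvPolynomial (Fin M) K) : ∃ N : ℤ, N ≠ 0 ∧
    ∃ p : MvPolynomial (Fin M) (𝓞 K), toK p = C (N : K) * q := by
  classical
  obtain ⟨N, hN, h⟩ := exists_integral_multiples ℤ ℚ (L := K) (q.support.image fun s => coeff s q)
  refine ⟨N, hN, ?_⟩
  have h1 : C (N : K) * q ∈ Set.range (map (σ := Fin M) (algebraMap (𝓞 K) K)) := by
    rw [mem_range_map_iff_coeffs_subset]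
    rintro c hc
    rw [coeffs, Finset.mem_coe, Finset.mem_image] at hc
    obtain ⟨s, hs, rfl⟩ := hc
    rw [coeff_C_mul]
    by_cases h0 : coeff s q = 0
    · rw [h0, mul_zero]; exact ⟨0, map_zero _⟩
    · have h2 := h (coeff s q) (Finset.mem_image_of_mem _ (mem_support_iff.2 h0))
      rw [zsmul_eq_mul] at h2
      exact ⟨⟨_, h2⟩, rfl⟩
  obtain ⟨p, hp⟩ := h1
  exact ⟨p, hp⟩

/-- the quotient by an irreducible polynomial is integral over the image of the rational
polynomials -/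
lemma integral_quot (I : Ideal (MvPolynomial (Fin M) K))
    (S : Subring (MvPolynomial (Fin M) K ⧸ I))
    (hS : ∀ p : MvPolynomial (Fin M) ℚ, Ideal.Quotient.mk I (map (algebraMap ℚ K) p) ∈ S)
    (q : MvPolynomial (Fin M) K) : IsIntegral S (Ideal.Quotient.mk I q) := by
  have hX : ∀ i, IsIntegral S (Ideal.Quotient.mk I (X i)) := by
    intro i
    have h1 : Ideal.Quotient.mk I (X i) = algebraMap S _ ⟨_, hS (X i)⟩ := by
      show _ = Ideal.Quotient.mk I (map (algebraMap ℚ K) (X i))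
      rw [map_X]
    rw [h1]
    exact isIntegral_algebraMap
  have hC : ∀ c : K, IsIntegral S (Ideal.Quotient.mk I (C c)) := by
    intro c
    obtain ⟨P, hP, hP0⟩ := Algebra.IsIntegral.isIntegral (R := ℚ) c
    let φ : ℚ →+* S := ((Ideal.Quotient.mk I).comp ((map (algebraMap ℚ K)).comp C)).codRestrict S
      fun x => hS (C x)
    refine ⟨P.map φ, hP.map φ, ?_⟩
    rw [Polynomial.eval₂_map]
    have h1 : (algebraMap S (MvPolynomial (Fin M) K ⧸ I)).comp φ =
        ((Ideal.Quotient.mk I).comp C).comp (algebraMap ℚ K) := by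
      ext x
      show Ideal.Quotient.mk I (map (algebraMap ℚ K) (C x)) = Ideal.Quotient.mk I (C (algebraMap ℚ K x))
      rw [map_C]
    rw [h1]
    have h2 := Polynomial.hom_eval₂ P (algebraMap ℚ K) ((Ideal.Quotient.mk I).comp C) c
    rw [hP0, map_zero] at h2
    exact h2.symm
  induction q using MvPolynomial.induction_on with
  | C c => exact hC c
  | add p q hp hq => rw [map_add]; exact hp.add hq
  | mul_X p i hp => rw [map_mul]; exact hp.mul (hX i)

lemma toK_ofZ (p : MvPolynomial (Fin M) ℤ) :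
    toK (ofZ K p) = map (algebraMap ℚ K) (toQ p) := by
  rw [toK, ofZ, map_map, toQ, map_map]
  have h : (algebraMap (𝓞 K) K).comp (Int.castRingHom (𝓞 K)) =
      (algebraMap ℚ K).comp (Int.castRingHom ℚ) := RingHom.ext_int _ _
  rw [h]

omit [NumberField K] in
lemma toK_C_int (N : ℤ) : toK (C (N : 𝓞 K) : MvPolynomial (Fin M) (𝓞 K)) = C (N : K) := by
  rw [toK, map_C]
  simp

lemma ofZ_C_int (N : ℤ) : ofZ K (C N : MvPolynomial (Fin M) ℤ) = C (N : 𝓞 K) := by
  rw [ofZ, map_C]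
  simp

theorem exists_int_elim (f g : MvPolynomial (Fin M) (𝓞 K)) (hf : Irreducible (toK f))
    (hfg : ¬ toK f ∣ toK g) : ∃ G : MvPolynomial (Fin M) ℤ, ¬ toK f ∣ toK (ofZ K G) ∧
      ∃ U V : MvPolynomial (Fin M) (𝓞 K), ofZ K G = U * f + V * g := by
  set I : Ideal (MvPolynomial (Fin M) K) := Ideal.span {toK f} with hI
  have hIp : I.IsPrime := (Ideal.span_singleton_prime hf.ne_zero).mpr hf.prime
  have hdom : IsDomain (MvPolynomial (Fin M) K ⧸ I) := Ideal.Quotient.isDomain I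
  set S : Subring (MvPolynomial (Fin M) K ⧸ I) :=
    ((Ideal.Quotient.mk I).comp (map (algebraMap ℚ K) :
      MvPolynomial (Fin M) ℚ →+* MvPolynomial (Fin M) K)).range with hS
  have hSm : ∀ p : MvPolynomial (Fin M) ℚ, Ideal.Quotient.mk I (map (algebraMap ℚ K) p) ∈ S :=
    fun p => ⟨p, rfl⟩
  have hG0 : Ideal.Quotient.mk I (toK g) ≠ 0 := by
    rw [Ne, Ideal.Quotient.eq_zero_iff_mem, hI, Ideal.mem_span_singleton]
    exact hfg
  have hcomap := Ideal.comap_ne_bot_of_integral_mem (R := S)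
    (I := Ideal.span {Ideal.Quotient.mk I (toK g)}) hG0
    (Ideal.mem_span_singleton_self _) (integral_quot I S hSm (toK g))
  obtain ⟨s, hs, hs0⟩ := Submodule.exists_mem_ne_zero_of_ne_bot hcomap
  rw [Ideal.mem_comap, Ideal.mem_span_singleton'] at hs
  obtain ⟨c', hc'⟩ := hs
  obtain ⟨c, rfl⟩ := Ideal.Quotient.mk_surjective c'
  obtain ⟨G₀, hG₀⟩ := s.2
  have hc2 : Ideal.Quotient.mk I c * Ideal.Quotient.mk I (toK g) =
      Ideal.Quotient.mk I (map (algebraMap ℚ K) G₀) := by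
    rw [hc']
    exact hG₀.symm
  have hs1 : Ideal.Quotient.mk I (map (algebraMap ℚ K) G₀) ≠ 0 := by
    intro h
    apply hs0
    apply Subtype.ext
    rw [← hG₀]
    exact h
  have h15 : map (algebraMap ℚ K) G₀ - c * toK g ∈ I := by
    rw [← Ideal.Quotient.eq_zero_iff_mem, map_sub, map_mul, hc2, sub_self]
  obtain ⟨e, he⟩ := Ideal.mem_span_singleton'.mp h15
  obtain ⟨N₁, hN₁, G, hG⟩ := Pool.Agent.TH910.Voj.exists_int_mul_eq_toQ G₀
  obtain ⟨N₂, hN₂, U, hU⟩ := exists_toK e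
  obtain ⟨N₃, hN₃, V, hV⟩ := exists_toK c
  have hGK : toK (ofZ K G) = C (N₁ : K) * map (algebraMap ℚ K) G₀ := by
    rw [toK_ofZ, hG, map_mul, map_C]
    simp
  refine ⟨C (N₂ * N₃) * G, ?_, C ((N₁ * N₃ : ℤ) : 𝓞 K) * U, C ((N₁ * N₂ : ℤ) : 𝓞 K) * V, ?_⟩
  · intro hdvd
    rw [map_mul, map_mul, ofZ_C_int, toK_C_int, hGK, ← mul_assoc, ← C_mul] at hdvd
    apply hs1
    rw [Ideal.Quotient.eq_zero_iff_mem, hI, Ideal.mem_span_singleton]
    have hu : IsUnit (C ((((N₂ * N₃ : ℤ) : K)) * (N₁ : K)) : MvPolynomial (Fin M) K) := by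
      refine IsUnit.map C (isUnit_iff_ne_zero.mpr ?_)
      exact mul_ne_zero (Int.cast_ne_zero.2 (mul_ne_zero hN₂ hN₃)) (Int.cast_ne_zero.2 hN₁)
    exact (hu.dvd_mul_left).1 hdvd
  · apply toK_injective
    rw [map_mul (ofZ K) (C (N₂ * N₃)) G, map_mul toK, ofZ_C_int, toK_C_int, hGK, map_add toK,
      map_mul toK (C ((N₁ * N₃ : ℤ) : 𝓞 K) * U) f, map_mul toK (C ((N₁ * N₂ : ℤ) : 𝓞 K) * V) g,
      map_mul toK (C ((N₁ * N₃ : ℤ) : 𝓞 K)) U, map_mul toK (C ((N₁ * N₂ : ℤ) : 𝓞 K)) V,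
      toK_C_int, toK_C_int, hU, hV]
    have h3 : map (algebraMap ℚ K) G₀ = e * toK f + c * toK g := by
      rw [he]; ring
    rw [h3]
    push_cast
    simp only [C_mul]
    ring

/-- factors of homogeneous polynomials are homogeneous (following `Chud.PD1`) -/
theorem homog_of_dvd {σ k : Type*} [Field k] [Finite σ] {F G : MvPolynomial σ k} {n : ℕ}
    (hF : F.IsHomogeneous n) (hF0 : F ≠ 0) (h : G ∣ F) : G.IsHomogeneous G.totalDegree := by
  obtain ⟨K, rfl⟩ := h
  have hG0 : G ≠ 0 := left_ne_zero_of_mul hF0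
  have hK0 : K ≠ 0 := right_ne_zero_of_mul hF0
  have hle : ∀ P : MvPolynomial σ k, P ≠ 0 → (P : MvPowerSeries σ k).order ≤ P.totalDegree := by
    intro P hP
    obtain ⟨d, hd⟩ := MvPolynomial.ne_zero_iff.1 hP
    have h1 : (P : MvPowerSeries σ k).order ≤ (d.degree : ℕ∞) :=
      MvPowerSeries.order_le (by simpa using hd)
    refine h1.trans ?_
    have h2 : d.degree ≤ P.totalDegree := by
      have := MvPolynomial.le_totalDegree (p := P) (s := d) (MvPolynomial.mem_support_iff.2 hd)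
      simpa [Finsupp.degree_apply, Finsupp.sum] using this
    exact_mod_cast h2
  have hmul : ((G * K : MvPolynomial σ k) : MvPowerSeries σ k).order =
      (G : MvPowerSeries σ k).order + (K : MvPowerSeries σ k).order := by
    rw [MvPolynomial.coe_mul, MvPowerSeries.order_mul]
  have hFo : (n : ℕ∞) ≤ ((G * K : MvPolynomial σ k) : MvPowerSeries σ k).order := by
    apply MvPowerSeries.nat_le_order
    intro d hd
    rw [MvPolynomial.coeff_coe]
    by_contra hne
    have := hF hne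
    have h' : d.degree = n := by rw [← this, Finsupp.degree_eq_weight_one]; rfl
    omega
  have hT : (G * K).totalDegree = n := hF.totalDegree hF0
  rw [MvPolynomial.totalDegree_mul_of_isDomain hG0 hK0] at hT
  have hGo := hle G hG0
  have hKo := hle K hK0
  rw [hmul] at hFo
  intro d hd
  have h1 : (G : MvPowerSeries σ k).order ≤ (d.degree : ℕ∞) :=
      MvPowerSeries.order_le (by simpa using hd)
  have h2 : d.degree ≤ G.totalDegree := by
      have := MvPolynomial.le_totalDegree (p := G) (s := d) (MvPolynomial.mem_support_iff.2 hd)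
      simpa [Finsupp.degree_apply, Finsupp.sum] using this
  have h3 : (n : ℕ∞) ≤ (d.degree : ℕ∞) + (K.totalDegree : ℕ∞) := hFo.trans (add_le_add h1 hKo)
  have h4 : n ≤ d.degree + K.totalDegree := by exact_mod_cast h3
  have h5 : d.degree = G.totalDegree := by omega
  rw [← h5, Finsupp.degree_eq_weight_one]
  rfl

/-- the irreducible rational polynomial below `f` -/
theorem exists_below (f : MvPolynomial (Fin M) (𝓞 K)) {k : ℕ} (hk : f.IsHomogeneous k)
    (hf : Irreducible (toK f)) : ∃ (p : MvPolynomial (Fin M) ℤ) (k' : ℕ), p.IsHomogeneous k' ∧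
      Irreducible (toQ p) ∧ ∃ A : MvPolynomial (Fin M) (𝓞 K), ofZ K p = A * f := by
  obtain ⟨A, hA⟩ := dvd_normPoly f
  have hΦ0 : toQ (normPoly f) ≠ 0 := by
    intro h0
    have h1 : normPoly f = 0 := Pool.Agent.TH910.Voj.toQ_injective (by rw [h0, map_zero])
    have hf0 : f ≠ 0 := by
      rintro rfl
      exact hf.ne_zero (map_zero _)
    have h2 : ∀ u : Fin M → ℤ, eval (fun i => ((u i : ℤ) : 𝓞 K)) f = 0 := by
      intro u
      have h3 := eval_normPoly f u
      rw [h1, map_zero] at h3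
      exact (Algebra.norm_eq_zero_iff).1 h3.symm
    apply hf0
    rw [← sum_coordPoly f]
    refine Finset.sum_eq_zero fun l _ => ?_
    have h4 : coordPoly f l = 0 := by
      refine MvPolynomial.funext fun u => ?_
      rw [eval_coordPoly, h2 u, map_zero, map_zero]
      rfl
    rw [h4, map_zero, mul_zero]
  have hprime := hf.prime
  have hdvd : toK f ∣ map (algebraMap ℚ K) (toQ (normPoly f)) := by
    rw [← toK_ofZ, hA, map_mul]
    exact dvd_mul_left _ _
  -- an irreducible factor divisible by `f`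
  obtain ⟨p₀, hp₀, hp₀Φ, hfp₀⟩ : ∃ p₀ : MvPolynomial (Fin M) ℚ, Irreducible p₀ ∧
      p₀ ∣ toQ (normPoly f) ∧ toK f ∣ map (algebraMap ℚ K) p₀ := by
    obtain ⟨s, hs, hs2⟩ := WfDvdMonoid.exists_factors (toQ (normPoly f)) hΦ0
    have h1 : toK f ∣ map (algebraMap ℚ K) s.prod := by
      obtain ⟨u, hu⟩ := hs2
      have h2 : s.prod ∣ toQ (normPoly f) := ⟨u, hu.symm⟩
      have h3 : toQ (normPoly f) ∣ s.prod := by
        refine ⟨((u⁻¹ : (MvPolynomial (Fin M) ℚ)ˣ) : MvPolynomial (Fin M) ℚ), ?_⟩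
        rw [← hu, mul_assoc, Units.mul_inv, mul_one]
      exact hdvd.trans (map_dvd _ h3)
    rw [map_multiset_prod] at h1
    obtain ⟨a, ha, hfa⟩ := hprime.exists_mem_multiset_dvd h1
    obtain ⟨p₀, hp₀, rfl⟩ := Multiset.mem_map.1 ha
    refine ⟨p₀, hs p₀ hp₀, ?_, hfa⟩
    obtain ⟨u, hu⟩ := hs2
    exact (Multiset.dvd_prod hp₀).trans ⟨u, hu.symm⟩
  have hhom : p₀.IsHomogeneous p₀.totalDegree := homog_of_dvd
    ((normPoly_hom hk).map (Int.castRingHom ℚ)) hΦ0 hp₀Φ
  obtain ⟨N₁, hN₁, p, hp⟩ := Pool.Agent.TH910.Voj.exists_int_mul_eq_toQ p₀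
  have hN₁' : (N₁ : ℚ) ≠ 0 := Int.cast_ne_zero.2 hN₁
  have hu : IsUnit (C (N₁ : ℚ) : MvPolynomial (Fin M) ℚ) :=
    IsUnit.map C (isUnit_iff_ne_zero.mpr hN₁')
  obtain ⟨c, hc⟩ := hfp₀
  obtain ⟨N₂, hN₂, B, hB⟩ := exists_toK c
  have hN₂' : (N₂ : ℚ) ≠ 0 := Int.cast_ne_zero.2 hN₂
  have hu2 : IsUnit (C (N₂ : ℚ) : MvPolynomial (Fin M) ℚ) :=
    IsUnit.map C (isUnit_iff_ne_zero.mpr hN₂')
  have hpp : toQ (C N₂ * p) = C (N₂ : ℚ) * (C (N₁ : ℚ) * p₀) := by
    rw [map_mul, hp]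
    congr 1
    exact (MvPolynomial.map_C _ _).trans rfl
  refine ⟨C N₂ * p, p₀.totalDegree, ?_, ?_, C (N₁ : 𝓞 K) * B, ?_⟩
  · have h1 : (toQ (C N₂ * p)).IsHomogeneous p₀.totalDegree := by
      rw [hpp]
      have := (isHomogeneous_C (Fin M) (N₂ : ℚ)).mul ((isHomogeneous_C (Fin M) (N₁ : ℚ)).mul hhom)
      rwa [zero_add, zero_add] at this
    intro d hd
    apply h1
    rw [coeff_map]
    intro h
    have h' : ((coeff d (C N₂ * p) : ℤ) : ℚ) = 0 := h
    exact hd (by exact_mod_cast h')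
  · rw [hpp]
    exact (irreducible_isUnit_mul hu2).2 ((irreducible_isUnit_mul hu).2 hp₀)
  · apply toK_injective
    rw [toK_ofZ, hpp, map_mul, map_mul, hc, map_mul toK, map_mul toK, toK_C_int, hB, map_C, map_C]
    simp only [map_intCast]
    ring

end Pool.Agent.R366.NF
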