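import Mathlib
import Pool.Agent.R366.UC.Coef

set_option autoImplicit false

/-!
# Divisors with bounded conjugates in a number field
-/

namespace Pool.Agent.R366.NF

open NumberField Height IsDedekindDomain Pool.Agent.H57R3.VJ Pool.Agent.R366.UC

variable {E : Type} [Field E] [NumberField E]

lemma height_int {X : ℝ} (hX : 1 ≤ X) (β : 𝓞 E) (hβ : ∀ w : InfinitePlace E, w (β : E) ≤ X) :
    mulHeight₁ (β : E) ≤ X ^ Module.finrank ℚ E := by
  rw [NumberField.mulHeight₁_eq]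
  have h1 : ∏ w : InfinitePlace E, (max (w (β : E)) 1) ^ w.mult ≤ X ^ Module.finrank ℚ E := by
    rw [← InfinitePlace.sum_mult_eq, ← Finset.prod_pow_eq_pow_sum]
    refine Finset.prod_le_prod (fun w _ => by positivity) fun w _ => ?_
    exact pow_le_pow_left₀ (by positivity) (max_le (hβ w) hX) _
  have h2 : ∏ᶠ v : FinitePlace E, max (v (β : E)) 1 = 1 := by
    have h3 : (fun v : FinitePlace E => max (v (β : E)) 1) = fun _ => 1 := by
      funext v
      exact max_eq_right (fp_int_le v β.2)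
    rw [h3]
    exact finprod_one
  rw [h2, mul_one]
  exact h1

/-- the number of divisors with bounded conjugates of an integer -/
theorem few_divisors {δ : ℝ} (hδ : 0 < δ) : ∃ C : ℝ, 0 < C ∧ ∀ X : ℝ, 1 ≤ X → ∀ m : ℤ, m ≠ 0 →
    |(m : ℝ)| ≤ X → ∀ T : Finset (𝓞 E), (∀ β ∈ T, β ∣ (m : 𝓞 E) ∧ ∀ w : InfinitePlace E,
      w (β : E) ≤ X) → (T.card : ℝ) ≤ C * X ^ δ := by
  set d : ℕ := Module.finrank ℚ E with hd
  have hd0 : (0 : ℝ) < d := by exact_mod_cast Module.finrank_pos (R := ℚ) (M := E)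
  obtain ⟨C, hC, h⟩ := supp_card (K := E) (δ := δ / (2 * d)) (by positivity)
  refine ⟨C, hC, fun X hX m hm hmX T hT => ?_⟩
  have hX0 : 0 < X := by linarith
  obtain ⟨Q, hQ, hQs⟩ := bad_places (K := E) hm
  have hinj : Set.InjOn (fun β : 𝓞 E => (β : E)) (T : Set (𝓞 E)) :=
    fun a _ b _ hab => RingOfIntegers.coe_injective hab
  classical
  have h1 := h (X ^ d) (one_le_pow₀ hX) Q (T.image fun β : 𝓞 E => (β : E)) (by
    intro u hu
    obtain ⟨β, hβ, rfl⟩ := Finset.mem_image.1 hu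
    obtain ⟨h2, h3⟩ := hT β hβ
    have hβ0 : (β : E) ≠ 0 := by
      intro h0
      have h4 : β = 0 := RingOfIntegers.coe_injective (by simpa using h0)
      rw [h4, zero_dvd_iff] at h2
      exact hm (by exact_mod_cast h2)
    refine ⟨hβ0, height_int hX β h3, fun v hv => ?_⟩
    obtain ⟨γ, hγ⟩ := h2
    have h5 : (m : E) = (β : E) * (γ : E) := by
      have := congrArg (fun z : 𝓞 E => (z : E)) hγ
      simpa using this
    have h6 := hQ v hv
    rw [h5, map_mul] at h6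
    have h7 := fp_int_le v β.2
    have h8 := fp_int_le v γ.2
    have h9 : 0 ≤ v (β : E) := apply_nonneg _ _
    have h10 : 0 ≤ v (γ : E) := apply_nonneg _ _
    change v (β : E) ≤ 1 at h7
    change v (γ : E) ≤ 1 at h8
    nlinarith)
  rw [Finset.card_image_of_injOn hinj] at h1
  have hprod : ∏ v ∈ Q, NN v ≤ X ^ d := by
    have h2 : Real.log (∏ v ∈ Q, NN v) ≤ Real.log (X ^ d) := by
      rw [Real.log_prod (fun v _ => (NN_pos v).ne'), Real.log_pow]
      refine hQs.trans ?_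
      refine mul_le_mul_of_nonneg_left ?_ hd0.le
      refine Real.log_le_log ?_ hmX
      exact abs_pos.mpr (by exact_mod_cast hm)
    exact (Real.log_le_log_iff (Finset.prod_pos fun v _ => NN_pos v) (by positivity)).1 h2
  have hP0 : 0 ≤ ∏ v ∈ Q, NN v := Finset.prod_nonneg fun v _ => (NN_pos v).le
  refine h1.trans ?_
  have h3 : (∏ v ∈ Q, NN v) ^ (δ / (2 * d)) ≤ (X ^ d) ^ (δ / (2 * d)) :=
    Real.rpow_le_rpow hP0 hprod (by positivity)
  calc C * (X ^ d) ^ (δ / (2 * d)) * (∏ v ∈ Q, NN v) ^ (δ / (2 * d))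
      ≤ C * (X ^ d) ^ (δ / (2 * d)) * (X ^ d) ^ (δ / (2 * d)) :=
        mul_le_mul_of_nonneg_left h3 (by positivity)
    _ = C * ((X ^ d) ^ (δ / (2 * d)) * (X ^ d) ^ (δ / (2 * d))) := by ring
    _ = C * X ^ δ := by
        rw [← Real.rpow_add (by positivity), ← Real.rpow_natCast, ← Real.rpow_mul hX0.le]
        congr 2
        field_simp
        ring

lemma dvd_norm_int (β : 𝓞 E) : β ∣ ((Algebra.norm ℤ β : ℤ) : 𝓞 E) := by
  have h1 := Ideal.absNorm_mem (Ideal.span {β})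
  rw [Ideal.absNorm_span_singleton, Ideal.mem_span_singleton] at h1
  have h2 : (((Algebra.norm ℤ β).natAbs : ℕ) : 𝓞 E) = (((Algebra.norm ℤ β).natAbs : ℤ) : 𝓞 E) :=
    (Int.cast_natCast _).symm
  rw [h2] at h1
  rcases Int.natAbs_eq (Algebra.norm ℤ β) with h | h
  · rw [h]; exact h1
  · rw [h, Int.cast_neg, dvd_neg]
    exact h1

lemma norm_le {X : ℝ} (β : 𝓞 E) (hβ : ∀ w : InfinitePlace E, w (β : E) ≤ X) :
    |((Algebra.norm ℤ β : ℤ) : ℝ)| ≤ X ^ Module.finrank ℚ E := by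
  have h1 := InfinitePlace.prod_eq_abs_norm (β : E)
  have h2 : |((Algebra.norm ℤ β : ℤ) : ℝ)| = ((|Algebra.norm ℚ (β : E)| : ℚ) : ℝ) := by
    rw [← Algebra.coe_norm_int]
    push_cast
    rfl
  rw [h2, ← h1, ← InfinitePlace.sum_mult_eq, ← Finset.prod_pow_eq_pow_sum]
  exact Finset.prod_le_prod (fun w _ => by positivity) fun w _ =>
    pow_le_pow_left₀ (apply_nonneg _ _) (hβ w) _

/-- the number of integers with bounded conjugates and given norm -/
theorem few_norm_eq {δ : ℝ} (hδ : 0 < δ) : ∃ C : ℝ, 0 < C ∧ ∀ X : ℝ, 1 ≤ X → ∀ m : ℤ, m ≠ 0 →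
    ∀ T : Finset (𝓞 E), (∀ β ∈ T, Algebra.norm ℤ β = m ∧ ∀ w : InfinitePlace E,
      w (β : E) ≤ X) → (T.card : ℝ) ≤ C * X ^ δ := by
  set d : ℕ := Module.finrank ℚ E with hd
  have hd1 : 1 ≤ d := Module.finrank_pos (R := ℚ) (M := E)
  have hd0 : (0 : ℝ) < d := by exact_mod_cast hd1
  obtain ⟨C, hC, h⟩ := few_divisors (E := E) (δ := δ / d) (by positivity)
  refine ⟨C, hC, fun X hX m hm T hT => ?_⟩
  rcases T.eq_empty_or_nonempty with h0 | ⟨β0, hβ0⟩
  · rw [h0, Finset.card_empty, Nat.cast_zero]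
    positivity
  have hXd : X ≤ X ^ d := le_self_pow₀ hX (by omega)
  have h1 := h (X ^ d) (one_le_pow₀ hX) m hm (by
    rw [← (hT β0 hβ0).1]
    exact norm_le β0 (hT β0 hβ0).2) T (by
    intro β hβ
    obtain ⟨h2, h3⟩ := hT β hβ
    refine ⟨?_, fun w => (h3 w).trans hXd⟩
    rw [← h2]
    exact dvd_norm_int β)
  refine h1.trans (le_of_eq ?_)
  rw [← Real.rpow_natCast, ← Real.rpow_mul (by linarith)]
  congr 2
  field_simp

end Pool.Agent.R366.NF
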