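import Mathlib
import Pool.Agent.R366.NF.Norm
import Pool.Agent.R366.NF.Div
import Pool.Agent.TH910.Voj.Trunc

set_option autoImplicit false

/-!
# Coincidences of norms
-/

namespace Pool.Agent.R366.NF

open MvPolynomial NumberField Pool.Agent.TH910.Voj

open scoped Classical

/-- The inequality of Cauchy and Schwarz for fibres -/
lemma pairs_le {α β γ : Type*} [DecidableEq β] [DecidableEq γ] (X : Finset α) (ψ : α → β) (g : β → γ) (L : ℕ)
    (hL : ∀ v, ((X.image ψ).filter fun b => g b = v).card ≤ L) :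
    ((X ×ˢ X).filter fun z => g (ψ z.1) = g (ψ z.2)).card ≤
      L * ((X ×ˢ X).filter fun z => ψ z.1 = ψ z.2).card := by
  set Y := X.image ψ with hY
  set r : β → ℕ := fun b => (X.filter fun x => ψ x = b).card with hr
  have hmaps : ∀ x ∈ X, ψ x ∈ Y := fun x hx => Finset.mem_image_of_mem _ hx
  -- pairs with equal value of `ψ`
  have h1 : ((X ×ˢ X).filter fun z => ψ z.1 = ψ z.2).card = ∑ b ∈ Y, r b ^ 2 := by
    rw [Finset.card_eq_sum_card_fiberwise (f := fun z => ψ z.1) (t := Y) (fun z hz => by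
      rw [Finset.mem_coe, Finset.mem_filter, Finset.mem_product] at hz
      exact hmaps _ hz.1.1)]
    refine Finset.sum_congr rfl fun b _ => ?_
    rw [hr, sq, ← Finset.card_product]
    congr 1
    ext z
    simp only [Finset.mem_filter, Finset.mem_product]
    constructor
    · rintro ⟨⟨⟨h1, h2⟩, h3⟩, h4⟩
      exact ⟨⟨h1, h4⟩, h2, h3 ▸ h4⟩
    · rintro ⟨⟨h1, h2⟩, h3, h4⟩
      exact ⟨⟨⟨h1, h3⟩, h2.trans h4.symm⟩, h2⟩
  -- pairs with equal value of `g`
  have h2 : ((X ×ˢ X).filter fun z => g (ψ z.1) = g (ψ z.2)).card =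
      ∑ v ∈ Y.image g, (∑ b ∈ Y.filter fun b => g b = v, r b) ^ 2 := by
    rw [Finset.card_eq_sum_card_fiberwise (f := fun z => g (ψ z.1)) (t := Y.image g)
      (fun z hz => by
        rw [Finset.mem_coe, Finset.mem_filter, Finset.mem_product] at hz
        exact Finset.mem_image_of_mem _ (hmaps _ hz.1.1))]
    refine Finset.sum_congr rfl fun v _ => ?_
    have h3 : ∑ b ∈ Y.filter fun b => g b = v, r b = (X.filter fun x => g (ψ x) = v).card := by
      rw [Finset.card_eq_sum_card_fiberwise (f := ψ) (t := Y.filter fun b => g b = v)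
        (fun x hx => by
          rw [Finset.mem_coe, Finset.mem_filter] at hx ⊢
          exact ⟨hmaps _ hx.1, hx.2⟩)]
      refine Finset.sum_congr rfl fun b hb => ?_
      show (X.filter fun x => ψ x = b).card = _
      congr 1
      ext x
      rw [Finset.mem_filter] at hb
      simp only [Finset.mem_filter]
      constructor
      · rintro ⟨h1, h2⟩
        exact ⟨⟨h1, by rw [h2]; exact hb.2⟩, h2⟩
      · rintro ⟨⟨h1, -⟩, h2⟩
        exact ⟨h1, h2⟩
    rw [h3, sq, ← Finset.card_product]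
    congr 1
    ext z
    simp only [Finset.mem_filter, Finset.mem_product]
    constructor
    · rintro ⟨⟨⟨h1, h2⟩, h3⟩, h4⟩
      exact ⟨⟨h1, h4⟩, h2, h3 ▸ h4⟩
    · rintro ⟨⟨h1, h2⟩, h3, h4⟩
      exact ⟨⟨⟨h1, h3⟩, h2.trans h4.symm⟩, h2⟩
  rw [h1, h2, Finset.mul_sum]
  have h4 : ∑ b ∈ Y, L * r b ^ 2 = ∑ v ∈ Y.image g, ∑ b ∈ Y.filter fun b => g b = v, L * r b ^ 2 :=
    (Finset.sum_fiberwise_of_maps_to (fun b hb => Finset.mem_image_of_mem _ hb) _).symm
  rw [h4]
  refine Finset.sum_le_sum fun v _ => ?_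
  refine (sq_sum_le_card_mul_sum_sq).trans ?_
  rw [← Finset.mul_sum]
  exact Nat.mul_le_mul_right _ (hL v)

variable {E : Type} [Field E] [NumberField E] {N : ℕ}

/-- the value at rational integers -/
noncomputable def val (f : MvPolynomial (Fin N) (𝓞 E)) (u : Fin N → ℤ) : 𝓞 E :=
  eval (fun i => ((u i : ℤ) : 𝓞 E)) f

lemma eval_normPoly' (f : MvPolynomial (Fin N) (𝓞 E)) (u : Fin N → ℤ) :
    eval u (normPoly f) = Algebra.norm ℤ (val f u) := eval_normPoly f u

lemma growth (f : MvPolynomial (Fin N) (𝓞 E)) : ∃ A : ℝ, 1 ≤ A ∧ ∀ B : ℕ, 1 ≤ B →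
    ∀ u ∈ box N B, ∀ w : InfinitePlace E, w (val f u : E) ≤ A * (B : ℝ) ^ f.totalDegree := by
  set A : ℝ := 1 + ∑ s ∈ f.support, ∑ w : InfinitePlace E, w ((coeff s f : 𝓞 E) : E) with hA
  have hnn : 0 ≤ ∑ s ∈ f.support, ∑ w : InfinitePlace E, w ((coeff s f : 𝓞 E) : E) :=
    Finset.sum_nonneg fun s _ => Finset.sum_nonneg fun w _ => apply_nonneg _ _
  refine ⟨A, by linarith, fun B hB u hu w => ?_⟩
  have hB1 : (1 : ℝ) ≤ B := by exact_mod_cast hB
  have h1 : (val f u : E) = ∑ s ∈ f.support, ((coeff s f : 𝓞 E) : E) * ∏ i ∈ s.support, ((u i : ℤ) : E) ^ s i := by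
    rw [val, MvPolynomial.eval_eq]
    push_cast
    rfl
  rw [h1]
  have hint : ∀ m : ℤ, w (m : E) = |(m : ℝ)| := by
    intro m
    rw [← InfinitePlace.norm_embedding_eq w (m : E), map_intCast]
    exact Complex.norm_intCast m
  calc w (∑ s ∈ f.support, ((coeff s f : 𝓞 E) : E) * ∏ i ∈ s.support, ((u i : ℤ) : E) ^ s i)
      ≤ ∑ s ∈ f.support, w (((coeff s f : 𝓞 E) : E) * ∏ i ∈ s.support, ((u i : ℤ) : E) ^ s i) :=
        w.1.sum_le _ _
    _ ≤ ∑ s ∈ f.support, w ((coeff s f : 𝓞 E) : E) * (B : ℝ) ^ f.totalDegree := by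
        refine Finset.sum_le_sum fun s hs => ?_
        rw [map_mul, map_prod]
        refine mul_le_mul_of_nonneg_left ?_ (apply_nonneg _ _)
        calc ∏ i ∈ s.support, w (((u i : ℤ) : E) ^ s i)
            ≤ ∏ i ∈ s.support, (B : ℝ) ^ s i := by
              refine Finset.prod_le_prod (fun i _ => apply_nonneg _ _) fun i _ => ?_
              rw [map_pow, hint]
              refine pow_le_pow_left₀ (abs_nonneg _) ?_ _
              have := mem_box.1 hu i
              exact_mod_cast this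
          _ = (B : ℝ) ^ ∑ i ∈ s.support, s i := Finset.prod_pow_eq_pow_sum _ _ _
          _ ≤ _ := pow_le_pow_right₀ hB1 (le_totalDegree hs)
    _ = (∑ s ∈ f.support, w ((coeff s f : 𝓞 E) : E)) * (B : ℝ) ^ f.totalDegree := by
        rw [Finset.sum_mul]
    _ ≤ _ := by
        refine mul_le_mul_of_nonneg_right ?_ (by positivity)
        have h2 : ∑ s ∈ f.support, w ((coeff s f : 𝓞 E) : E) ≤
            ∑ s ∈ f.support, ∑ w : InfinitePlace E, w ((coeff s f : 𝓞 E) : E) :=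
          Finset.sum_le_sum fun s _ => Finset.single_le_sum (f := fun w : InfinitePlace E =>
            w ((coeff s f : 𝓞 E) : E)) (fun w _ => apply_nonneg _ _) (Finset.mem_univ w)
        linarith

/-- few coincidences of the values in the ring of integers at rational integral vectors -/
def FewE (f : MvPolynomial (Fin N) (𝓞 E)) (μ : ℕ) : Prop :=
  ∀ δ : ℝ, 0 < δ → ∃ C : ℝ, ∀ B : ℕ, 1 ≤ B →
    ((((box N B) ×ˢ (box N B)).filter fun z => val f z.1 = val f z.2).card : ℝ) ≤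
      C * (B : ℝ) ^ (2 * (N : ℝ) - μ + δ)

lemma few_iff {F : MvPolynomial (Fin N) ℤ} {μ : ℕ} : FewCoincidences F μ ↔
    ∀ δ : ℝ, 0 < δ → ∃ C : ℝ, ∀ B : ℕ, 1 ≤ B →
      ((((box N B) ×ˢ (box N B)).filter fun z => eval z.1 F = eval z.2 F).card : ℝ) ≤
        C * (B : ℝ) ^ (2 * (N : ℝ) - μ + δ) := by
  have h : ∀ B : ℕ, Set.ncard {z : (Fin N → ℤ) × (Fin N → ℤ) | (∀ i, |z.1 i| ≤ B) ∧
      (∀ i, |z.2 i| ≤ B) ∧ eval z.1 F = eval z.2 F} =
      (((box N B) ×ˢ (box N B)).filter fun z => eval z.1 F = eval z.2 F).card := by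
    intro B
    rw [← Set.ncard_coe_finset]
    congr 1
    ext z
    simp only [Set.mem_ofPred_eq, Finset.coe_filter, Finset.mem_product, mem_box]
    tauto
  unfold FewCoincidences
  simp only [h]

/-- **few coincidences of norms** -/
theorem few_norm {f : MvPolynomial (Fin N) (𝓞 E)} {μ : ℕ} (h : FewE f μ) :
    FewCoincidences (normPoly f) μ := by
  rw [few_iff]
  intro δ hδ
  obtain ⟨A, hA, hgr⟩ := growth f
  set D := f.totalDegree with hD
  obtain ⟨C₁, hC₁, hnorm⟩ := few_norm_eq (E := E) (δ := δ / (2 * (D + 1))) (by positivity)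
  obtain ⟨C₂, hC₂⟩ := h (δ / 2) (by positivity)
  refine ⟨(C₁ * A ^ (δ / (2 * (D + 1) : ℝ)) + 1) * |C₂|, fun B hB => ?_⟩
  have hB1 : (1 : ℝ) ≤ B := by exact_mod_cast hB
  have hB0 : (0 : ℝ) < B := by linarith
  set L : ℕ := ⌊C₁ * (A * (B : ℝ) ^ D) ^ (δ / (2 * (D + 1) : ℝ))⌋₊ + 1 with hL
  have hX1 : 1 ≤ A * (B : ℝ) ^ D := one_le_mul_of_one_le_of_one_le hA (one_le_pow₀ hB1)
  have h1 := pairs_le (box N B) (val f) (fun β : 𝓞 E => Algebra.norm ℤ β) L (by
    intro v
    by_cases hv : v = 0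
    · have h2 : (((box N B).image (val f)).filter fun b => Algebra.norm ℤ b = v).card ≤ 1 := by
        rw [Finset.card_le_one]
        intro a ha b hb
        rw [Finset.mem_filter, hv] at ha hb
        rw [Algebra.norm_eq_zero_iff.1 ha.2, Algebra.norm_eq_zero_iff.1 hb.2]
      omega
    · refine (Nat.le_floor ?_).trans (Nat.le_succ _)
      refine hnorm _ hX1 v hv _ ?_
      intro β hβ
      rw [Finset.mem_filter, Finset.mem_image] at hβ
      obtain ⟨⟨u, hu, rfl⟩, h3⟩ := hβ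
      exact ⟨h3, fun w => hgr B hB u hu w⟩)
  have h2 : (((box N B) ×ˢ (box N B)).filter fun z => eval z.1 (normPoly f) =
      eval z.2 (normPoly f)) = ((box N B) ×ˢ (box N B)).filter fun z =>
        Algebra.norm ℤ (val f z.1) = Algebra.norm ℤ (val f z.2) := by
    refine Finset.filter_congr fun z _ => ?_
    rw [eval_normPoly', eval_normPoly']
  rw [h2]
  have h3 : (((((box N B) ×ˢ (box N B)).filter fun z =>
      Algebra.norm ℤ (val f z.1) = Algebra.norm ℤ (val f z.2)).card : ℕ) : ℝ) ≤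
      L * ((((box N B) ×ˢ (box N B)).filter fun z => val f z.1 = val f z.2).card : ℝ) := by
    exact_mod_cast h1
  refine h3.trans ?_
  have h4 := hC₂ B hB
  have h5 : C₂ * (B : ℝ) ^ (2 * (N : ℝ) - μ + δ / 2) ≤
      |C₂| * (B : ℝ) ^ (2 * (N : ℝ) - μ + δ / 2) :=
    mul_le_mul_of_nonneg_right (le_abs_self _) (by positivity)
  have hA0 : 0 < A := by linarith
  have h6 : (A * (B : ℝ) ^ D) ^ (δ / (2 * (D + 1) : ℝ)) ≤
      A ^ (δ / (2 * (D + 1) : ℝ)) * (B : ℝ) ^ (δ / 2) := by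
    rw [Real.mul_rpow hA0.le (by positivity)]
    refine mul_le_mul_of_nonneg_left ?_ (by positivity)
    rw [← Real.rpow_natCast, ← Real.rpow_mul hB0.le]
    refine Real.rpow_le_rpow_of_exponent_le hB1 ?_
    have hD1 : (0 : ℝ) < D + 1 := by positivity
    rw [mul_div_assoc', div_le_div_iff₀ (by positivity) (by norm_num)]
    nlinarith
  have h7 : (L : ℝ) ≤ (C₁ * A ^ (δ / (2 * (D + 1) : ℝ)) + 1) * (B : ℝ) ^ (δ / 2) := by
    rw [hL]
    push_cast
    have h8 := Nat.floor_le (a := C₁ * (A * (B : ℝ) ^ D) ^ (δ / (2 * (D + 1) : ℝ)))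
      (by positivity)
    have h9 : (1 : ℝ) ≤ (B : ℝ) ^ (δ / 2) := Real.one_le_rpow hB1 (by positivity)
    have h10 := mul_le_mul_of_nonneg_left h6 hC₁.le
    linarith
  calc (L : ℝ) * ((((box N B) ×ˢ (box N B)).filter fun z => val f z.1 = val f z.2).card : ℝ)
      ≤ ((C₁ * A ^ (δ / (2 * (D + 1) : ℝ)) + 1) * (B : ℝ) ^ (δ / 2)) *
        (|C₂| * (B : ℝ) ^ (2 * (N : ℝ) - μ + δ / 2)) :=
        mul_le_mul h7 (h4.trans h5) (by positivity) (by positivity)
    _ = ((C₁ * A ^ (δ / (2 * (D + 1) : ℝ)) + 1) * |C₂|) *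
        ((B : ℝ) ^ (δ / 2) * (B : ℝ) ^ (2 * (N : ℝ) - μ + δ / 2)) := by ring
    _ = _ := by
        rw [← Real.rpow_add hB0]
        congr 2
        ring

end Pool.Agent.R366.NF
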