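import Mathlib
import Pool.Agent.R366.NF.Few
import Pool.Agent.R366.NF.Bilin
import Pool.Agent.R366.NF.Elim

set_option autoImplicit false

/-!
# Integral vectors over a number field as rational integral vectors
-/

namespace Pool.Agent.R366.NF

open MvPolynomial NumberField Pool.Agent.TH910.Voj

open scoped Classical

variable {K : Type} [Field K] [NumberField K] {n N : ℕ}

/-- the index set of the integral basis -/
abbrev Idx (K : Type) [Field K] [NumberField K] : Type := Module.Free.ChooseBasisIndex ℤ (𝓞 K)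

lemma card_idx : Fintype.card (Idx K) = Module.finrank ℚ K := by
  rw [← RingOfIntegers.rank K, Module.finrank_eq_card_basis (RingOfIntegers.basis K)]

/-- the vector over the ring of integers with given coordinates -/
noncomputable def vec (e : Fin (n + 1) × Idx K ≃ Fin (N + 1)) (u : Fin (N + 1) → ℤ)
    (i : Fin (n + 1)) : 𝓞 K :=
  ∑ l, ((u (e (i, l)) : ℤ) : 𝓞 K) * RingOfIntegers.basis K l

/-- restriction of scalars, for polynomials -/
noncomputable def weil (e : Fin (n + 1) × Idx K ≃ Fin (N + 1)) :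
    MvPolynomial (Fin (n + 1)) (𝓞 K) →ₐ[𝓞 K] MvPolynomial (Fin (N + 1)) (𝓞 K) :=
  aeval fun i => ∑ l, X (e (i, l)) * C (RingOfIntegers.basis K l)

lemma val_weil (e : Fin (n + 1) × Idx K ≃ Fin (N + 1)) (F : MvPolynomial (Fin (n + 1)) (𝓞 K))
    (u : Fin (N + 1) → ℤ) : val (weil e F) u = eval (vec e u) F := by
  have h : (eval (fun i => ((u i : ℤ) : 𝓞 K))).comp (weil e : MvPolynomial (Fin (n + 1)) (𝓞 K) →+* _)
      = eval (vec e u) := by
    refine MvPolynomial.ringHom_ext (fun r => ?_) fun i => ?_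
    · simp [weil]
    · simp [weil, vec, map_sum]
  exact congrArg (fun g : MvPolynomial (Fin (n + 1)) (𝓞 K) →+* 𝓞 K => g F) h

lemma weil_hom (e : Fin (n + 1) × Idx K ≃ Fin (N + 1)) {F : MvPolynomial (Fin (n + 1)) (𝓞 K)}
    {k : ℕ} (hF : F.IsHomogeneous k) : (weil e F).IsHomogeneous k := by
  have h1 := hF.aeval (fun i => ∑ l, X (e (i, l)) * C (RingOfIntegers.basis K l)) (n := 1)
    (fun i => IsHomogeneous.sum _ _ _ fun l _ => by
      have := (isHomogeneous_X (𝓞 K) (e (i, l))).mul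
        (isHomogeneous_C (Fin (N + 1)) (RingOfIntegers.basis K l))
      rwa [add_zero] at this)
  rw [one_mul] at h1
  exact h1

/-- restriction of scalars over the field -/
noncomputable def weilK (e : Fin (n + 1) × Idx K ≃ Fin (N + 1)) :
    MvPolynomial (Fin (n + 1)) K →ₐ[K] MvPolynomial (Fin (N + 1)) K :=
  aeval fun i => ∑ l, X (e (i, l)) * C (RingOfIntegers.basis K l : K)

lemma toK_weil (e : Fin (n + 1) × Idx K ≃ Fin (N + 1)) (F : MvPolynomial (Fin (n + 1)) (𝓞 K)) :
    toK (weil e F) = weilK e (toK F) := by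
  have h : (toK (K := K) (M := N + 1)).comp (weil e : MvPolynomial (Fin (n + 1)) (𝓞 K) →+* _) =
      (weilK e : MvPolynomial (Fin (n + 1)) K →+* _).comp toK := by
    refine MvPolynomial.ringHom_ext (fun r => ?_) fun i => ?_
    · simp [weil, weilK]
    · simp [weil, weilK, map_sum]
  exact congrArg (fun g : MvPolynomial (Fin (n + 1)) (𝓞 K) →+* MvPolynomial (Fin (N + 1)) K => g F) h

lemma prime_rename {R : Type} [CommRing R] [IsDomain R] {σ τ : Type} (g : τ → σ)
    (hg : Function.Injective g) {p : MvPolynomial τ R} (hp : Prime p) : Prime (rename g p) := by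
  have h1 : rename g p = rename ((↑) : Set.range g → σ)
      (renameEquiv R (Equiv.ofInjective g hg) p) := by
    rw [renameEquiv_apply, rename_rename]
    rfl
  rw [h1, prime_rename_iff]
  exact (MulEquiv.prime_iff (renameEquiv R (Equiv.ofInjective g hg)).toMulEquiv).2 hp

lemma basis_ne_zero (l : Idx K) : (RingOfIntegers.basis K l : K) ≠ 0 := by
  have := (RingOfIntegers.basis K).ne_zero l
  exact fun h => this (RingOfIntegers.coe_injective (by simpa using h))

/-- the change of variables -/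
noncomputable def chg (e : Fin (n + 1) × Idx K ≃ Fin (N + 1)) (l₀ : Idx K) :
    MvPolynomial (Fin (N + 1)) K →ₐ[K] MvPolynomial (Fin (N + 1)) K :=
  aeval fun z => if (e.symm z).2 = l₀ then
    ∑ l, X (e ((e.symm z).1, l)) * C (RingOfIntegers.basis K l : K) else X z

/-- its inverse -/
noncomputable def chgInv (e : Fin (n + 1) × Idx K ≃ Fin (N + 1)) (l₀ : Idx K) :
    MvPolynomial (Fin (N + 1)) K →ₐ[K] MvPolynomial (Fin (N + 1)) K :=
  aeval fun z => if (e.symm z).2 = l₀ then
    C ((RingOfIntegers.basis K l₀ : K)⁻¹) * (X z - ∑ l ∈ Finset.univ.erase l₀,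
      X (e ((e.symm z).1, l)) * C (RingOfIntegers.basis K l : K)) else X z

lemma chg_X_ne (e : Fin (n + 1) × Idx K ≃ Fin (N + 1)) (l₀ : Idx K) (i : Fin (n + 1)) (l : Idx K)
    (h : l ≠ l₀) : chg e l₀ (X (e (i, l))) = X (e (i, l)) := by
  simp [chg, h]

lemma chg_X (e : Fin (n + 1) × Idx K ≃ Fin (N + 1)) (l₀ : Idx K) (i : Fin (n + 1)) :
    chg e l₀ (X (e (i, l₀))) = ∑ l, X (e (i, l)) * C (RingOfIntegers.basis K l : K) := by
  simp [chg]

lemma chgInv_X_ne (e : Fin (n + 1) × Idx K ≃ Fin (N + 1)) (l₀ : Idx K) (i : Fin (n + 1))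
    (l : Idx K) (h : l ≠ l₀) : chgInv e l₀ (X (e (i, l))) = X (e (i, l)) := by
  simp [chgInv, h]

lemma chgInv_X (e : Fin (n + 1) × Idx K ≃ Fin (N + 1)) (l₀ : Idx K) (i : Fin (n + 1)) :
    chgInv e l₀ (X (e (i, l₀))) = C ((RingOfIntegers.basis K l₀ : K)⁻¹) * (X (e (i, l₀)) -
      ∑ l ∈ Finset.univ.erase l₀, X (e (i, l)) * C (RingOfIntegers.basis K l : K)) := by
  simp [chgInv]

lemma chg_chgInv (e : Fin (n + 1) × Idx K ≃ Fin (N + 1)) (l₀ : Idx K) :
    (chg e l₀).comp (chgInv e l₀) = AlgHom.id K _ := by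
  refine MvPolynomial.algHom_ext fun z => ?_
  obtain ⟨⟨i, l⟩, rfl⟩ := e.surjective z
  rw [AlgHom.comp_apply, AlgHom.id_apply]
  by_cases h : l = l₀
  · subst h
    rw [chgInv_X, map_mul, map_sub, chg_X, map_sum]
    have h1 : ∑ m ∈ Finset.univ.erase l, (chg e l) (X (e (i, m)) * C (RingOfIntegers.basis K m : K))
        = ∑ m ∈ Finset.univ.erase l, X (e (i, m)) * C (RingOfIntegers.basis K m : K) := by
      refine Finset.sum_congr rfl fun m hm => ?_
      rw [map_mul, chg_X_ne e l i m (Finset.ne_of_mem_erase hm)]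
      congr 1
      exact (chg e l).commutes _
    have h2 : (chg e l) (C ((RingOfIntegers.basis K l : K)⁻¹)) = C ((RingOfIntegers.basis K l : K)⁻¹) :=
      (chg e l).commutes _
    rw [h1, h2, ← Finset.add_sum_erase Finset.univ _ (Finset.mem_univ l), add_sub_cancel_right,
      mul_comm (X (e (i, l))), ← mul_assoc, ← C_mul, inv_mul_cancel₀ (basis_ne_zero l), C_1, one_mul]
  · rw [chgInv_X_ne e l₀ i l h, chg_X_ne e l₀ i l h]

lemma chgInv_chg (e : Fin (n + 1) × Idx K ≃ Fin (N + 1)) (l₀ : Idx K) :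
    (chgInv e l₀).comp (chg e l₀) = AlgHom.id K _ := by
  refine MvPolynomial.algHom_ext fun z => ?_
  obtain ⟨⟨i, l⟩, rfl⟩ := e.surjective z
  rw [AlgHom.comp_apply, AlgHom.id_apply]
  by_cases h : l = l₀
  · subst h
    rw [chg_X, map_sum, ← Finset.add_sum_erase Finset.univ _ (Finset.mem_univ l)]
    have h1 : ∑ m ∈ Finset.univ.erase l, (chgInv e l) (X (e (i, m)) * C (RingOfIntegers.basis K m : K))
        = ∑ m ∈ Finset.univ.erase l, X (e (i, m)) * C (RingOfIntegers.basis K m : K) := by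
      refine Finset.sum_congr rfl fun m hm => ?_
      rw [map_mul, chgInv_X_ne e l i m (Finset.ne_of_mem_erase hm)]
      congr 1
      exact (chgInv e l).commutes _
    have h2 : (chgInv e l) (C (RingOfIntegers.basis K l : K)) = C (RingOfIntegers.basis K l : K) :=
      (chgInv e l).commutes _
    rw [h1, map_mul, chgInv_X, h2, mul_right_comm, ← C_mul, inv_mul_cancel₀ (basis_ne_zero l), C_1,
      one_mul, sub_add_cancel]
  · rw [chg_X_ne e l₀ i l h, chgInv_X_ne e l₀ i l h]

lemma weilK_eq (e : Fin (n + 1) × Idx K ≃ Fin (N + 1)) (l₀ : Idx K)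
    (p : MvPolynomial (Fin (n + 1)) K) : weilK e p = chg e l₀ (rename (fun i => e (i, l₀)) p) := by
  have h : weilK e = (chg e l₀).comp (rename (fun i => e (i, l₀))) := by
    refine MvPolynomial.algHom_ext fun i => ?_
    rw [AlgHom.comp_apply, rename_X, chg_X]
    simp [weilK]
  rw [h]
  rfl

lemma idx_nonempty : Nonempty (Idx K) := by
  rw [← Fintype.card_pos_iff, card_idx]
  exact Module.finrank_pos

theorem weil_irreducible (e : Fin (n + 1) × Idx K ≃ Fin (N + 1))
    {F : MvPolynomial (Fin (n + 1)) (𝓞 K)} (hF : Irreducible (toK F)) :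
    Irreducible (toK (weil e F)) := by
  obtain ⟨l₀⟩ := idx_nonempty (K := K)
  rw [toK_weil, weilK_eq e l₀]
  have h1 : Prime (rename (fun i => e (i, l₀)) (toK F)) :=
    prime_rename _ (fun i j hij => by simpa using hij) hF.prime
  let Θ : MvPolynomial (Fin (N + 1)) K ≃ₐ[K] MvPolynomial (Fin (N + 1)) K :=
    AlgEquiv.ofAlgHom (chg e l₀) (chgInv e l₀) (chg_chgInv e l₀) (chgInv_chg e l₀)
  have h2 : Prime (Θ (rename (fun i => e (i, l₀)) (toK F))) :=
    (MulEquiv.prime_iff Θ.toMulEquiv).2 h1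
  exact h2.irreducible

/-- a section of the restriction of scalars -/
noncomputable def sec (e : Fin (n + 1) × Idx K ≃ Fin (N + 1)) (l₀ : Idx K) :
    MvPolynomial (Fin (N + 1)) K →ₐ[K] MvPolynomial (Fin (n + 1)) K :=
  aeval fun z => if (e.symm z).2 = l₀ then
    C ((RingOfIntegers.basis K l₀ : K)⁻¹) * X (e.symm z).1 else 0

lemma sec_weilK (e : Fin (n + 1) × Idx K ≃ Fin (N + 1)) (l₀ : Idx K)
    (p : MvPolynomial (Fin (n + 1)) K) : sec e l₀ (weilK e p) = p := by
  have h : (sec e l₀).comp (weilK e) = AlgHom.id K _ := by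
    refine MvPolynomial.algHom_ext fun i => ?_
    rw [AlgHom.comp_apply, AlgHom.id_apply]
    have h1 : weilK e (X i) = ∑ l, X (e (i, l)) * C (RingOfIntegers.basis K l : K) := by
      simp [weilK]
    rw [h1, map_sum, Finset.sum_eq_single l₀]
    · rw [map_mul]
      have h2 : sec e l₀ (C (RingOfIntegers.basis K l₀ : K)) = C (RingOfIntegers.basis K l₀ : K) :=
        (sec e l₀).commutes _
      rw [h2]
      simp only [sec, aeval_X, Equiv.symm_apply_apply, if_true]
      rw [mul_right_comm, ← C_mul, inv_mul_cancel₀ (basis_ne_zero l₀), C_1, one_mul]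
    · intro l _ hl
      rw [map_mul]
      simp [sec, hl]
    · intro h
      exact absurd (Finset.mem_univ _) h
  have h3 := congrArg (fun g : MvPolynomial (Fin (n + 1)) K →ₐ[K] _ => g p) h
  exact h3

theorem weil_dvd (e : Fin (n + 1) × Idx K ≃ Fin (N + 1)) {F G : MvPolynomial (Fin (n + 1)) (𝓞 K)}
    (h : toK (weil e F) ∣ toK (weil e G)) : toK F ∣ toK G := by
  obtain ⟨l₀⟩ := idx_nonempty (K := K)
  rw [toK_weil, toK_weil] at h
  have h1 := map_dvd (sec e l₀) h
  rwa [sec_weilK, sec_weilK] at h1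

/-- integers with small coordinates -/
noncomputable def obox (K : Type) [Field K] [NumberField K] (B : ℕ) : Finset (𝓞 K) :=
  (Fintype.piFinset fun _ : Idx K => Finset.Icc (-(B : ℤ)) B).image
    fun c => ∑ l, ((c l : ℤ) : 𝓞 K) * RingOfIntegers.basis K l

lemma comb_injective {c c' : Idx K → ℤ} (h : ∑ l, ((c l : ℤ) : 𝓞 K) * RingOfIntegers.basis K l =
    ∑ l, ((c' l : ℤ) : 𝓞 K) * RingOfIntegers.basis K l) : c = c' := by
  have h1 : ∀ c : Idx K → ℤ, ∑ l, ((c l : ℤ) : 𝓞 K) * RingOfIntegers.basis K l =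
      ∑ l, c l • RingOfIntegers.basis K l := fun c =>
    Finset.sum_congr rfl fun l _ => (zsmul_eq_mul _ _).symm
  rw [h1, h1] at h
  have h2 := (RingOfIntegers.basis K).equivFun.symm.injective (a₁ := c) (a₂ := c')
  apply h2
  rw [Module.Basis.equivFun_symm_apply, Module.Basis.equivFun_symm_apply]
  exact h

lemma card_obox (B : ℕ) : (obox K B).card = (2 * B + 1) ^ Module.finrank ℚ K := by
  unfold obox
  rw [Finset.card_image_of_injective _ (fun c c' h => comb_injective h), Fintype.card_piFinset,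
    Finset.prod_const, Finset.card_univ, card_idx, card_Icc_int]

lemma vec_mem (e : Fin (n + 1) × Idx K ≃ Fin (N + 1)) {B : ℕ} {u : Fin (N + 1) → ℤ}
    (hu : u ∈ box (N + 1) B) : vec e u ∈ sbox (n + 1) (obox K B) := by
  rw [mem_sbox]
  intro i
  unfold obox
  rw [Finset.mem_image]
  refine ⟨fun l => u (e (i, l)), ?_, rfl⟩
  rw [Fintype.mem_piFinset]
  intro l
  rw [Finset.mem_Icc]
  exact abs_le.1 (mem_box.1 hu _)

lemma vec_injective (e : Fin (n + 1) × Idx K ≃ Fin (N + 1)) : Function.Injective (vec e) := by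
  intro u u' h
  funext z
  obtain ⟨⟨i, l⟩, rfl⟩ := e.surjective z
  have h1 := comb_injective (c := fun l => u (e (i, l))) (c' := fun l => u' (e (i, l))) (congrFun h i)
  exact congrFun h1 l

lemma card_dim (e : Fin (n + 1) × Idx K ≃ Fin (N + 1)) : (n + 1) * Module.finrank ℚ K = N + 1 := by
  have := Fintype.card_congr e
  rwa [Fintype.card_prod, Fintype.card_fin, Fintype.card_fin, card_idx] at this

end Pool.Agent.R366.NF
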