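import Mathlib
import Pool.Agent.R366.NF.Param

set_option autoImplicit false

/-!
# Forms with few coincidences over a number field
-/

namespace Pool.Agent.R366.NF

open MvPolynomial NumberField Pool.Agent.TH910.Voj

open scoped Classical

variable {K : Type} [Field K] [NumberField K] {n N : ℕ}

lemma sz {R : Type} [CommRing R] [IsDomain R] (p : MvPolynomial (Fin (n + 1)) R) (hp : p ≠ 0)
    (S : Finset R) (hS : S.Nonempty) :
    ((sbox (n + 1) S).filter fun x => eval x p = 0).card ≤ p.totalDegree * S.card ^ n := by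
  have h1 := schwartz_zippel_totalDegree hp S
  have hS0 : (0 : ℚ≥0) < S.card := by exact_mod_cast Finset.card_pos.2 hS
  rw [div_le_div_iff₀ (by positivity) hS0] at h1
  have h2 : (((Fintype.piFinset fun _ : Fin (n + 1) => S).filter fun x => eval x p = 0).card) *
      S.card ≤ p.totalDegree * S.card ^ (n + 1) := by exact_mod_cast h1
  rw [pow_succ, ← mul_assoc] at h2
  have h3 := Nat.le_of_mul_le_mul_right h2 (Finset.card_pos.2 hS)
  unfold sbox
  exact h3

lemma zero_mem_obox (B : ℕ) : (0 : 𝓞 K) ∈ obox K B := by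
  unfold obox
  rw [Finset.mem_image]
  refine ⟨fun _ => 0, ?_, by simp⟩
  rw [Fintype.mem_piFinset]
  intro l
  rw [Finset.mem_Icc]
  constructor <;> omega

lemma FewE.mono {E : Type} [Field E] [NumberField E] {M : ℕ} {f : MvPolynomial (Fin M) (𝓞 E)}
    {μ μ' : ℕ} (h : FewE f μ) (hm : μ' ≤ μ) : FewE f μ' := by
  intro δ hδ
  obtain ⟨C, hC⟩ := h δ hδ
  refine ⟨|C|, fun B hB => (hC B hB).trans ?_⟩
  have hB1 : (1 : ℝ) ≤ B := by exact_mod_cast hB
  refine mul_le_mul (le_abs_self C) (Real.rpow_le_rpow_of_exponent_le hB1 ?_) (by positivity)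
    (abs_nonneg C)
  have : (μ' : ℝ) ≤ μ := by exact_mod_cast hm
  linarith

lemma pow_le_rpow {B : ℕ} (hB : 1 ≤ B) (c m : ℕ) (hc : 1 ≤ c) :
    (((c * B + 1 : ℕ) : ℝ)) ^ m ≤ (c + 1 : ℝ) ^ m * (B : ℝ) ^ (m : ℝ) := by
  have hB1 : (1 : ℝ) ≤ B := by exact_mod_cast hB
  rw [Real.rpow_natCast, ← mul_pow]
  refine pow_le_pow_left₀ (by positivity) ?_ _
  push_cast
  linarith

/-- every form has weight one -/
theorem few_any_nf (e : Fin (n + 1) × Idx K ≃ Fin (N + 1)) (F : MvPolynomial (Fin (n + 1)) (𝓞 K))
    (hirr : Irreducible (toK F)) : FewE (weil e F) (Module.finrank ℚ K) := by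
  intro δ hδ
  set d := Module.finrank ℚ K with hd
  have hdim := card_dim e
  refine ⟨F.totalDegree * (2 + 1 : ℝ) ^ (d * n) * (2 + 1 : ℝ) ^ (N + 1), fun B hB => ?_⟩
  have hB1 : (1 : ℝ) ≤ B := by exact_mod_cast hB
  have hBpos : (0 : ℝ) < B := by linarith
  have hne : ∀ v : 𝓞 K, F - C v ≠ 0 := by
    intro v hv
    have h1 : F = C v := sub_eq_zero.mp hv
    have h2 : toK F = (C (v : K) : MvPolynomial (Fin (n + 1)) K) := by
      rw [h1]; exact (map_C _ _).trans rfl
    by_cases hv0 : v = 0
    · apply hirr.ne_zero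
      rw [h2, hv0]; simp
    · apply hirr.not_isUnit
      rw [h2]
      refine IsUnit.map C (isUnit_iff_ne_zero.mpr ?_)
      exact fun h => hv0 (RingOfIntegers.coe_injective (by simpa using h))
  have hdeg : ∀ v : 𝓞 K, (F - C v).totalDegree ≤ F.totalDegree := by
    intro v
    refine (totalDegree_sub _ _).trans ?_
    rw [totalDegree_C]
    exact max_le le_rfl (Nat.zero_le _)
  set Z := ((box (N + 1) B) ×ˢ (box (N + 1) B)).filter
    fun z => val (weil e F) z.1 = val (weil e F) z.2 with hZ
  have hcard : Z.card ≤ F.totalDegree * ((2 * B + 1) ^ d) ^ n * (box (N + 1) B).card := by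
    refine Finset.card_le_mul_card_image_of_maps_to (f := fun z => z.2) ?_ _ ?_
    · intro z hz
      rw [hZ, Finset.mem_filter, Finset.mem_product] at hz
      exact hz.1.2
    · intro y hy
      have h3 := sz (F - C (eval (vec e y) F)) (hne _) (obox K B) ⟨0, zero_mem_obox B⟩
      rw [card_obox] at h3
      have h4 : (F - C (eval (vec e y) F)).totalDegree * ((2 * B + 1) ^ d) ^ n ≤
        F.totalDegree * ((2 * B + 1) ^ d) ^ n := Nat.mul_le_mul_right _ (hdeg _)
      refine le_trans ?_ (h3.trans h4)
      refine Finset.card_le_card_of_injOn (fun z => vec e z.1) ?_ ?_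
      · intro z hz
        rw [Finset.mem_coe, Finset.mem_filter, hZ, Finset.mem_filter, Finset.mem_product] at hz
        obtain ⟨⟨⟨hz1, hz2⟩, hz3⟩, rfl⟩ := hz
        rw [Finset.mem_coe, Finset.mem_filter]
        refine ⟨vec_mem e hz1, ?_⟩
        rw [val_weil, val_weil] at hz3
        rw [map_sub, eval_C, hz3, sub_self]
      · intro z hz z' hz' hzz'
        rw [Finset.mem_coe, Finset.mem_filter] at hz hz'
        exact Prod.ext (vec_injective e hzz') (hz.2.trans hz'.2.symm)
  rw [card_box, ← pow_mul] at hcard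
  have h5 : (Z.card : ℝ) ≤ F.totalDegree * ((2 * B + 1 : ℕ) : ℝ) ^ (d * n) *
      ((2 * B + 1 : ℕ) : ℝ) ^ (N + 1) := by exact_mod_cast hcard
  have h6 := pow_le_rpow hB 2 (d * n) (by norm_num)
  have h7 := pow_le_rpow hB 2 (N + 1) (by norm_num)
  calc (Z.card : ℝ) ≤ F.totalDegree * ((2 + 1 : ℝ) ^ (d * n) * (B : ℝ) ^ ((d * n : ℕ) : ℝ)) *
        ((2 + 1 : ℝ) ^ (N + 1) * (B : ℝ) ^ ((N + 1 : ℕ) : ℝ)) :=
        h5.trans (mul_le_mul (mul_le_mul_of_nonneg_left h6 (by positivity)) h7 (by positivity)
          (by positivity))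
    _ = F.totalDegree * (2 + 1 : ℝ) ^ (d * n) * (2 + 1 : ℝ) ^ (N + 1) *
        ((B : ℝ) ^ ((d * n : ℕ) : ℝ) * (B : ℝ) ^ ((N + 1 : ℕ) : ℝ)) := by ring
    _ ≤ _ := by
        rw [← Real.rpow_add hBpos]
        refine mul_le_mul_of_nonneg_left ?_ (by positivity)
        refine Real.rpow_le_rpow_of_exponent_le hB1 ?_
        have h8 : ((n : ℝ) + 1) * d = (N : ℝ) + 1 := by exact_mod_cast hdim
        push_cast
        nlinarith

/-! ### quadratic forms -/

lemma exists_matrix' {R : Type} [CommRing R] {n : ℕ} (F : MvPolynomial (Fin n) R)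
    (hF : F.IsHomogeneous 2) :
    ∃ m : Fin n → Fin n → R, (∀ i j, m i j = m j i) ∧
      C 2 * F = ∑ i, ∑ j, C (m i j) * X i * X j := by
  have key : ∀ s : Finset (Fin n →₀ ℕ), (∀ d ∈ s, ∑ i ∈ d.support, d i = 2) →
      ∃ m : Fin n → Fin n → R, (∀ i j, m i j = m j i) ∧
        C 2 * (∑ d ∈ s, monomial d (coeff d F)) = ∑ i, ∑ j, C (m i j) * X i * X j := by
    intro s
    induction s using Finset.induction_on with
    | empty =>
      intro _
      exact ⟨fun _ _ => 0, fun _ _ => rfl, by simp⟩
    | insert d s hds ih =>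
      intro h
      obtain ⟨m, hm1, hm2⟩ := ih fun d' hd' => h d' (Finset.mem_insert_of_mem hd')
      obtain ⟨p, q, rfl⟩ := degree_two d (h d (Finset.mem_insert_self _ _))
      set c := coeff (Finsupp.single p 1 + Finsupp.single q 1) F with hc
      refine ⟨fun i j => (if i = p then if j = q then c else 0 else 0) +
        (if i = q then if j = p then c else 0 else 0) + m i j, ?_, ?_⟩
      · intro i j
        change (_ + _) + m i j = (_ + _) + m j i
        rw [hm1 i j]
        congr 1
        have e1 : ∀ (P Q : Prop) [Decidable P] [Decidable Q], (if P then if Q then c else 0 else 0) =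
            (if Q then if P then c else 0 else 0) := by
          intro P Q _ _; split_ifs <;> rfl
        rw [e1 (i = p) (j = q), e1 (i = q) (j = p)]
        ring
      · rw [Finset.sum_insert hds, mul_add, hm2]
        have h5 : ∀ i j, (C ((if i = p then if j = q then c else 0 else 0) +
            (if i = q then if j = p then c else 0 else 0) + m i j) * X i * X j :
            MvPolynomial (Fin n) R) =
            (if i = p then if j = q then C c * X i * X j else 0 else 0) +
            (if i = q then if j = p then C c * X i * X j else 0 else 0) +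
              C (m i j) * X i * X j := by
          intro i j
          rw [C_add, C_add, add_mul, add_mul, add_mul, add_mul]
          congr 1
          congr 1
          · split_ifs <;> simp
          · split_ifs <;> simp
        simp only [h5, Finset.sum_add_distrib]
        congr 1
        have h6 : ∀ p q : Fin n, ∑ i, ∑ j, (if i = p then if j = q then
            (C c * X i * X j : MvPolynomial (Fin n) R) else 0 else 0) = C c * X p * X q := by
          intro p q
          rw [Finset.sum_eq_single p, Finset.sum_eq_single q]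
          · simp
          · intro j _ hj; simp [hj]
          · intro h; exact absurd (Finset.mem_univ _) h
          · intro i _ hi; simp [hi]
          · intro h; exact absurd (Finset.mem_univ _) h
        rw [h6, h6, monomial_eq]
        rw [Finsupp.prod_add_index (by simp) (by intros; exact pow_add _ _ _),
          Finsupp.prod_single_index (by simp), Finsupp.prod_single_index (by simp)]
        have h7 : (C 2 : MvPolynomial (Fin n) R) = 2 := map_ofNat C 2
        rw [h7]
        ring
  obtain ⟨m, hm1, hm2⟩ := key F.support (fun d hd => by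
    have := hF (MvPolynomial.mem_support_iff.mp hd)
    rw [Finsupp.weight_apply] at this
    simpa [Finsupp.sum] using this)
  refine ⟨m, hm1, ?_⟩
  rw [← hm2]
  congr 1
  exact F.as_sum

omit [NumberField K] in
lemma coe_ne_zero {a : 𝓞 K} (h : a ≠ 0) : (a : K) ≠ 0 :=
  fun h0 => h (RingOfIntegers.coe_injective (by simpa using h0))

/-- an irreducible quadratic form has rank at least two -/
lemma exists_minor' {n : ℕ} (F : MvPolynomial (Fin n) (𝓞 K)) (hirr : Irreducible (toK F))
    (m : Fin n → Fin n → 𝓞 K) (hm : C 2 * F = ∑ i, ∑ j, C (m i j) * X i * X j) :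
    ∃ a b p q, m a b ≠ 0 ∧ m a b * m p q - m p b * m a q ≠ 0 := by
  obtain ⟨a, b, hab⟩ : ∃ a b, m a b ≠ 0 := by
    by_contra hcon
    push Not at hcon
    have h1 : C 2 * F = 0 := by
      rw [hm]
      exact Finset.sum_eq_zero fun i _ => Finset.sum_eq_zero fun j _ => by rw [hcon i j]; simp
    have h2 : (C 2 : MvPolynomial (Fin n) (𝓞 K)) ≠ 0 := by
      rw [Ne, C_eq_zero]; norm_num
    have h3 : F = 0 := (mul_eq_zero.mp h1).resolve_left h2
    exact hirr.ne_zero (by rw [h3, map_zero])
  refine ⟨a, b, ?_⟩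
  by_contra hcon
  push Not at hcon
  have h0 : ∀ p q, m a b * m p q = m p b * m a q := fun p q => by
    have := hcon p q hab
    linear_combination this
  have h1 : C (m a b * 2) * F = (∑ i, C (m i b) * X i) * (∑ j, C (m a j) * X j) := by
    rw [C_mul, mul_assoc, hm, Finset.mul_sum, Finset.sum_mul]
    refine Finset.sum_congr rfl fun i _ => ?_
    rw [Finset.mul_sum, Finset.mul_sum]
    refine Finset.sum_congr rfl fun j _ => ?_
    calc C (m a b) * (C (m i j) * X i * X j) = C (m a b * m i j) * X i * X j := by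
          rw [C_mul]; ring
      _ = _ := by rw [h0 i j, C_mul]; ring
  have h2 : toK (C (m a b * 2)) * toK F =
      toK (∑ i, C (m i b) * X i) * toK (∑ j, C (m a j) * X j) := by
    rw [← RingHom.map_mul, ← RingHom.map_mul, h1]
  have hc0 : ((m a b * 2 : 𝓞 K) : K) ≠ 0 := coe_ne_zero (mul_ne_zero hab (by norm_num))
  have hC : toK (C (m a b * 2)) = (C ((m a b * 2 : 𝓞 K) : K) : MvPolynomial (Fin n) K) :=
    (map_C _ _).trans rfl
  rw [hC] at h2
  have h3 : toK F = (C (((m a b * 2 : 𝓞 K) : K)⁻¹) * toK (∑ i, C (m i b) * X i)) *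
      toK (∑ j, C (m a j) * X j) := by
    rw [mul_assoc, ← h2, ← mul_assoc, ← C_mul, inv_mul_cancel₀ hc0, C_1, one_mul]
  have hev : ∀ c : Fin n → 𝓞 K, eval (0 : Fin n → K) (toK (∑ i, C (c i) * X i)) = 0 := by
    intro c
    simp [map_sum]
  rcases hirr.isUnit_or_isUnit h3 with h4 | h4
  · have h5 := h4.map (eval (0 : Fin n → K))
    rw [map_mul, hev, mul_zero] at h5
    exact not_isUnit_zero h5
  · have h5 := h4.map (eval (0 : Fin n → K))
    rw [hev] at h5
    exact not_isUnit_zero h5

end Pool.Agent.R366.NF
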