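import Mathlib
import Pool.Agent.R366.NF.Cases

set_option autoImplicit false

/-!
# Quadratic forms and norm forms over a number field have few coincidences
-/

namespace Pool.Agent.R366.NF

open MvPolynomial NumberField Pool.Agent.TH910.Voj

open scoped Classical

variable {K : Type} [Field K] [NumberField K] {n N : ℕ}

omit [NumberField K] in
lemma w_int (w : InfinitePlace K) (m : ℤ) : w (m : K) = |(m : ℝ)| := by
  rw [← InfinitePlace.norm_embedding_eq w (m : K), map_intCast]
  exact Complex.norm_intCast m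

omit [NumberField K] in
lemma w_int' (w : InfinitePlace K) (m : ℤ) : w (((m : ℤ) : 𝓞 K) : K) = |(m : ℝ)| := by
  have h : (((m : ℤ) : 𝓞 K) : K) = (m : K) := by simp
  rw [h, w_int]

/-- size of the integers with small coordinates -/
lemma exists_size (K : Type) [Field K] [NumberField K] : ∃ A : ℝ, 1 ≤ A ∧ ∀ B : ℕ, 1 ≤ B →
    ∀ a ∈ obox K B, ∀ w : InfinitePlace K, w (a : K) ≤ A * B := by
  set A : ℝ := 1 + ∑ l : Idx K, ∑ w : InfinitePlace K, w (RingOfIntegers.basis K l : K) with hA
  have hnn : 0 ≤ ∑ l : Idx K, ∑ w : InfinitePlace K, w (RingOfIntegers.basis K l : K) :=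
    Finset.sum_nonneg fun s _ => Finset.sum_nonneg fun w _ => apply_nonneg _ _
  refine ⟨A, by linarith, fun B hB a ha w => ?_⟩
  have hB1 : (1 : ℝ) ≤ B := by exact_mod_cast hB
  unfold obox at ha
  rw [Finset.mem_image] at ha
  obtain ⟨c, hc, rfl⟩ := ha
  have h1 : ((∑ l, ((c l : ℤ) : 𝓞 K) * RingOfIntegers.basis K l : 𝓞 K) : K) =
      ∑ l, (((c l : ℤ) : 𝓞 K) : K) * (RingOfIntegers.basis K l : K) := by
    push_cast
    rfl
  rw [h1]
  calc w (∑ l, (((c l : ℤ) : 𝓞 K) : K) * (RingOfIntegers.basis K l : K))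
      ≤ ∑ l, w ((((c l : ℤ) : 𝓞 K) : K) * (RingOfIntegers.basis K l : K)) := w.1.sum_le _ _
    _ ≤ ∑ l, w (RingOfIntegers.basis K l : K) * B := by
        refine Finset.sum_le_sum fun l _ => ?_
        rw [map_mul, w_int', mul_comm]
        refine mul_le_mul_of_nonneg_left ?_ (apply_nonneg _ _)
        have h2 := (Fintype.mem_piFinset.1 hc) l
        rw [Finset.mem_Icc, ← abs_le] at h2
        exact_mod_cast h2
    _ = (∑ l, w (RingOfIntegers.basis K l : K)) * B := by rw [Finset.sum_mul]
    _ ≤ _ := by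
        refine mul_le_mul_of_nonneg_right ?_ (by positivity)
        have h2 : ∑ l, w (RingOfIntegers.basis K l : K) ≤
            ∑ l, ∑ w : InfinitePlace K, w (RingOfIntegers.basis K l : K) :=
          Finset.sum_le_sum fun s _ => Finset.single_le_sum (f := fun w : InfinitePlace K =>
            w (RingOfIntegers.basis K s : K)) (fun w _ => apply_nonneg _ _) (Finset.mem_univ w)
        linarith

lemma bilin_size (M : Fin (n + 1) → Fin (n + 1) → 𝓞 K) {X : ℝ}
    (w : InfinitePlace K) {u v : Fin (n + 1) → 𝓞 K}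
    (hu : ∀ i, w (u i : K) ≤ X) (hv : ∀ i, w (v i : K) ≤ X) :
    w ((∑ i, ∑ j, M i j * u i * v j : 𝓞 K) : K) ≤
      (∑ i, ∑ j, ∑ w : InfinitePlace K, w (M i j : K)) * X ^ 2 := by
  have h1 : ((∑ i, ∑ j, M i j * u i * v j : 𝓞 K) : K) =
      ∑ i, ∑ j, (M i j : K) * (u i : K) * (v j : K) := by
    push_cast
    rfl
  rw [h1]
  refine (w.1.sum_le _ _).trans ?_
  rw [Finset.sum_mul]
  refine Finset.sum_le_sum fun i _ => ?_
  refine (w.1.sum_le _ _).trans ?_
  rw [Finset.sum_mul]
  refine Finset.sum_le_sum fun j _ => ?_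
  have h2 : w.1 ((M i j : K) * (u i : K) * (v j : K)) = w (M i j : K) * w (u i : K) * w (v j : K) := by
    change w _ = _
    rw [map_mul, map_mul]
  rw [h2, mul_assoc]
  have h3 : w (M i j : K) ≤ ∑ w : InfinitePlace K, w (M i j : K) :=
    Finset.single_le_sum (f := fun w : InfinitePlace K => w (M i j : K))
      (fun w _ => apply_nonneg _ _) (Finset.mem_univ w)
  have h4 : w (u i : K) * w (v j : K) ≤ X ^ 2 := by
    rw [sq]
    have h5 : 0 ≤ w (u i : K) := apply_nonneg _ _
    exact mul_le_mul (hu i) (hv j) (apply_nonneg _ _) (h5.trans (hu i))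
  exact mul_le_mul h3 h4 (mul_nonneg (apply_nonneg _ _) (apply_nonneg _ _))
    (Finset.sum_nonneg fun w _ => apply_nonneg _ _)

lemma lin_size (M : Fin (n + 1) → 𝓞 K) {X : ℝ}
    (w : InfinitePlace K) {u : Fin (n + 1) → 𝓞 K} (hu : ∀ i, w (u i : K) ≤ X) :
    w ((∑ i, M i * u i : 𝓞 K) : K) ≤ (∑ i, ∑ w : InfinitePlace K, w (M i : K)) * X := by
  have h1 : ((∑ i, M i * u i : 𝓞 K) : K) = ∑ i, (M i : K) * (u i : K) := by
    push_cast
    rfl
  rw [h1]
  refine (w.1.sum_le _ _).trans ?_
  rw [Finset.sum_mul]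
  refine Finset.sum_le_sum fun i _ => ?_
  have h2 : w.1 ((M i : K) * (u i : K)) = w (M i : K) * w (u i : K) := by
    change w _ = _
    rw [map_mul]
  rw [h2]
  have h3 : w (M i : K) ≤ ∑ w : InfinitePlace K, w (M i : K) :=
    Finset.single_le_sum (f := fun w : InfinitePlace K => w (M i : K))
      (fun w _ => apply_nonneg _ _) (Finset.mem_univ w)
  exact mul_le_mul h3 (hu i) (apply_nonneg _ _) (Finset.sum_nonneg fun w _ => apply_nonneg _ _)

lemma add_mem_obox {B : ℕ} {a b : 𝓞 K} (ha : a ∈ obox K B) (hb : b ∈ obox K B) :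
    a + b ∈ obox K (2 * B) := by
  unfold obox at *
  rw [Finset.mem_image] at *
  obtain ⟨c, hc, rfl⟩ := ha
  obtain ⟨c', hc', rfl⟩ := hb
  refine ⟨fun l => c l + c' l, ?_, ?_⟩
  · rw [Fintype.mem_piFinset] at *
    intro l
    have h1 := Finset.mem_Icc.1 (hc l)
    have h2 := Finset.mem_Icc.1 (hc' l)
    rw [Finset.mem_Icc]
    push_cast
    constructor <;> linarith [h1.1, h1.2, h2.1, h2.2]
  · rw [← Finset.sum_add_distrib]
    refine Finset.sum_congr rfl fun l _ => ?_
    push_cast
    ring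

lemma neg_mem_obox {B : ℕ} {a : 𝓞 K} (ha : a ∈ obox K B) : -a ∈ obox K B := by
  unfold obox at *
  rw [Finset.mem_image] at *
  obtain ⟨c, hc, rfl⟩ := ha
  refine ⟨fun l => - c l, ?_, ?_⟩
  · rw [Fintype.mem_piFinset] at *
    intro l
    have h1 := Finset.mem_Icc.1 (hc l)
    rw [Finset.mem_Icc]
    constructor <;> linarith [h1.1, h1.2]
  · rw [← Finset.sum_neg_distrib]
    refine Finset.sum_congr rfl fun l _ => ?_
    push_cast
    ring

/-- irreducible quadratic forms have weight two -/
theorem few_two_nf (e : Fin (n + 1) × Idx K ≃ Fin (N + 1)) (F : MvPolynomial (Fin (n + 1)) (𝓞 K))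
    (hF : F.IsHomogeneous 2) (hirr : Irreducible (toK F)) :
    FewE (weil e F) (Module.finrank ℚ K * 2) := by
  intro δ hδ
  set d := Module.finrank ℚ K with hd
  have hd1 : 1 ≤ d := Module.finrank_pos (R := ℚ) (M := K)
  have hdim := card_dim e
  obtain ⟨m, hm1, hm2⟩ := exists_matrix' F hF
  obtain ⟨a, b, p, q, hab, hpq⟩ := exists_minor' F hirr m hm2
  obtain ⟨A, hA1, hsize⟩ := exists_size K
  set M : Fin (n + 1) → Fin (n + 1) → 𝓞 K := fun i j => m a b * m i j - m i b * m a j with hM
  set c₁ : ℝ := 1 + ∑ i, ∑ j, ∑ w : InfinitePlace K, w (M i j : K) with hc₁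
  set c₂ : ℝ := 1 + ∑ i, ∑ w : InfinitePlace K, w (m i b : K) with hc₂
  have hc₁' : 1 ≤ c₁ := by
    have : 0 ≤ ∑ i, ∑ j, ∑ w : InfinitePlace K, w (M i j : K) :=
      Finset.sum_nonneg fun i _ => Finset.sum_nonneg fun j _ => Finset.sum_nonneg fun w _ =>
        apply_nonneg _ _
    linarith
  have hc₂' : 1 ≤ c₂ := by
    have : 0 ≤ ∑ i, ∑ w : InfinitePlace K, w (m i b : K) :=
      Finset.sum_nonneg fun i _ => Finset.sum_nonneg fun w _ => apply_nonneg _ _
    linarith
  obtain ⟨C₁, hC₁, hdiv⟩ := few_divisors (E := K) (δ := δ / (2 * d)) (by positivity)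
  set c₃ : ℝ := (c₁ * c₂ * (2 * A) ^ 2) ^ d with hc₃
  have hc₃1 : 1 ≤ c₃ := by
    refine one_le_pow₀ ?_
    have h1 : 1 ≤ (2 * A) ^ 2 := one_le_pow₀ (by linarith)
    exact one_le_mul_of_one_le_of_one_le (one_le_mul_of_one_le_of_one_le hc₁' hc₂') h1
  refine ⟨(4 + 1 : ℝ) ^ (d * (2 * n)) * (C₁ * c₃ ^ (δ / (2 * d)) + 5), fun B hB => ?_⟩
  have hB1 : (1 : ℝ) ≤ B := by exact_mod_cast hB
  have hBpos : (0 : ℝ) < B := by linarith
  set X : ℝ := (c₁ * c₂ * (2 * A * B) ^ 2) ^ d with hX
  have hAB : 1 ≤ 2 * A * B := by nlinarith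
  have hX0 : 1 ≤ c₁ * c₂ * (2 * A * B) ^ 2 :=
    one_le_mul_of_one_le_of_one_le (one_le_mul_of_one_le_of_one_le hc₁' hc₂') (one_le_pow₀ hAB)
  have hX1 : 1 ≤ X := one_le_pow₀ hX0
  have hXX : c₁ * c₂ * (2 * A * B) ^ 2 ≤ X := le_self_pow₀ hX0 (by omega)
  set D : ℕ := ⌊C₁ * X ^ (δ / (2 * d))⌋₊ + 1 with hD
  have hsz : ∀ x ∈ sbox (n + 1) (obox K (2 * B)), ∀ w : InfinitePlace K, ∀ i,
      w (x i : K) ≤ 2 * A * B := by
    intro x hx w i
    have h1 := hsize (2 * B) (by omega) (x i) (mem_sbox.1 hx i) w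
    push_cast at h1
    linarith
  have hb := card_bilin (n := n + 1) (obox K (2 * B)) (zero_mem_obox _) m a b p q hab hpq D (by
    intro u hu w hw hne
    set t := ∑ i, ∑ j, (m a b * m i j - m i b * m a j) * u i * w j with ht
    refine (Nat.le_floor ?_).trans (Nat.le_succ _)
    have hnt : Algebra.norm ℤ t ≠ 0 := Algebra.norm_ne_zero_iff.2 hne
    refine hdiv X hX1 (Algebra.norm ℤ t) hnt ?_ _ ?_
    · refine (norm_le t (X := c₁ * c₂ * (2 * A * B) ^ 2) ?_).trans_eq rfl
      intro v
      have h1 := bilin_size M (X := 2 * A * B) v (fun i => hsz u hu v i) (fun i => hsz w hw v i)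
      refine h1.trans ?_
      refine mul_le_mul_of_nonneg_right ?_ (by positivity)
      have h2 : ∑ i, ∑ j, ∑ w : InfinitePlace K, w (M i j : K) ≤ c₁ := by rw [hc₁]; linarith
      refine h2.trans ?_
      nlinarith
    · intro lam hlam
      rw [Finset.mem_filter, Finset.mem_image] at hlam
      obtain ⟨⟨y, hy, rfl⟩, hdv⟩ := hlam
      refine ⟨hdv.trans (dvd_norm_int t), fun v => ?_⟩
      have h1 := lin_size (fun i => m i b) (X := 2 * A * B) v (fun i => hsz y hy v i)
      refine h1.trans (le_trans ?_ hXX)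
      have h2 : ∑ i, ∑ w : InfinitePlace K, w (m i b : K) ≤ c₂ := by rw [hc₂]; linarith
      calc (∑ i, ∑ w : InfinitePlace K, w (m i b : K)) * (2 * A * B)
          ≤ c₂ * (2 * A * B) := mul_le_mul_of_nonneg_right h2 (by linarith)
        _ ≤ (c₁ * c₂) * (2 * A * B) ^ 2 := by
            refine mul_le_mul (by nlinarith) (le_self_pow₀ hAB (by norm_num)) (by linarith)
              (by positivity))
  rw [card_obox, ← pow_mul] at hb
  have hval : ∀ x : Fin (n + 1) → 𝓞 K, 2 * eval x F = ∑ i, ∑ j, m i j * x i * x j := by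
    intro x
    have := congrArg (eval x) hm2
    simpa [map_sum] using this
  set Z := ((sbox (n + 1) (obox K (2 * B))) ×ˢ (sbox (n + 1) (obox K (2 * B)))).filter
    fun z => ∑ i, ∑ j, m i j * z.1 i * z.2 j = 0 with hZ
  have h2 : (((box (N + 1) B) ×ˢ (box (N + 1) B)).filter
      fun z => val (weil e F) z.1 = val (weil e F) z.2).card ≤ Z.card := by
    refine Finset.card_le_card_of_injOn (fun z => (fun i => vec e z.1 i - vec e z.2 i,
      fun i => vec e z.1 i + vec e z.2 i)) ?_ ?_
    · intro z hz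
      rw [Finset.mem_coe, Finset.mem_filter, Finset.mem_product] at hz
      obtain ⟨⟨hz1, hz2⟩, hz3⟩ := hz
      rw [val_weil, val_weil] at hz3
      have g1 := mem_sbox.1 (vec_mem e hz1)
      have g2 := mem_sbox.1 (vec_mem e hz2)
      rw [Finset.mem_coe, hZ, Finset.mem_filter, Finset.mem_product, mem_sbox, mem_sbox]
      refine ⟨⟨fun i => ?_, fun i => ?_⟩, ?_⟩
      · simp only
        rw [sub_eq_add_neg]
        exact add_mem_obox (g1 i) (neg_mem_obox (g2 i))
      · exact add_mem_obox (g1 i) (g2 i)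
      · simp only
        set x := vec e z.1
        set y := vec e z.2
        have e3 : ∑ i, ∑ j, m i j * x i * y j = ∑ i, ∑ j, m i j * y i * x j := by
          rw [Finset.sum_comm]
          refine Finset.sum_congr rfl fun i _ => Finset.sum_congr rfl fun j _ => ?_
          rw [hm1 j i]; ring
        have e4 : ∑ i, ∑ j, m i j * (x i - y i) * (x j + y j) =
            (∑ i, ∑ j, m i j * x i * x j) - (∑ i, ∑ j, m i j * y i * y j) +
            (∑ i, ∑ j, m i j * x i * y j) - (∑ i, ∑ j, m i j * y i * x j) := by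
          rw [← Finset.sum_sub_distrib, ← Finset.sum_add_distrib, ← Finset.sum_sub_distrib]
          refine Finset.sum_congr rfl fun i _ => ?_
          rw [← Finset.sum_sub_distrib, ← Finset.sum_add_distrib, ← Finset.sum_sub_distrib]
          refine Finset.sum_congr rfl fun j _ => ?_
          ring
        rw [e4, ← hval, ← hval, hz3, e3]
        ring
    · rintro z - z' - hzz'
      have e1 := congrArg Prod.fst hzz'
      have e2 := congrArg Prod.snd hzz'
      simp only at e1 e2
      refine Prod.ext (vec_injective e (funext fun i => ?_)) (vec_injective e (funext fun i => ?_))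
      · have f1 := congrFun e1 i
        have f2 := congrFun e2 i
        have f3 : (2 : 𝓞 K) * vec e z.1 i = 2 * vec e z'.1 i := by linear_combination f1 + f2
        exact mul_left_cancel₀ (by norm_num) f3
      · have f1 := congrFun e1 i
        have f2 := congrFun e2 i
        have f3 : (2 : 𝓞 K) * vec e z.2 i = 2 * vec e z'.2 i := by linear_combination f2 - f1
        exact mul_left_cancel₀ (by norm_num) f3
  have h3 : ((((box (N + 1) B) ×ˢ (box (N + 1) B)).filter
      fun z => val (weil e F) z.1 = val (weil e F) z.2).card : ℝ) ≤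
      ((4 * B + 1 : ℕ) : ℝ) ^ (d * (2 * n)) * (D + 4) := by
    have h4 := h2.trans hb
    have h5 : 2 * (2 * B) + 1 = 4 * B + 1 := by ring
    rw [h5] at h4
    have h6 : 2 * (n + 1 - 1) = 2 * n := by omega
    rw [h6] at h4
    exact_mod_cast h4
  refine h3.trans ?_
  have h6 := pow_le_rpow hB 4 (d * (2 * n)) (by norm_num)
  have h7 : (D : ℝ) + 4 ≤ (C₁ * c₃ ^ (δ / (2 * d)) + 5) * (B : ℝ) ^ δ := by
    rw [hD]
    push_cast
    have h8 := Nat.floor_le (a := C₁ * X ^ (δ / (2 * d))) (by positivity)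
    have h9 : (1 : ℝ) ≤ (B : ℝ) ^ δ := Real.one_le_rpow hB1 hδ.le
    have h10 : X ^ (δ / (2 * d)) = c₃ ^ (δ / (2 * d)) * (B : ℝ) ^ δ := by
      have h11 : X = c₃ * (B : ℝ) ^ (2 * d) := by
        rw [hX, hc₃, pow_mul, ← mul_pow]
        congr 1
        ring
      rw [h11, Real.mul_rpow (by positivity) (by positivity)]
      congr 1
      rw [← Real.rpow_natCast, ← Real.rpow_mul hBpos.le]
      congr 1
      push_cast
      have hd0 : (d : ℝ) ≠ 0 := by positivity
      field_simp
    rw [h10] at h8 ⊢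
    have h12 : (C₁ * c₃ ^ (δ / (2 * d)) + 5) * (B : ℝ) ^ δ =
        C₁ * (c₃ ^ (δ / (2 * d)) * (B : ℝ) ^ δ) + 5 * (B : ℝ) ^ δ := by ring
    rw [h12]
    linarith
  calc ((4 * B + 1 : ℕ) : ℝ) ^ (d * (2 * n)) * (D + 4)
      ≤ ((4 + 1 : ℝ) ^ (d * (2 * n)) * (B : ℝ) ^ ((d * (2 * n) : ℕ) : ℝ)) *
        ((C₁ * c₃ ^ (δ / (2 * d)) + 5) * (B : ℝ) ^ δ) :=
        mul_le_mul (by exact_mod_cast h6) h7 (by positivity) (by positivity)
    _ = (4 + 1 : ℝ) ^ (d * (2 * n)) * (C₁ * c₃ ^ (δ / (2 * d)) + 5) *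
        ((B : ℝ) ^ ((d * (2 * n) : ℕ) : ℝ) * (B : ℝ) ^ δ) := by ring
    _ = _ := by
        rw [← Real.rpow_add hBpos]
        congr 2
        have h8 : ((n : ℝ) + 1) * d = (N : ℝ) + 1 := by exact_mod_cast hdim
        push_cast
        linear_combination 2 * h8

/-! ### norm forms -/

/-- `F` is, up to a constant factor, the norm form of `∑ α i * x i` from an extension, `m` of the
coefficients `α i` being linearly independent -/
def IsNormForm (F : MvPolynomial (Fin (n + 1)) (𝓞 K)) (m : ℕ) : Prop :=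
  ∃ (E : Type) (_ : Field E) (_ : NumberField E) (_ : Algebra K E) (c : K) (α : Fin (n + 1) → E)
    (J : Finset (Fin (n + 1))), c ≠ 0 ∧ J.card = m ∧
      LinearIndependent K (fun j : J => α j) ∧
      ∀ x : Fin (n + 1) → 𝓞 K, ((eval x F : 𝓞 K) : K) =
        c * Algebra.norm K (∑ i, algebraMap K E (x i) * α i)

theorem few_normform (e : Fin (n + 1) × Idx K ≃ Fin (N + 1))
    (F : MvPolynomial (Fin (n + 1)) (𝓞 K)) (m : ℕ) (hF : IsNormForm F m) :
    FewCoincidences (normPoly (weil e F)) (Module.finrank ℚ K * m) := by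
  obtain ⟨E, _, _, _, c, α, J, hc, hJ, hind, hval⟩ := hF
  set d := Module.finrank ℚ K with hd
  obtain ⟨D, hD, hint⟩ := Pool.Agent.R366.UC.clear (Finset.univ.image α)
  have hint' : ∀ i, IsIntegral ℤ ((D : E) * α i) := fun i =>
    hint _ (Finset.mem_image_of_mem _ (Finset.mem_univ i))
  let α' : Fin (n + 1) → 𝓞 E := fun i => ⟨(D : E) * α i, hint' i⟩
  have hα' : ∀ i, (α' i : E) = (D : E) * α i := fun i => rfl
  set γ : Fin (N + 1) → 𝓞 E := fun z => α' (e.symm z).1 *
    algebraMap (𝓞 K) (𝓞 E) (RingOfIntegers.basis K (e.symm z).2) with hγ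
  set lam : MvPolynomial (Fin (N + 1)) (𝓞 E) := ∑ z, X z * C (γ z) with hlam
  have hlamval : ∀ u, (val lam u : E) = D * ∑ i, algebraMap K E (vec e u i : K) * α i := by
    intro u
    have h1 : (val lam u : E) = ∑ z, (((u z : ℤ) : 𝓞 E) : E) * (γ z : E) := by
      rw [val, hlam, map_sum]
      push_cast
      refine Finset.sum_congr rfl fun z _ => ?_
      rw [map_mul, eval_X, eval_C]
      push_cast
      rfl
    rw [h1, ← e.sum_comp, Fintype.sum_prod_type, Finset.mul_sum]
    refine Finset.sum_congr rfl fun i _ => ?_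
    have h2 : algebraMap K E (vec e u i : K) = ∑ l, (((u (e (i, l)) : ℤ) : 𝓞 E) : E) *
        algebraMap K E (RingOfIntegers.basis K l : K) := by
      show algebraMap K E (algebraMap (𝓞 K) K (∑ l, ((u (e (i, l)) : ℤ) : 𝓞 K) *
        RingOfIntegers.basis K l)) = _
      rw [map_sum, map_sum]
      refine Finset.sum_congr rfl fun l _ => ?_
      rw [map_mul, map_mul]
      congr 1
      simp
    rw [h2, Finset.sum_mul, Finset.mul_sum]
    refine Finset.sum_congr rfl fun l _ => ?_
    have h3 : (γ (e (i, l)) : E) = ((D : E) * α i) *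
        algebraMap K E (RingOfIntegers.basis K l : K) := by
      rw [← hα', hγ]
      simp only [Equiv.symm_apply_apply]
      exact map_mul (algebraMap (𝓞 E) E) _ _
    rw [h3]
    ring
  have hDE : (D : E) ≠ 0 := Int.cast_ne_zero.2 hD
  -- few coincidences of the linear form
  have hfewE : FewE lam (d * m) := by
    intro δ hδ
    set A : Finset (Fin (N + 1)) := (J ×ˢ (Finset.univ : Finset (Idx K))).map e.toEmbedding with hA
    have hAc : A.card = m * d := by
      rw [hA, Finset.card_map, Finset.card_product, hJ, Finset.card_univ, card_idx]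
    have hAN : A.card ≤ N + 1 := by
      have := Finset.card_le_univ A
      rwa [Fintype.card_fin] at this
    refine ⟨(2 + 1 : ℝ) ^ (N + 1 - A.card) * (2 + 1 : ℝ) ^ (N + 1), fun B hB => ?_⟩
    have hB1 : (1 : ℝ) ≤ B := by exact_mod_cast hB
    have hBpos : (0 : ℝ) < B := by linarith
    set Z := ((box (N + 1) B) ×ˢ (box (N + 1) B)).filter
      fun z => val lam z.1 = val lam z.2 with hZ
    have hcard : Z.card ≤ (2 * B + 1) ^ (N + 1 - A.card) * (box (N + 1) B).card := by
      refine Finset.card_le_mul_card_image_of_maps_to (f := fun z => z.2) ?_ _ ?_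
      · intro z hz
        rw [hZ, Finset.mem_filter, Finset.mem_product] at hz
        exact hz.1.2
      · intro y hy
        have h3 := card_le_of_agree (B := B) A ((box (N + 1) B).filter fun u =>
          val lam u = val lam y) (Finset.filter_subset _ _) (by
            intro u hu u' hu' hag
            rw [Finset.mem_filter] at hu hu'
            have h4 : (val lam u : E) = val lam u' := by rw [hu.2, hu'.2]
            rw [hlamval, hlamval] at h4
            have h5 := mul_left_cancel₀ hDE h4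
            have h6 : ∀ i, i ∉ J → vec e u i = vec e u' i := by
              intro i hi
              rw [vec, vec]
              refine Finset.sum_congr rfl fun l _ => ?_
              rw [hag (e (i, l)) (by
                rw [hA, Finset.mem_map]
                rintro ⟨⟨i', l'⟩, h7, h8⟩
                rw [Finset.mem_product] at h7
                have h9 := e.injective h8
                rw [Prod.mk.injEq] at h9
                exact hi (h9.1 ▸ h7.1))]
            have h7 : ∑ j : J, (((vec e u j : 𝓞 K) : K) - (vec e u' j : K)) • α j = 0 := by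
              have h8 : ∑ i, (((vec e u i : 𝓞 K) : K) - (vec e u' i : K)) • α i = 0 := by
                have h9 : ∀ i, (((vec e u i : 𝓞 K) : K) - (vec e u' i : K)) • α i =
                    algebraMap K E (vec e u i : K) * α i - algebraMap K E (vec e u' i : K) * α i := by
                  intro i
                  rw [Algebra.smul_def, map_sub, sub_mul]
                rw [Finset.sum_congr rfl fun i _ => h9 i, Finset.sum_sub_distrib, h5, sub_self]
              rw [← h8, Finset.sum_coe_sort J (fun i => (((vec e u i : 𝓞 K) : K) -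
                (vec e u' i : K)) • α i)]
              refine Finset.sum_subset (Finset.subset_univ J) fun i _ hi => ?_
              rw [h6 i hi, sub_self, zero_smul]
            have h10 := (Fintype.linearIndependent_iff.1 hind) _ h7
            apply vec_injective e
            funext i
            by_cases hi : i ∈ J
            · have h11 := h10 ⟨i, hi⟩
              exact RingOfIntegers.coe_injective (sub_eq_zero.1 h11)
            · exact h6 i hi)
        refine le_trans ?_ h3
        refine Finset.card_le_card_of_injOn (fun z => z.1) ?_ ?_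
        · intro z hz
          rw [Finset.mem_coe, Finset.mem_filter, hZ, Finset.mem_filter, Finset.mem_product] at hz
          obtain ⟨⟨⟨hz1, hz2⟩, hz3⟩, rfl⟩ := hz
          rw [Finset.mem_coe, Finset.mem_filter]
          exact ⟨hz1, hz3⟩
        · intro z hz z' hz' hzz'
          rw [Finset.mem_coe, Finset.mem_filter] at hz hz'
          exact Prod.ext hzz' (hz.2.trans hz'.2.symm)
    rw [card_box] at hcard
    have h5 : (Z.card : ℝ) ≤ ((2 * B + 1 : ℕ) : ℝ) ^ (N + 1 - A.card) *
        ((2 * B + 1 : ℕ) : ℝ) ^ (N + 1) := by exact_mod_cast hcard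
    have h6 := pow_le_rpow hB 2 (N + 1 - A.card) (by norm_num)
    have h7 := pow_le_rpow hB 2 (N + 1) (by norm_num)
    calc (Z.card : ℝ) ≤ ((2 + 1 : ℝ) ^ (N + 1 - A.card) * (B : ℝ) ^ ((N + 1 - A.card : ℕ) : ℝ)) *
          ((2 + 1 : ℝ) ^ (N + 1) * (B : ℝ) ^ ((N + 1 : ℕ) : ℝ)) :=
          h5.trans (mul_le_mul h6 h7 (by positivity) (by positivity))
      _ = (2 + 1 : ℝ) ^ (N + 1 - A.card) * (2 + 1 : ℝ) ^ (N + 1) *
          ((B : ℝ) ^ ((N + 1 - A.card : ℕ) : ℝ) * (B : ℝ) ^ ((N + 1 : ℕ) : ℝ)) := by ring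
      _ ≤ _ := by
          rw [← Real.rpow_add hBpos]
          refine mul_le_mul_of_nonneg_left ?_ (by positivity)
          refine Real.rpow_le_rpow_of_exponent_le hB1 ?_
          rw [Nat.cast_sub hAN, hAc]
          push_cast
          nlinarith
  -- the norms
  have hfew := few_norm hfewE
  rw [few_iff] at hfew ⊢
  intro δ hδ
  obtain ⟨C', hC'⟩ := hfew δ hδ
  refine ⟨C', fun B hB => le_trans (le_of_eq ?_) (hC' B hB)⟩
  have hkey : ∀ u u' : Fin (N + 1) → ℤ, eval u (normPoly (weil e F)) =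
      eval u' (normPoly (weil e F)) ↔ eval u (normPoly lam) = eval u' (normPoly lam) := by
    intro u u'
    have h1 : ∀ u, ((eval u (normPoly (weil e F)) : ℤ) : ℚ) * (D : ℚ) ^ Module.finrank ℚ E =
        Algebra.norm ℚ c * ((eval u (normPoly lam) : ℤ) : ℚ) := by
      intro u
      rw [eval_normPoly', eval_normPoly', val_weil, Algebra.coe_norm_int, Algebra.coe_norm_int,
        hval, hlamval, map_mul, Algebra.norm_norm, map_mul]
      have h2 : Algebra.norm ℚ (D : E) = (D : ℚ) ^ Module.finrank ℚ E := by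
        have h3 : (D : E) = algebraMap ℚ E (D : ℚ) := by simp
        rw [h3, Algebra.norm_algebraMap]
      rw [h2]
      ring
    have hD0 : (D : ℚ) ^ Module.finrank ℚ E ≠ 0 := pow_ne_zero _ (Int.cast_ne_zero.2 hD)
    have hc0 : Algebra.norm ℚ c ≠ 0 := Algebra.norm_ne_zero_iff.2 hc
    constructor
    · intro h
      have h2 := h1 u
      rw [h, h1 u'] at h2
      have h3 := mul_left_cancel₀ hc0 h2
      exact_mod_cast h3.symm
    · intro h
      have h2 := h1 u
      rw [h, ← h1 u'] at h2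
      have h3 := mul_right_cancel₀ hD0 h2
      exact_mod_cast h3
  congr 1
  congr 1
  exact Finset.filter_congr fun z _ => hkey _ _

end Pool.Agent.R366.NF
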