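import Mathlib
import Pool.Agent.R366.NF.Elim
import Pool.Agent.R366.NF.Few

set_option autoImplicit false

/-!
# The truncated counting function over a number field at rational integral vectors
-/

namespace Pool.Agent.R366.NF

open MvPolynomial NumberField IsDedekindDomain Pool.Agent.TH910.Voj Pool.Agent.H813R3.Voj

open scoped Classical

variable {K : Type} [Field K] [NumberField K] {N q : ℕ}

/-- the sum of `log N(v)` over the primes outside `S` dividing one of the `a j` -/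
noncomputable def truncI (S : Finset ℕ) (a : Fin q → 𝓞 K) : ℝ :=
  ∑ᶠ v : HeightOneSpectrum (𝓞 K), if (∀ p ∈ S, (p : 𝓞 K) ∉ v.asIdeal) ∧ ∃ j, a j ∈ v.asIdeal
    then Real.log (Ideal.absNorm v.asIdeal) else 0

lemma log_absNorm_nonneg (v : HeightOneSpectrum (𝓞 K)) :
    0 ≤ Real.log (Ideal.absNorm v.asIdeal : ℝ) := by
  apply Real.log_nonneg
  have := NumberField.HeightOneSpectrum.one_lt_absNorm v
  exact_mod_cast this.le

omit [NumberField K] in
lemma finite_mem [NumberField K] {a : 𝓞 K} (ha : a ≠ 0) :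
    {v : HeightOneSpectrum (𝓞 K) | a ∈ v.asIdeal}.Finite := by
  have hne : Ideal.span {a} ≠ 0 := by
    rw [Ne, Ideal.zero_eq_bot, Ideal.span_singleton_eq_bot]
    exact ha
  refine (Ideal.finite_factors hne).subset ?_
  intro v hv
  show v.asIdeal ∣ Ideal.span {a}
  rw [Ideal.dvd_span_singleton]
  exact hv

lemma sum_le_truncI (S : Finset ℕ) (a : Fin q → 𝓞 K) (ha : ∀ j, a j ≠ 0)
    (V : Finset (HeightOneSpectrum (𝓞 K)))
    (hV : ∀ v ∈ V, (∀ p ∈ S, (p : 𝓞 K) ∉ v.asIdeal) ∧ ∃ j, a j ∈ v.asIdeal) :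
    ∑ v ∈ V, Real.log (Ideal.absNorm v.asIdeal) ≤ truncI S a := by
  unfold truncI
  have hfin : (⋃ j, {v : HeightOneSpectrum (𝓞 K) | a j ∈ v.asIdeal}).Finite :=
    Set.finite_iUnion fun j => finite_mem (ha j)
  rw [finsum_eq_sum_of_support_subset _ (s := hfin.toFinset ∪ V) (by
    intro v hv
    rw [Function.mem_support] at hv
    have h1 : (∀ p ∈ S, (p : 𝓞 K) ∉ v.asIdeal) ∧ ∃ j, a j ∈ v.asIdeal := by
      by_contra hne
      exact hv (if_neg hne)
    obtain ⟨-, j, h2⟩ := h1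
    refine Finset.mem_coe.2 (Finset.mem_union_left _ ?_)
    rw [Set.Finite.mem_toFinset, Set.mem_iUnion]
    exact ⟨j, h2⟩)]
  calc ∑ v ∈ V, Real.log (Ideal.absNorm v.asIdeal : ℝ)
      = ∑ v ∈ V, (if (∀ p ∈ S, (p : 𝓞 K) ∉ v.asIdeal) ∧ ∃ j, a j ∈ v.asIdeal
        then Real.log (Ideal.absNorm v.asIdeal : ℝ) else 0) :=
        Finset.sum_congr rfl fun v hv => by rw [if_pos (hV v hv)]
    _ ≤ _ := by
        refine Finset.sum_le_sum_of_subset_of_nonneg Finset.subset_union_right fun v _ _ => ?_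
        split_ifs
        · exact log_absNorm_nonneg v
        · exact le_rfl

/-- a prime above a prime divisor of the norm -/
lemma exists_above {a : 𝓞 K} (ha : a ≠ 0) {p : ℕ} (hp : p.Prime)
    (h : (p : ℤ) ∣ Algebra.norm ℤ a) :
    ∃ v : HeightOneSpectrum (𝓞 K), (p : 𝓞 K) ∈ v.asIdeal ∧ a ∈ v.asIdeal := by
  set I : Ideal (𝓞 K) := Ideal.span {a, (p : 𝓞 K)} with hI
  have hp0 : (p : 𝓞 K) ≠ 0 := by exact_mod_cast hp.ne_zero
  have hpI : (p : 𝓞 K) ∈ I := Ideal.subset_span (by simp)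
  have haI : a ∈ I := Ideal.subset_span (by simp)
  by_cases htop : I = ⊤
  · exfalso
    have h1 : (1 : 𝓞 K) ∈ I := by rw [htop]; trivial
    rw [hI, Ideal.mem_span_pair] at h1
    obtain ⟨b, c, hbc⟩ := h1
    have hne : Ideal.span {a} ≠ ⊥ := by
      rw [Ne, Ideal.span_singleton_eq_bot]; exact ha
    have : Finite (𝓞 K ⧸ Ideal.span {a}) := Ideal.finiteQuotientOfFreeOfNeBot _ hne
    have : Fintype (𝓞 K ⧸ Ideal.span {a}) := Fintype.ofFinite _
    have : Fact p.Prime := ⟨hp⟩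
    have hcard : p ∣ Fintype.card (𝓞 K ⧸ Ideal.span {a}) := by
      have h2 : Fintype.card (𝓞 K ⧸ Ideal.span {a}) = (Algebra.norm ℤ a).natAbs := by
        rw [← Ideal.absNorm_span_singleton, Ideal.absNorm_apply, Submodule.cardQuot_apply,
          Nat.card_eq_fintype_card]
      rw [h2]
      exact Int.natCast_dvd.1 h
    obtain ⟨z, hz⟩ := exists_prime_addOrderOf_dvd_card p hcard
    obtain ⟨z, rfl⟩ := Ideal.Quotient.mk_surjective z
    have hz1 : p • (Ideal.Quotient.mk (Ideal.span {a}) z) = 0 := by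
      rw [← hz]; exact addOrderOf_nsmul_eq_zero _
    rw [nsmul_eq_mul] at hz1
    have hz2 : (Ideal.Quotient.mk (Ideal.span {a})) z = 0 := by
      have h3 : z = b * z * a + c * ((p : 𝓞 K) * z) := by
        linear_combination -z * hbc
      have h4 : (Ideal.Quotient.mk (Ideal.span {a})) ((p : 𝓞 K) * z) = 0 := by
        rw [map_mul, map_natCast]; exact hz1
      rw [h3, map_add, map_mul, map_mul _ c, h4, mul_zero, add_zero]
      have h5 : (Ideal.Quotient.mk (Ideal.span {a})) a = 0 :=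
        Ideal.Quotient.eq_zero_iff_mem.2 (Ideal.mem_span_singleton_self a)
      rw [h5, mul_zero]
    rw [hz2, addOrderOf_zero] at hz
    exact hp.one_lt.ne hz
  · obtain ⟨M, hM, hIM⟩ := Ideal.exists_le_maximal I htop
    have hMne : M ≠ ⊥ := by
      rintro rfl
      exact hp0 (by simpa using hIM hpI)
    exact ⟨⟨M, hM.isPrime, hMne⟩, hIM hpI, hIM haI⟩

lemma absNorm_ge {v : HeightOneSpectrum (𝓞 K)} {p : ℕ} (hp : p.Prime)
    (h : (p : 𝓞 K) ∈ v.asIdeal) : Real.log p ≤ Real.log (Ideal.absNorm v.asIdeal) := by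
  have h1 : Ideal.absNorm v.asIdeal ∣ Ideal.absNorm (Ideal.span {(p : 𝓞 K)}) :=
    Ideal.absNorm_dvd_absNorm_of_le (by rwa [Ideal.span_singleton_le_iff_mem])
  have h2 : Ideal.absNorm (Ideal.span {(p : 𝓞 K)}) = p ^ Module.finrank ℚ K := by
    rw [Ideal.absNorm_span_singleton]
    have h3 : (p : 𝓞 K) = algebraMap ℤ (𝓞 K) (p : ℤ) := by simp
    rw [h3, Algebra.norm_algebraMap, RingOfIntegers.rank, Int.natAbs_pow, Int.natAbs_natCast]
  rw [h2] at h1
  obtain ⟨t, -, ht⟩ := (Nat.dvd_prime_pow hp).1 h1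
  have h4 := NumberField.HeightOneSpectrum.one_lt_absNorm v
  have h5 : t ≠ 0 := by
    rintro rfl
    rw [ht, pow_zero] at h4
    exact absurd h4 (lt_irrefl _)
  have h6 : p ≤ Ideal.absNorm v.asIdeal := by
    rw [ht]; exact Nat.le_self_pow h5 p
  exact Real.log_le_log (by exact_mod_cast hp.pos) (by exact_mod_cast h6)

omit [NumberField K] in
lemma dvd_of_mem {v : HeightOneSpectrum (𝓞 K)} {p : ℕ} (hp : p.Prime)
    (h : (p : 𝓞 K) ∈ v.asIdeal) {m : ℤ} (hm : (m : 𝓞 K) ∈ v.asIdeal) : (p : ℤ) ∣ m := by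
  by_contra hcon
  have hco : IsCoprime (p : ℤ) m := (Nat.prime_iff_prime_int.1 hp).coprime_iff_not_dvd.2 hcon
  obtain ⟨a, b, hab⟩ := hco
  have h1 : (1 : 𝓞 K) = (a : 𝓞 K) * (p : 𝓞 K) + (b : 𝓞 K) * (m : 𝓞 K) := by
    have := congrArg (fun i : ℤ => (i : 𝓞 K)) hab
    push_cast at this
    exact this.symm
  apply v.isPrime.ne_top
  rw [Ideal.eq_top_iff_one, h1]
  exact Ideal.add_mem _ (Ideal.mul_mem_left _ _ h) (Ideal.mul_mem_left _ _ hm)

lemma sum_biUnion_le' {α β : Type*} [DecidableEq α] [DecidableEq β] (s : Finset α) (t : α → Finset β) (f : β → ℝ)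
    (hf : ∀ b, 0 ≤ f b) : ∑ b ∈ s.biUnion t, f b ≤ ∑ a ∈ s, ∑ b ∈ t a, f b := by
  induction s using Finset.induction_on with
  | empty => simp
  | insert a s ha ih =>
    rw [Finset.biUnion_insert, Finset.sum_insert ha]
    have h1 : ∑ b ∈ t a ∪ s.biUnion t, f b ≤ ∑ b ∈ t a, f b + ∑ b ∈ s.biUnion t, f b := by
      rw [← Finset.sum_union_inter]
      have : 0 ≤ ∑ b ∈ t a ∩ s.biUnion t, f b := Finset.sum_nonneg fun p _ => hf p
      linarith
    linarith

lemma log_rd (m : ℕ) : Real.log (rd m) = ∑ p ∈ m.primeFactors, Real.log p := by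
  unfold rd
  push_cast
  rw [Real.log_prod fun p hp => by exact_mod_cast (Nat.prime_of_mem_primeFactors hp).ne_zero]

/-- lower bound for the truncated counting function -/
lemma trunc_lower (S : Finset ℕ) (hS : ∀ p ∈ S, p.Prime) (a : Fin q → 𝓞 K) (ha : ∀ j, a j ≠ 0)
    (g : Fin q → Fin q → ℤ) (hg0 : ∀ i j, i ≠ j → g i j ≠ 0)
    (hg : ∀ i j, i ≠ j → ∀ p : ℕ, p.Prime → ∀ v : HeightOneSpectrum (𝓞 K),
      (p : 𝓞 K) ∈ v.asIdeal → a i ∈ v.asIdeal → a j ∈ v.asIdeal → (p : ℤ) ∣ g i j) :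
    ∑ j, (Real.log (rd (Algebra.norm ℤ (a j)).natAbs) -
      ∑ i ∈ Finset.univ.erase j, Real.log (rd (g i j).natAbs)) - q * ∑ p ∈ S, Real.log p ≤
        truncI S a := by
  have hnn : ∀ p : ℕ, 0 ≤ Real.log p := Real.log_natCast_nonneg
  have hN0 : ∀ j, Algebra.norm ℤ (a j) ≠ 0 := fun j => Algebra.norm_ne_zero_iff.2 (ha j)
  set Q : Fin q → Finset ℕ := fun j => (Algebra.norm ℤ (a j)).natAbs.primeFactors.filter
    fun p : ℕ => p ∉ S ∧ ∀ i, i ≠ j → ¬ (p : ℤ) ∣ g i j with hQ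
  have hQm : ∀ j, ∀ p ∈ Q j, p.Prime ∧ (p : ℤ) ∣ Algebra.norm ℤ (a j) ∧ p ∉ S ∧
      ∀ i, i ≠ j → ¬ (p : ℤ) ∣ g i j := by
    intro j p hp
    rw [hQ, Finset.mem_filter, Nat.mem_primeFactors] at hp
    exact ⟨hp.1.1, Int.natCast_dvd.2 hp.1.2.1, hp.2⟩
  have h1 : ∀ j, Real.log (rd (Algebra.norm ℤ (a j)).natAbs) -
      ∑ i ∈ Finset.univ.erase j, Real.log (rd (g i j).natAbs) - ∑ p ∈ S, Real.log p ≤
      ∑ p ∈ Q j, Real.log p := by
    intro j
    rw [log_rd]
    simp only [log_rd]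
    have h2 : (Algebra.norm ℤ (a j)).natAbs.primeFactors ⊆ Q j ∪ (S ∪
        (Finset.univ.erase j).biUnion fun i => (g i j).natAbs.primeFactors) := by
      intro p hp
      by_cases hpS : p ∈ S
      · exact Finset.mem_union_right _ (Finset.mem_union_left _ hpS)
      · by_cases hpg : ∃ i, i ≠ j ∧ (p : ℤ) ∣ g i j
        · obtain ⟨i, hij, hd⟩ := hpg
          refine Finset.mem_union_right _ (Finset.mem_union_right _ ?_)
          rw [Finset.mem_biUnion]
          refine ⟨i, Finset.mem_erase.2 ⟨hij, Finset.mem_univ i⟩, ?_⟩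
          rw [Nat.mem_primeFactors]
          exact ⟨Nat.prime_of_mem_primeFactors hp, Int.natCast_dvd.1 hd,
            Int.natAbs_ne_zero.2 (hg0 i j hij)⟩
        · push Not at hpg
          exact Finset.mem_union_left _ (Finset.mem_filter.2 ⟨hp, hpS, hpg⟩)
    have hU : ∀ A B : Finset ℕ, ∑ p ∈ A ∪ B, Real.log (p : ℝ) ≤
        ∑ p ∈ A, Real.log (p : ℝ) + ∑ p ∈ B, Real.log (p : ℝ) := by
      intro A B
      rw [← Finset.sum_union_inter]
      have : 0 ≤ ∑ p ∈ A ∩ B, Real.log (p : ℝ) := Finset.sum_nonneg fun p _ => hnn p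
      linarith
    have h3 := Finset.sum_le_sum_of_subset_of_nonneg h2 (f := fun p : ℕ => Real.log p)
      fun p _ _ => hnn p
    have h4 := hU (Q j) (S ∪ (Finset.univ.erase j).biUnion fun i => (g i j).natAbs.primeFactors)
    have h5 := hU S ((Finset.univ.erase j).biUnion fun i => (g i j).natAbs.primeFactors)
    have h6 : ∑ p ∈ (Finset.univ.erase j).biUnion (fun i => (g i j).natAbs.primeFactors),
        Real.log (p : ℝ) ≤ ∑ i ∈ Finset.univ.erase j,
          ∑ p ∈ (g i j).natAbs.primeFactors, Real.log (p : ℝ) :=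
      sum_biUnion_le' _ _ _ fun p => hnn p
    linarith
  -- the places
  have hex : ∀ z : (_ : Fin q) × ℕ, ∃ v : HeightOneSpectrum (𝓞 K), z.2 ∈ Q z.1 →
      (z.2 : 𝓞 K) ∈ v.asIdeal ∧ a z.1 ∈ v.asIdeal := by
    intro z
    by_cases hz : z.2 ∈ Q z.1
    · obtain ⟨v, hv⟩ := exists_above (ha z.1) (hQm _ _ hz).1 (hQm _ _ hz).2.1
      exact ⟨v, fun _ => hv⟩
    · by_cases hne : Nonempty (HeightOneSpectrum (𝓞 K))
      · exact ⟨hne.some, fun h => absurd h hz⟩
      · obtain ⟨p, hp, hdiv⟩ : ∃ p : ℕ, p.Prime ∧ True := ⟨2, Nat.prime_two, trivial⟩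
        exfalso
        apply hne
        have h2 : ((2 : ℕ) : ℤ) ∣ Algebra.norm ℤ ((2 : ℕ) : 𝓞 K) := by
          have h3 : ((2 : ℕ) : 𝓞 K) = algebraMap ℤ (𝓞 K) ((2 : ℕ) : ℤ) := by simp
          rw [h3, Algebra.norm_algebraMap, RingOfIntegers.rank]
          exact dvd_pow_self _ Module.finrank_pos.ne'
        obtain ⟨v, -⟩ := exists_above (K := K) (a := ((2 : ℕ) : 𝓞 K)) (by norm_num) Nat.prime_two h2
        exact ⟨v⟩
  choose v hv using hex
  set T := Finset.univ.sigma Q with hT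
  have hvT : ∀ z ∈ T, (z.2 : 𝓞 K) ∈ (v z).asIdeal ∧ a z.1 ∈ (v z).asIdeal := by
    intro z hz
    rw [hT, Finset.mem_sigma] at hz
    exact hv z hz.2
  have hinj : Set.InjOn v (T : Set ((_ : Fin q) × ℕ)) := by
    rintro ⟨j, p⟩ hz ⟨i, p'⟩ hz' hvv
    have h3 := hvT _ hz
    have h4 := hvT _ hz'
    rw [Finset.mem_coe, hT, Finset.mem_sigma] at hz hz'
    have hp := hQm j p hz.2
    have hp' := hQm i p' hz'.2
    rw [← hvv] at h4
    have hpp : p = p' := by
      have h5 := dvd_of_mem hp.1 h3.1 (m := (p' : ℤ)) (by simpa using h4.1)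
      exact (Nat.prime_dvd_prime_iff_eq hp.1 hp'.1).1 (by exact_mod_cast h5)
    subst hpp
    by_cases hij : i = j
    · subst hij; rfl
    · exact absurd (hg i j hij p hp.1 _ h3.1 h4.2 h3.2) (hp.2.2.2 i hij)
  have h7 := sum_le_truncI S a ha (T.image v) (by
    intro w hw
    rw [Finset.mem_image] at hw
    obtain ⟨z, hz, rfl⟩ := hw
    have h3 := hvT z hz
    rw [hT, Finset.mem_sigma] at hz
    have hp := hQm z.1 z.2 hz.2
    refine ⟨fun l hl hlv => ?_, z.1, h3.2⟩
    have h5 := dvd_of_mem hp.1 h3.1 (m := (l : ℤ)) (by simpa using hlv)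
    have h6 : z.2 = l := (Nat.prime_dvd_prime_iff_eq hp.1 (hS l hl)).1 (by exact_mod_cast h5)
    exact hp.2.2.1 (h6 ▸ hl))
  rw [Finset.sum_image hinj] at h7
  have h8 : ∑ z ∈ T, Real.log (z.2 : ℝ) ≤
      ∑ z ∈ T, Real.log (Ideal.absNorm (v z).asIdeal : ℝ) := by
    refine Finset.sum_le_sum fun z hz => ?_
    have h3 := hvT z hz
    rw [hT, Finset.mem_sigma] at hz
    exact absNorm_ge (hQm z.1 z.2 hz.2).1 h3.1
  rw [hT, Finset.sum_sigma] at h8
  have h9 := Finset.sum_le_sum fun j (_ : j ∈ Finset.univ) => h1 j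
  rw [Finset.sum_sub_distrib] at h9
  rw [Finset.sum_const, Finset.card_univ, Fintype.card_fin, nsmul_eq_mul] at h9
  exact h9.trans (h8.trans h7)

lemma normPoly_ne_zero {f : MvPolynomial (Fin N) (𝓞 K)} (hf0 : f ≠ 0) : normPoly f ≠ 0 := by
  intro h1
  have h2 : ∀ u : Fin N → ℤ, eval (fun i => ((u i : ℤ) : 𝓞 K)) f = 0 := by
    intro u
    have h3 := eval_normPoly f u
    rw [h1, map_zero] at h3
    exact (Algebra.norm_eq_zero_iff).1 h3.symm
  apply hf0
  rw [← sum_coordPoly f]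
  refine Finset.sum_eq_zero fun l _ => ?_
  have h4 : coordPoly f l = 0 := by
    refine MvPolynomial.funext fun u => ?_
    rw [eval_coordPoly, h2 u, map_zero, map_zero]
    rfl
  rw [h4, map_zero, mul_zero]

lemma val_ofZ (P : MvPolynomial (Fin N) ℤ) (u : Fin N → ℤ) :
    val (ofZ K P) u = ((eval u P : ℤ) : 𝓞 K) := by
  have h : (eval (fun i => ((u i : ℤ) : 𝓞 K))).comp (ofZ K) =
      (Int.castRingHom (𝓞 K)).comp (eval u) := by
    refine MvPolynomial.ringHom_ext' (RingHom.ext_int _ _) fun i => ?_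
    simp
  exact congrArg (fun g : MvPolynomial (Fin N) ℤ →+* 𝓞 K => g P) h

omit [NumberField K] in
lemma val_mul (f g : MvPolynomial (Fin N) (𝓞 K)) (u : Fin N → ℤ) :
    val (f * g) u = val f u * val g u := map_mul _ _ _

omit [NumberField K] in
lemma val_add (f g : MvPolynomial (Fin N) (𝓞 K)) (u : Fin N → ℤ) :
    val (f + g) u = val f u + val g u := map_add _ _ _

/-- **the truncated counting function, at rational integral vectors** -/
theorem sparse_trunc {N : ℕ} (f : Fin q → MvPolynomial (Fin (N + 1)) (𝓞 K)) (k μ : Fin q → ℕ)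
    (hhom : ∀ j, (f j).IsHomogeneous (k j)) (hirr : ∀ j, Irreducible (toK (f j)))
    (hdist : ∀ i j, i ≠ j → ¬ Associated (toK (f i)) (toK (f j)))
    (hfew : ∀ j, FewCoincidences (normPoly (f j)) (μ j))
    (S : Finset ℕ) (hS : ∀ p ∈ S, p.Prime) (θ : ℝ) (hθ : θ < ∑ j, (μ j : ℝ)) :
    Sparse (N + 1) (fun B u => (∃ j, val (f j) u = 0) ∨
      truncI S (fun j => val (f j) u) < θ * Real.log B) := by
  -- the polynomials below
  have hP : ∀ j, ∃ (P : MvPolynomial (Fin (N + 1)) ℤ) (k' : ℕ), P.IsHomogeneous k' ∧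
      Irreducible (toQ P) ∧ ∃ A : MvPolynomial (Fin (N + 1)) (𝓞 K), ofZ K P = A * f j :=
    fun j => exists_below (f j) (hhom j) (hirr j)
  choose P k' hPhom hPirr A hPA using hP
  have hG : ∀ i j, ∃ G : MvPolynomial (Fin (N + 1)) ℤ, i ≠ j → ¬ toQ (P i) ∣ toQ G ∧
      ∃ U V : MvPolynomial (Fin (N + 1)) (𝓞 K), ofZ K G = U * f i + V * f j := by
    intro i j
    by_cases hij : i = j
    · exact ⟨0, fun h => absurd hij h⟩
    · have h1 : ¬ toK (f i) ∣ toK (f j) := by
        intro h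
        exact hdist i j hij ((hirr i).associated_of_dvd (hirr j) h)
      obtain ⟨G, hG1, hG2⟩ := exists_int_elim (f i) (f j) (hirr i) h1
      refine ⟨G, fun _ => ⟨?_, hG2⟩⟩
      intro h2
      apply hG1
      have h3 : toK (f i) ∣ toK (ofZ K (P i)) := by
        rw [hPA, map_mul]; exact dvd_mul_left _ _
      refine h3.trans ?_
      rw [toK_ofZ, toK_ofZ]
      exact map_dvd _ h2
  choose G hG using hG
  have hP0 : ∀ j, P j ≠ 0 := by
    intro j h0
    exact (hPirr j).ne_zero (by rw [h0, map_zero])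
  have hf0 : ∀ j, f j ≠ 0 := by
    intro j h0
    exact (hirr j).ne_zero (by rw [h0, map_zero])
  set Δ : ℝ := (∑ j, (μ j : ℝ)) - θ with hΔ
  have hΔ0 : 0 < Δ := by rw [hΔ]; linarith
  set η : ℝ := Δ / (2 * (q + 1) ^ 2) with hη
  have hη0 : 0 < η := by positivity
  obtain ⟨B₀, hB₀⟩ : ∃ B₀ : ℕ, ∀ B : ℕ, B₀ ≤ B →
      q * ∑ p ∈ S, Real.log (p : ℝ) ≤ Δ / 2 * Real.log B := by
    have h1 : Filter.Tendsto (fun B : ℕ => Δ / 2 * Real.log B) Filter.atTop Filter.atTop :=
      (Real.tendsto_log_atTop.comp tendsto_natCast_atTop_atTop).const_mul_atTop (by positivity)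
    exact Filter.eventually_atTop.mp (h1.eventually_ge_atTop (q * ∑ p ∈ S, Real.log (p : ℝ)))
  have hsp1 : ∀ j, Sparse (N + 1) (fun B u => eval u (normPoly (f j)) = 0 ∨
      ((eval u (normPoly (f j)) ≠ 0 ∧
        (rd (eval u (normPoly (f j))).natAbs : ℝ) ≤ (B : ℝ) ^ ((μ j : ℝ) - η)) ∨
        eval u (P j) = 0)) :=
    fun j => (sparse_zeros _ (normPoly_ne_zero (hf0 j))).or
      ((sparse_small_rad' (normPoly (f j)) (Module.finrank ℚ K * k j)
        (normPoly_hom (hhom j)).totalDegree_le (hfew j) hη0).or (sparse_zeros _ (hP0 j)))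
  have hsp2 : ∀ i j, Sparse (N + 1) (fun B u => i ≠ j ∧ (eval u (P i) ≠ 0 ∧
      (B : ℝ) ^ η < rd (Int.gcd (eval u (P i)) (eval u (G i j))))) := by
    intro i j
    by_cases hij : i = j
    · refine ⟨1, one_pos, 1, one_pos, fun B hB => ?_⟩
      have h1 : {x | x ∈ box (N + 1) B ∧ (i ≠ j ∧ (eval x (P i) ≠ 0 ∧
          (B : ℝ) ^ η < rd (Int.gcd (eval x (P i)) (eval x (G i j)))))} = ∅ := by
        ext x
        simp [hij]
      rw [h1, Set.ncard_empty, Nat.cast_zero]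
      positivity
    · exact (sparse_gcd (P i) (G i j) (hPhom i) (hPirr i) (hG i j hij).1 hη0).mono
        fun B x _ _ h => h.2
  refine ((Sparse.exists_fin hsp1).or (Sparse.exists_fin fun i =>
    Sparse.exists_fin fun j => hsp2 i j)).of_eventually B₀ ?_
  intro B u hBB hB hu hbad
  by_contra hcon
  rw [not_or] at hcon
  obtain ⟨hc1, hc2⟩ := hcon
  push Not at hc1 hc2
  have hB1 : (1 : ℝ) ≤ B := by exact_mod_cast hB
  have hBpos : (0 : ℝ) < B := by linarith
  have hlogB : 0 ≤ Real.log B := Real.log_nonneg hB1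
  have hval : ∀ j, val (f j) u ≠ 0 := by
    intro j h0
    apply (hc1 j).1
    rw [eval_normPoly', h0]
    exact Algebra.norm_eq_zero_iff.2 rfl
  have hlt : truncI S (fun j => val (f j) u) < θ * Real.log B := by
    rcases hbad with ⟨j, hj⟩ | h
    · exact absurd hj (hval j)
    · exact h
  set g : Fin q → Fin q → ℤ := fun i j => (Int.gcd (eval u (P i)) (eval u (G i j)) : ℕ) with hg
  have hlow := trunc_lower S hS (fun j => val (f j) u) hval g (by
    intro i j _
    have := Int.gcd_pos_of_ne_zero_left (eval u (G i j)) (hc1 i).2.2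
    show ((Int.gcd (eval u (P i)) (eval u (G i j)) : ℕ) : ℤ) ≠ 0
    exact_mod_cast this.ne') (by
    intro i j hij p hp v hpv hi hj
    rw [hg]
    have h1 : (p : ℤ) ∣ eval u (P i) := by
      refine dvd_of_mem hp hpv ?_
      rw [← val_ofZ, hPA, val_mul]
      exact Ideal.mul_mem_left _ _ hi
    have h2 : (p : ℤ) ∣ eval u (G i j) := by
      refine dvd_of_mem hp hpv ?_
      obtain ⟨U, V, hUV⟩ := (hG i j hij).2
      rw [← val_ofZ, hUV, val_add, val_mul, val_mul]
      exact Ideal.add_mem _ (Ideal.mul_mem_left _ _ hi) (Ideal.mul_mem_left _ _ hj)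
    exact Int.dvd_coe_gcd h1 h2)
  have hj : ∀ j, ((μ j : ℝ) - η - q * η) * Real.log B ≤
      Real.log (rd (Algebra.norm ℤ (val (f j) u)).natAbs) -
        ∑ i ∈ Finset.univ.erase j, Real.log (rd (g i j).natAbs) := by
    intro j
    obtain ⟨h1, h2, h3⟩ := hc1 j
    have e1 : ((μ j : ℝ) - η) * Real.log B ≤
        Real.log (rd (Algebra.norm ℤ (val (f j) u)).natAbs) := by
      rw [← Real.log_rpow hBpos, ← eval_normPoly']
      exact Real.log_le_log (by positivity) (h2 h1).le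
    have e2 : ∑ i ∈ Finset.univ.erase j, Real.log (rd (g i j).natAbs) ≤
        ∑ _i ∈ Finset.univ.erase j, η * Real.log B := by
      refine Finset.sum_le_sum fun i hi => ?_
      have h4 := hc2 i j (Finset.ne_of_mem_erase hi) (hc1 i).2.2
      rw [← Real.log_rpow hBpos, hg]
      simp only [Int.natAbs_natCast]
      exact Real.log_le_log (by exact_mod_cast rd_pos _) h4
    have e3 : ∑ _i ∈ Finset.univ.erase j, η * Real.log B ≤ q * (η * Real.log B) := by
      rw [Finset.sum_const, nsmul_eq_mul]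
      refine mul_le_mul_of_nonneg_right ?_ (by positivity)
      have := Finset.card_le_univ (Finset.univ.erase j)
      rw [Fintype.card_fin] at this
      exact_mod_cast this
    have e4 : ((μ j : ℝ) - η - q * η) * Real.log B =
        ((μ j : ℝ) - η) * Real.log B - q * (η * Real.log B) := by ring
    rw [e4]
    linarith
  have h2 := Finset.sum_le_sum fun j (_ : j ∈ Finset.univ) => hj j
  rw [← Finset.sum_mul, Finset.sum_sub_distrib, Finset.sum_sub_distrib, Finset.sum_const,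
    Finset.sum_const, Finset.card_univ, Fintype.card_fin, nsmul_eq_mul, nsmul_eq_mul] at h2
  have h9 := hB₀ B hBB
  have h8 : (q : ℝ) * η + q * (q * η) ≤ Δ / 2 := by
    have hq : (0 : ℝ) ≤ q := Nat.cast_nonneg q
    have h10 : (q : ℝ) * η + q * (q * η) ≤ (q + 1) ^ 2 * η := by nlinarith
    refine h10.trans (le_of_eq ?_)
    rw [hη]
    field_simp
  have h10 := mul_le_mul_of_nonneg_right h8 hlogB
  have h11 : (∑ j, (μ j : ℝ)) = θ + Δ := by rw [hΔ]; ring
  rw [h11] at h2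
  have h12 : (θ + Δ - q * η - q * (q * η)) * Real.log B = θ * Real.log B + Δ * Real.log B -
    (q * η + q * (q * η)) * Real.log B := by ring
  linarith

end Pool.Agent.R366.NF
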