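import Mathlib
import Pool.Agent.W232.VA.D
import Pool.Agent.R366.NF.Param

set_option autoImplicit false

/-!
# Integral coordinates of the points of projective space
-/

namespace Pool.Agent.R366.NF

open NumberField IsDedekindDomain Finset Height

variable {K : Type} [Field K] [NumberField K] {n : ℕ}

variable (K) in
/-- the coordinates with respect to the integral basis are bounded by the conjugates -/
lemma coord_le : ∃ A : ℝ, 1 ≤ A ∧ ∀ (a : 𝓞 K) (X : ℝ), 0 ≤ X → (∀ w : InfinitePlace K, w (a : K) ≤ X) →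
    ∀ l : Idx K, |(((RingOfIntegers.basis K).repr a l : ℤ) : ℝ)| ≤ A * X := by
  classical
  obtain ⟨c, hc⟩ : ∃ c : ℝ, ∀ (α : 𝓞 K) (i : K →+* ℂ),
      ‖(((integralBasis K).reindex (equivReindex K).symm).repr α i : ℂ)‖ ≤
        c * house (algebraMap (𝓞 K) K α) :=
    ⟨_, fun α i => house.basis_repr_norm_le_const_mul_house K α i⟩
  refine ⟨|c| + 1, by have := abs_nonneg c; linarith, fun a X hX ha l => ?_⟩
  obtain ⟨i, rfl⟩ := (equivReindex K).surjective l
  have h1 := hc a i
  simp only [Module.Basis.repr_reindex, Finsupp.mapDomain_equiv_apply,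
    integralBasis_repr_apply, eq_intCast, Rat.cast_intCast, Complex.norm_intCast] at h1
  have h2 : house (algebraMap (𝓞 K) K a) ≤ X := by
    refine (pi_norm_le_iff_of_nonneg hX).2 fun φ => ?_
    have := ha (InfinitePlace.mk φ)
    rw [InfinitePlace.apply] at this
    exact this
  have h4 : c * house (algebraMap (𝓞 K) K a) ≤ (|c| + 1) * X := by
    have h5 := house_nonneg (algebraMap (𝓞 K) K a)
    have h6 := le_abs_self c
    have h7 : c * house (algebraMap (𝓞 K) K a) ≤ |c| * house (algebraMap (𝓞 K) K a) :=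
      mul_le_mul_of_nonneg_right h6 h5
    have h8 : |c| * house (algebraMap (𝓞 K) K a) ≤ |c| * X :=
      mul_le_mul_of_nonneg_left h2 (abs_nonneg c)
    nlinarith
  refine le_trans (le_of_eq ?_) (h1.trans h4)
  simp

open Pool.Agent.H57R3.VJ Pool.Agent.W232.VA Pool.Agent.H691R3 in
variable (K) in
/-- balanced integral coordinates, with content of bounded norm
(following `W232.VA.rep`) -/
lemma rep' : ∃ (C : ℝ) (M : ℕ), 0 < C ∧ ∀ x : Fin (n + 1) → K, x ≠ 0 →
    ∃ t : K, t ≠ 0 ∧ ∃ y : Fin (n + 1) → 𝓞 K, (∀ j, ((y j : 𝓞 K) : K) = t * x j) ∧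
      (∀ (w : InfinitePlace K) (j : Fin (n + 1)), w ((y j : 𝓞 K) : K) ≤
        C * mulHeight x ^ (1 / (Module.finrank ℚ K : ℝ))) ∧
      ∃ N : ℕ, 0 < N ∧ N ≤ M ∧ ((N : 𝓞 K)) ∈ Ideal.span (Set.range y) := by
  classical
  obtain ⟨M, hM, hscale⟩ := scale_int K (n := n)
  obtain ⟨C, hC, hbal⟩ := balance K
  have hMpos : (0 : ℝ) < M := by exact_mod_cast hM
  set d : ℝ := (Module.finrank ℚ K : ℝ) with hd
  have hdpos : 0 < d := by
    rw [hd]; exact_mod_cast Module.finrank_pos
  refine ⟨C * M, M, by positivity, fun x hx => ?_⟩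
  obtain ⟨t, ht, y, hy, N, hN, hNM, hmem⟩ := hscale x hx
  set y' : Fin (n + 1) → K := fun j => ((y j : 𝓞 K) : K) with hy'
  have hy'x : y' = t • x := by
    ext j
    rw [hy']
    simp only [hy j, Pi.smul_apply, smul_eq_mul]
  have hy'0 : y' ≠ 0 := by
    rw [hy'x]
    exact smul_ne_zero ht hx
  obtain ⟨j0, hj0⟩ := Function.ne_iff.mp hy'0
  set a : InfinitePlace K → ℝ := fun w => ⨆ j, w (y' j) with ha
  have hale : ∀ w j, w (y' j) ≤ a w := fun w j => Finite.le_ciSup_of_le j le_rfl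
  have hapos : ∀ w, 0 < a w := fun w =>
    lt_of_lt_of_le (InfinitePlace.pos_iff.mpr hj0) (hale w j0)
  obtain ⟨u, hu⟩ := hbal a hapos
  -- the finite part
  have hheight : mulHeight x = (∏ w : InfinitePlace K, a w ^ w.mult) * ∏ᶠ v : FinitePlace K, sv v y' := by
    rw [← mulHeight_smul_eq_mulHeight x ht, ← hy'x, NumberField.mulHeight_eq hy'0]
    rfl
  have hN0 : (N : K) ≠ 0 := by
    have : N ≠ 0 := by omega
    exact_mod_cast this
  have hpf := NumberField.prod_abs_eq_one (K := K) hN0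
  have hwN : ∏ w : InfinitePlace K, w (N : K) ^ w.mult = (N : ℝ) ^ Module.finrank ℚ K := by
    rw [← InfinitePlace.sum_mult_eq (K := K), ← Finset.prod_pow_eq_pow_sum]
    exact Finset.prod_congr rfl fun w _ => by rw [InfinitePlace.map_natCast]
  rw [hwN] at hpf
  have hfin : ∏ᶠ v : FinitePlace K, v (N : K) ≤ ∏ᶠ v : FinitePlace K, sv v y' := by
    have f1 := FinitePlace.hasFiniteMulSupport (K := K) hN0
    have f2 := sv_fin hy'0
    set S : Finset (FinitePlace K) := (Set.Finite.union f1 f2).toFinset with hS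
    rw [finprod_eq_prod_of_mulSupport_subset (s := S) _ (by
        rw [hS, Set.Finite.coe_toFinset]; exact Set.subset_union_left),
      finprod_eq_prod_of_mulSupport_subset (s := S) _ (by
        rw [hS, Set.Finite.coe_toFinset]; exact Set.subset_union_right)]
    refine Finset.prod_le_prod (fun v _ => apply_nonneg v _) fun v _ => ?_
    obtain ⟨r, hr⟩ := Ideal.mem_span_range_iff_exists_fun.mp hmem
    have h1 : (N : K) = ∑ i, ((r i : 𝓞 K) : K) * y' i := by
      have h := congrArg (algebraMap (𝓞 K) K) hr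
      rw [map_sum, map_natCast] at h
      rw [← h]
      exact Finset.sum_congr rfl fun i _ => by rw [map_mul]
    rw [h1]
    refine sum_le_v v _ _ (sv_nonneg _ _) fun j => ?_
    rw [map_mul]
    have h2 : v ((r j : 𝓞 K) : K) ≤ 1 := by
      obtain ⟨u, rfl⟩ := (FinitePlace.equivHeightOneSpectrum (K := K)).symm.surjective v
      exact fv_int_le_one u (r j)
    calc v ((r j : 𝓞 K) : K) * v (y' j) ≤ 1 * sv v y' :=
          mul_le_mul h2 (le_sv v y' j) (apply_nonneg _ _) zero_le_one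
      _ = sv v y' := one_mul _
  have hprod : ∏ w : InfinitePlace K, a w ^ w.mult ≤ (M : ℝ) ^ Module.finrank ℚ K * mulHeight x := by
    have hP : 0 < ∏ w : InfinitePlace K, a w ^ w.mult :=
      Finset.prod_pos fun w _ => pow_pos (hapos w) _
    have hNp : (0 : ℝ) < (N : ℝ) ^ Module.finrank ℚ K := by positivity
    have h1 : (1 : ℝ) ≤ (N : ℝ) ^ Module.finrank ℚ K * ∏ᶠ v : FinitePlace K, sv v y' := by
      calc (1 : ℝ) = (N : ℝ) ^ Module.finrank ℚ K * ∏ᶠ v : FinitePlace K, v (N : K) := hpf.symm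
        _ ≤ _ := mul_le_mul_of_nonneg_left hfin hNp.le
    have h2 : (N : ℝ) ^ Module.finrank ℚ K ≤ (M : ℝ) ^ Module.finrank ℚ K :=
      pow_le_pow_left₀ (Nat.cast_nonneg _) (by exact_mod_cast hNM) _
    have h3 : 0 ≤ mulHeight x := (mulHeight_pos x).le
    calc ∏ w : InfinitePlace K, a w ^ w.mult = (∏ w : InfinitePlace K, a w ^ w.mult) * 1 := (mul_one _).symm
      _ ≤ (∏ w : InfinitePlace K, a w ^ w.mult) *
          ((N : ℝ) ^ Module.finrank ℚ K * ∏ᶠ v : FinitePlace K, sv v y') :=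
          mul_le_mul_of_nonneg_left h1 hP.le
      _ = (N : ℝ) ^ Module.finrank ℚ K * mulHeight x := by rw [hheight]; ring
      _ ≤ _ := mul_le_mul_of_nonneg_right h2 h3
  refine ⟨((u : 𝓞 K) : K) * t, mul_ne_zero ?_ ht, fun j => (u : 𝓞 K) * y j, ?_, ?_, N, hN, hNM, ?_⟩
  · exact RingOfIntegers.coe_ne_zero_iff.mpr u.ne_zero
  · intro j
    refine (map_mul (algebraMap (𝓞 K) K) (u : 𝓞 K) (y j)).trans ?_
    rw [show algebraMap (𝓞 K) K (y j) = t * x j from hy j]
    ring
  · intro w j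
    have e1 : w (algebraMap (𝓞 K) K ((u : 𝓞 K) * y j)) = w (algebraMap (𝓞 K) K (u : 𝓞 K)) * w (y' j) := by
      rw [map_mul, map_mul]
    refine (le_of_eq e1).trans ?_
    have h1 : w ((u : 𝓞 K) : K) * w (y' j) ≤ w ((u : 𝓞 K) : K) * a w :=
      mul_le_mul_of_nonneg_left (hale w j) (apply_nonneg _ _)
    refine h1.trans ((hu w).trans ?_)
    rw [mul_assoc]
    refine mul_le_mul_of_nonneg_left ?_ hC.le
    have hP : 0 ≤ ∏ w : InfinitePlace K, a w ^ w.mult :=
      Finset.prod_nonneg fun w _ => pow_nonneg (hapos w).le _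
    calc (∏ w : InfinitePlace K, a w ^ w.mult) ^ (1 / d)
        ≤ ((M : ℝ) ^ Module.finrank ℚ K * mulHeight x) ^ (1 / d) :=
          Real.rpow_le_rpow hP hprod (by positivity)
      _ = M * mulHeight x ^ (1 / d) := by
          rw [Real.mul_rpow (by positivity) (mulHeight_pos x).le, ← Real.rpow_natCast,
            ← Real.rpow_mul hMpos.le, ← hd, mul_one_div_cancel hdpos.ne', Real.rpow_one]
  · obtain ⟨r, hr⟩ := Ideal.mem_span_range_iff_exists_fun.mp hmem
    rw [Ideal.mem_span_range_iff_exists_fun]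
    refine ⟨fun i => ((u⁻¹ : (𝓞 K)ˣ) : 𝓞 K) * r i, ?_⟩
    rw [← hr]
    refine Finset.sum_congr rfl fun i _ => ?_
    have h1 : ((u⁻¹ : (𝓞 K)ˣ) : 𝓞 K) * (u : 𝓞 K) = 1 := Units.inv_mul u
    linear_combination (r i * y i) * h1

end Pool.Agent.R366.NF
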