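import Mathlib
import Pool.Agent.R366.NF.MainZ
import Pool.Agent.R366.NF.Cases2
import Pool.Agent.R366.NF.Rep
import Pool.Agent.R366.TC.FullGcd
import Pool.Agent.TH910.Voj.Prox

set_option autoImplicit false

/-!
# Heights relative to ideals over a number field
-/

namespace Pool.Agent.R366.NF

open MvPolynomial NumberField IsDedekindDomain Pool.Agent.TH910.Voj Pool.Agent.H813R3.Voj

open scoped Classical

variable {K : Type} [Field K] [NumberField K] {n N : ℕ}

/-- the local height relative to the ideal `(F, G)`, `F` and `G` forms of degrees `k` and `e` -/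
noncomputable def idealLoc (F G : MvPolynomial (Fin (n + 1)) (𝓞 K)) (k e : ℕ)
    (x : Fin (n + 1) → K) (v : K → ℝ) : ℝ :=
  - Real.log (max (v (aeval x F) / (⨆ i, v (x i)) ^ k) (v (aeval x G) / (⨆ i, v (x i)) ^ e))

/-- the height relative to the ideal `(F, G)` -/
noncomputable def idealHeight (F G : MvPolynomial (Fin (n + 1)) (𝓞 K)) (k e : ℕ)
    (x : Fin (n + 1) → K) : ℝ :=
  ∑ w : InfinitePlace K, w.mult * idealLoc F G k e x w +
    ∑ᶠ v : FinitePlace K, idealLoc F G k e x v

omit [NumberField K] in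
lemma aeval_coe (F : MvPolynomial (Fin (n + 1)) (𝓞 K)) (y : Fin (n + 1) → 𝓞 K) :
    aeval (fun i => (y i : K)) F = ((eval y F : 𝓞 K) : K) := by
  have h : (aeval (fun i => (y i : K)) : MvPolynomial (Fin (n + 1)) (𝓞 K) →ₐ[𝓞 K] K) =
      (Algebra.ofId (𝓞 K) K).comp (aeval y) := by
    refine MvPolynomial.algHom_ext fun i => ?_
    simp [Algebra.ofId_apply]
  rw [h]
  rfl

lemma fp_le_one (v : FinitePlace K) (a : 𝓞 K) : v (a : K) ≤ 1 :=
  Pool.Agent.R366.UC.fp_int_le v a.2

omit [NumberField K] in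
lemma sup_pos {y : Fin (n + 1) → K} (hy : y ≠ 0) (v : AbsoluteValue K ℝ) :
    0 < ⨆ i, v (y i) := by
  obtain ⟨j, hj⟩ := Function.ne_iff.1 hy
  exact lt_of_lt_of_le (v.pos hj) (Finite.le_ciSup_of_le j le_rfl)

/-- upper bound for the height relative to an ideal -/
lemma idealHeight_le (F G : MvPolynomial (Fin (n + 1)) (𝓞 K)) (k e : ℕ)
    (y : Fin (n + 1) → 𝓞 K) (hy : (fun i => (y i : K)) ≠ 0) (hF : eval y F ≠ 0)
    (X : ℝ) (hX : ∀ (w : InfinitePlace K) i, w (y i : K) ≤ X) (g : ℤ) (hg0 : g ≠ 0)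
    (hg : (g : 𝓞 K) ∈ Ideal.span {eval y F, eval y G}) :
    idealHeight F G k e (fun i => (y i : K)) ≤ Module.finrank ℚ K * (k * Real.log X) -
      Real.log |((Algebra.norm ℤ (eval y F) : ℤ) : ℝ)| +
      Module.finrank ℚ K * Real.log |(g : ℝ)| := by
  set x : Fin (n + 1) → K := fun i => (y i : K) with hx
  have hFx : aeval x F = ((eval y F : 𝓞 K) : K) := aeval_coe F y
  have hGx : aeval x G = ((eval y G : 𝓞 K) : K) := aeval_coe G y
  have hF0 : ((eval y F : 𝓞 K) : K) ≠ 0 := coe_ne_zero hF
  have hgK : (g : K) ≠ 0 := Int.cast_ne_zero.2 hg0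
  unfold idealHeight
  -- the infinite places
  have hinf : ∑ w : InfinitePlace K, w.mult * idealLoc F G k e x w ≤
      Module.finrank ℚ K * (k * Real.log X) - Real.log |((Algebra.norm ℤ (eval y F) : ℤ) : ℝ)| := by
    have h1 : ∀ w : InfinitePlace K, idealLoc F G k e x w ≤
        k * Real.log X - Real.log (w ((eval y F : 𝓞 K) : K)) := by
      intro w
      unfold idealLoc
      have hs : 0 < ⨆ i, w (x i) := sup_pos hy w.1
      have hsX : (⨆ i, w (x i)) ≤ X := ciSup_le fun i => hX w i
      have hw : 0 < w ((eval y F : 𝓞 K) : K) := InfinitePlace.pos_iff.2 hF0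
      have h2 : Real.log (w ((eval y F : 𝓞 K) : K) / (⨆ i, w (x i)) ^ k) ≤
          Real.log (max (w (aeval x F) / (⨆ i, w (x i)) ^ k)
            (w (aeval x G) / (⨆ i, w (x i)) ^ e)) := by
        refine Real.log_le_log (by positivity) ?_
        rw [hFx]
        exact le_max_left _ _
      rw [Real.log_div hw.ne' (by positivity), Real.log_pow] at h2
      have h3 : (k : ℝ) * Real.log (⨆ i, w (x i)) ≤ k * Real.log X :=
        mul_le_mul_of_nonneg_left (Real.log_le_log hs hsX) (Nat.cast_nonneg k)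
      linarith
    calc ∑ w : InfinitePlace K, w.mult * idealLoc F G k e x w
        ≤ ∑ w : InfinitePlace K, w.mult * (k * Real.log X - Real.log (w ((eval y F : 𝓞 K) : K))) :=
          Finset.sum_le_sum fun w _ => mul_le_mul_of_nonneg_left (h1 w) (Nat.cast_nonneg _)
      _ = (∑ w : InfinitePlace K, (w.mult : ℝ)) * (k * Real.log X) -
          ∑ w : InfinitePlace K, w.mult * Real.log (w ((eval y F : 𝓞 K) : K)) := by
          rw [Finset.sum_mul, ← Finset.sum_sub_distrib]
          exact Finset.sum_congr rfl fun w _ => by ring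
      _ = _ := by
          congr 1
          · rw [← InfinitePlace.sum_mult_eq (K := K)]
            push_cast
            rfl
          · have h4 := InfinitePlace.prod_eq_abs_norm ((eval y F : 𝓞 K) : K)
            have h5 : |((Algebra.norm ℤ (eval y F) : ℤ) : ℝ)| =
                ((|Algebra.norm ℚ ((eval y F : 𝓞 K) : K)| : ℚ) : ℝ) := by
              rw [← Algebra.coe_norm_int]
              push_cast
              rfl
            rw [h5, ← h4, Real.log_prod (fun w _ => pow_ne_zero _ (InfinitePlace.pos_iff.2 hF0).ne')]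
            exact Finset.sum_congr rfl fun w _ => by rw [Real.log_pow]
  -- the finite places
  have hfin : ∑ᶠ v : FinitePlace K, idealLoc F G k e x v ≤
      Module.finrank ℚ K * Real.log |(g : ℝ)| := by
    have hsupx : (Function.mulSupport fun v : FinitePlace K => ⨆ i, v (x i)).Finite :=
      Pool.Agent.H57R3.VJ.sv_fin hy
    have hsupF := FinitePlace.hasFiniteMulSupport hF0
    have hsupg := FinitePlace.hasFiniteMulSupport hgK
    set T : Finset (FinitePlace K) :=
      ((hsupx.union hsupF).union hsupg).toFinset with hT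
    have hvx : ∀ v : FinitePlace K, (⨆ i, v (x i)) ≤ 1 := fun v => ciSup_le fun i => fp_le_one v (y i)
    have hvx0 : ∀ v : FinitePlace K, 0 < ⨆ i, v (x i) := fun v => sup_pos hy v.1
    have h1 : ∀ v : FinitePlace K, v ∉ T → idealLoc F G k e x v = 0 := by
      intro v hv
      rw [hT, Set.Finite.mem_toFinset, Set.mem_union, Set.mem_union, not_or, not_or] at hv
      obtain ⟨⟨h2, h3⟩, -⟩ := hv
      have e2 : (⨆ i, v (x i)) = 1 := by
        rw [Function.mem_mulSupport] at h2; push Not at h2; exact h2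
      have e3 : v ((eval y F : 𝓞 K) : K) = 1 := by
        rw [Function.mem_mulSupport] at h3; push Not at h3; exact h3
      unfold idealLoc
      rw [e2, one_pow, one_pow, div_one, div_one, hFx, hGx, e3, max_eq_left (fp_le_one v _),
        Real.log_one, neg_zero]
    rw [finsum_eq_sum_of_support_subset _ (s := T) (by
      intro v hv
      by_contra hvT
      exact hv (h1 v hvT))]
    have h2 : ∀ v : FinitePlace K, idealLoc F G k e x v ≤ Real.log ((v (g : K))⁻¹) := by
      intro v
      have hvg : 0 < v (g : K) := FinitePlace.pos_iff.2 hgK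
      unfold idealLoc
      rw [Real.log_inv, neg_le_neg_iff]
      refine Real.log_le_log hvg ?_
      have hmax : max (v ((eval y F : 𝓞 K) : K)) (v ((eval y G : 𝓞 K) : K)) ≤
          max (v (aeval x F) / (⨆ i, v (x i)) ^ k) (v (aeval x G) / (⨆ i, v (x i)) ^ e) := by
        rw [hFx, hGx]
        refine max_le_max ?_ ?_
        · rw [le_div_iff₀ (pow_pos (hvx0 v) _)]
          exact mul_le_of_le_one_right (apply_nonneg _ _) (pow_le_one₀ (hvx0 v).le (hvx v))
        · rw [le_div_iff₀ (pow_pos (hvx0 v) _)]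
          exact mul_le_of_le_one_right (apply_nonneg _ _) (pow_le_one₀ (hvx0 v).le (hvx v))
      refine le_trans ?_ hmax
      rw [Ideal.mem_span_pair] at hg
      obtain ⟨a, b, hab⟩ := hg
      have h3 : (g : K) = (a : K) * ((eval y F : 𝓞 K) : K) + (b : K) * ((eval y G : 𝓞 K) : K) := by
        have := congrArg (fun z : 𝓞 K => (z : K)) hab
        simpa using this.symm
      rw [h3]
      refine (FinitePlace.add_le v _ _).trans ?_
      refine max_le_max ?_ ?_
      · rw [map_mul]
        exact mul_le_of_le_one_left (apply_nonneg _ _) (fp_le_one v a)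
      · rw [map_mul]
        exact mul_le_of_le_one_left (apply_nonneg _ _) (fp_le_one v b)
    refine (Finset.sum_le_sum fun v _ => h2 v).trans (le_of_eq ?_)
    rw [← Real.log_pow, ← Pool.Agent.R366.UC.finprod_int_inv (K := K) hg0,
      finprod_eq_prod_of_mulSupport_subset (s := T) _ (by
        intro v hv
        rw [Function.mem_mulSupport] at hv
        rw [hT, Set.Finite.coe_toFinset]
        refine Set.mem_union_right _ ?_
        rw [Function.mem_mulSupport]
        intro h
        apply hv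
        rw [h, inv_one]),
      Real.log_prod (fun v _ => inv_ne_zero (FinitePlace.pos_iff.2 hgK).ne')]
  linarith

omit [NumberField K] in
lemma degree_ne_zero {F : MvPolynomial (Fin (n + 1)) (𝓞 K)} {k : ℕ} (hF : F.IsHomogeneous k)
    (hirr : Irreducible (toK F)) : k ≠ 0 := by
  rintro rfl
  have h1 : F = C (coeff 0 F) := by
    rw [← totalDegree_eq_zero_iff_eq_C]
    exact Nat.le_zero.mp hF.totalDegree_le
  have h2 : toK F = C ((coeff 0 F : 𝓞 K) : K) := by
    rw [h1, map_C]
    simp
  by_cases h0 : ((coeff 0 F : 𝓞 K) : K) = 0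
  · apply hirr.ne_zero
    rw [h2, h0, C_0]
  · apply hirr.not_isUnit
    rw [h2]
    exact IsUnit.map C (isUnit_iff_ne_zero.mpr h0)

omit [NumberField K] in
lemma vec_ne_zero_of_eval {F : MvPolynomial (Fin (n + 1)) (𝓞 K)} {k : ℕ} (hF : F.IsHomogeneous k)
    (hirr : Irreducible (toK F)) {y : Fin (n + 1) → 𝓞 K} (hy : eval y F ≠ 0) :
    (fun i => (y i : K)) ≠ 0 := by
  intro h
  apply hy
  have h1 : y = 0 := by
    funext i
    exact RingOfIntegers.coe_injective (by simpa using congrFun h i)
  rw [h1]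
  have h2 : eval (0 : Fin (n + 1) → 𝓞 K) F = coeff 0 F := by
    rw [← constantCoeff_eq]
    simp
  rw [h2]
  by_contra h3
  have h4 := hF h3
  simp at h4
  exact degree_ne_zero hF hirr h4.symm

/-- **the height relative to an ideal of codimension two is small** -/
theorem sparse_ideal (e : Fin (n + 1) × Idx K ≃ Fin (N + 1))
    (F G : MvPolynomial (Fin (n + 1)) (𝓞 K)) {k : ℕ} (hF : F.IsHomogeneous k)
    (hirr : Irreducible (toK F)) (hcop : ¬ toK F ∣ toK G) (e' : ℕ) {η : ℝ} (hη : 0 < η) :
    Sparse (N + 1) (fun B u => eval (vec e u) F = 0 ∨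
      η * Real.log B < idealHeight F G k e' (fun i => (vec e u i : K))) := by
  set f := weil e F with hf
  set g := weil e G with hg
  have hfirr : Irreducible (toK f) := weil_irreducible e hirr
  have hfhom : f.IsHomogeneous k := weil_hom e hF
  have hfg : ¬ toK f ∣ toK g := fun h => hcop (weil_dvd e h)
  have hf0 : f ≠ 0 := by
    intro h0
    exact hfirr.ne_zero (by rw [h0, map_zero])
  obtain ⟨P, k', hPhom, hPirr, A, hPA⟩ := exists_below f hfhom hfirr
  obtain ⟨G₀, hG1, U, V, hUV⟩ := exists_int_elim f g hfirr hfg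
  have hPG : ¬ toQ P ∣ toQ G₀ := by
    intro h2
    apply hG1
    have h3 : toK f ∣ toK (ofZ K P) := by
      rw [hPA, map_mul]; exact dvd_mul_left _ _
    refine h3.trans ?_
    rw [toK_ofZ, toK_ofZ]
    exact map_dvd _ h2
  have hP0 : P ≠ 0 := by
    intro h0
    exact hPirr.ne_zero (by rw [h0, map_zero])
  set d := Module.finrank ℚ K with hd
  have hd0 : (0 : ℝ) < d := by exact_mod_cast Module.finrank_pos (R := ℚ) (M := K)
  set ε : ℝ := min 1 (η / (2 * (d + 1))) with hε
  have hε0 : 0 < ε := lt_min one_pos (by positivity)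
  have hε1 : ε ≤ 1 := min_le_left _ _
  have hεη : (1 + d) * ε ≤ η / 2 := by
    have h1 : ε ≤ η / (2 * (d + 1)) := min_le_right _ _
    calc (1 + (d : ℝ)) * ε ≤ (1 + d) * (η / (2 * (d + 1))) :=
          mul_le_mul_of_nonneg_left h1 (by positivity)
      _ = η / 2 := by field_simp; ring
  obtain ⟨A₀, hA₀, hsize⟩ := exists_size K
  obtain ⟨B₀, hB₀⟩ : ∃ B₀ : ℕ, ∀ B : ℕ, B₀ ≤ B →
      d * (k * Real.log A₀) ≤ η / 2 * Real.log B := by
    have h1 : Filter.Tendsto (fun B : ℕ => η / 2 * Real.log B) Filter.atTop Filter.atTop :=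
      (Real.tendsto_log_atTop.comp tendsto_natCast_atTop_atTop).const_mul_atTop (by positivity)
    exact Filter.eventually_atTop.mp (h1.eventually_ge_atTop (d * (k * Real.log A₀)))
  have hsp : Sparse (N + 1) (fun B u => (eval u (normPoly f) = 0 ∨
      (eval u (normPoly f) ≠ 0 ∧ ((eval u (normPoly f)).natAbs : ℝ) ≤
        (B : ℝ) ^ (((d * k : ℕ) : ℝ) - ε))) ∨ (eval u P = 0 ∨ (eval u P ≠ 0 ∧
          (B : ℝ) ^ ε < Int.gcd (eval u P) (eval u G₀)))) :=
    ((sparse_zeros _ (normPoly_ne_zero hf0)).or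
      (sparse_small_value (normPoly f) (normPoly_hom hfhom) (normPoly_ne_zero hf0) hε0 hε1)).or
    ((sparse_zeros _ hP0).or (Pool.Agent.R366.TC.sparse_full_gcd P G₀ hPhom hPirr hPG hε0))
  refine hsp.of_eventually B₀ ?_
  intro B u hBB hB hu hbad
  by_contra hcon
  rw [not_or, not_or, not_or] at hcon
  obtain ⟨⟨h1, h2⟩, h3, h4⟩ := hcon
  push Not at h2 h4
  have hB1 : (1 : ℝ) ≤ B := by exact_mod_cast hB
  have hBpos : (0 : ℝ) < B := by linarith
  have hlogB : 0 ≤ Real.log B := Real.log_nonneg hB1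
  have hFy : eval (vec e u) F ≠ 0 := by
    intro h0
    apply h1
    rw [eval_normPoly', hf, val_weil, h0]
    exact Algebra.norm_eq_zero_iff.2 rfl
  have hlt : η * Real.log B < idealHeight F G k e' (fun i => (vec e u i : K)) := by
    rcases hbad with h | h
    · exact absurd h hFy
    · exact h
  have hgpos : 0 < Int.gcd (eval u P) (eval u G₀) := Int.gcd_pos_of_ne_zero_left _ h3
  have hle := idealHeight_le F G k e' (vec e u) (vec_ne_zero_of_eval hF hirr hFy) hFy (A₀ * B)
    (fun w i => hsize B hB _ (mem_sbox.1 (vec_mem e hu) i) w)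
    ((Int.gcd (eval u P) (eval u G₀) : ℕ) : ℤ) (by exact_mod_cast hgpos.ne') (by
      have e1 : ((eval u P : ℤ) : 𝓞 K) ∈ Ideal.span {eval (vec e u) F, eval (vec e u) G} := by
        rw [← val_ofZ, hPA, val_mul, hf, val_weil]
        exact Ideal.mul_mem_left _ _ (Ideal.subset_span (by simp))
      have e2 : ((eval u G₀ : ℤ) : 𝓞 K) ∈ Ideal.span {eval (vec e u) F, eval (vec e u) G} := by
        rw [← val_ofZ, hUV, val_add, val_mul, val_mul, hf, hg, val_weil, val_weil]
        exact Ideal.add_mem _ (Ideal.mul_mem_left _ _ (Ideal.subset_span (by simp)))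
          (Ideal.mul_mem_left _ _ (Ideal.subset_span (by simp)))
      rw [Int.gcd_eq_gcd_ab]
      push_cast
      exact Ideal.add_mem _ (Ideal.mul_mem_right _ _ e1) (Ideal.mul_mem_right _ _ e2))
  have h5 : (((d * k : ℕ) : ℝ) - ε) * Real.log B ≤
      Real.log |((Algebra.norm ℤ (eval (vec e u) F) : ℤ) : ℝ)| := by
    rw [← Real.log_rpow hBpos]
    refine Real.log_le_log (by positivity) ?_
    have h6 := (h2 h1).le
    rw [eval_normPoly', hf, val_weil, Nat.cast_natAbs, Int.cast_abs] at h6
    exact h6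
  have h6 : Real.log |(((Int.gcd (eval u P) (eval u G₀) : ℕ) : ℤ) : ℝ)| ≤ ε * Real.log B := by
    rw [← Real.log_rpow hBpos]
    have h7 : |(((Int.gcd (eval u P) (eval u G₀) : ℕ) : ℤ) : ℝ)| =
        (Int.gcd (eval u P) (eval u G₀) : ℕ) := by
      rw [Int.cast_natCast, Nat.abs_cast]
    rw [h7]
    exact Real.log_le_log (by exact_mod_cast hgpos) (h4 h3)
  have h7 : Real.log (A₀ * B) = Real.log A₀ + Real.log B :=
    Real.log_mul (by linarith) hBpos.ne'
  rw [h7] at hle
  have h8 := hB₀ B hBB
  have h9 : (d : ℝ) * Real.log |(((Int.gcd (eval u P) (eval u G₀) : ℕ) : ℤ) : ℝ)| ≤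
      d * (ε * Real.log B) := mul_le_mul_of_nonneg_left h6 hd0.le
  have h10 := mul_le_mul_of_nonneg_right hεη hlogB
  push_cast at h5
  have h11 : (d : ℝ) * (k * (Real.log A₀ + Real.log B)) =
      d * (k * Real.log A₀) + d * k * Real.log B := by ring
  rw [h11] at hle
  have h12 : ((d : ℝ) * k - ε) * Real.log B = d * k * Real.log B - ε * Real.log B := by ring
  rw [h12] at h5
  have h13 : (1 + (d : ℝ)) * ε * Real.log B = ε * Real.log B + d * (ε * Real.log B) := by ring
  rw [h13] at h10
  linarith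

end Pool.Agent.R366.NF
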