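import Mathlib
import Pool.Agent.R366.NF.Ideal

set_option autoImplicit false

/-!
# Truncated counting functions at almost all points of projective space over a number field
-/

namespace Pool.Agent.R366.NF

open MvPolynomial NumberField IsDedekindDomain Pool.Agent.TH910.Voj Pool.Agent.H813R3.Voj

open scoped Classical

variable {K : Type} [Field K] [NumberField K] {n N q : ℕ}

/-- the truncated counting function -/
noncomputable def truncatedCount (S : Finset ℕ) (F : Fin q → MvPolynomial (Fin (n + 1)) (𝓞 K))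
    (k : Fin q → ℕ) (x : Fin (n + 1) → K) : ℝ :=
  ∑ᶠ v : HeightOneSpectrum (𝓞 K), if (∀ p ∈ S, (p : 𝓞 K) ∉ v.asIdeal) ∧
      ∃ j, FinitePlace.mk v (aeval x (F j)) < (⨆ i, FinitePlace.mk v (x i)) ^ k j
    then Real.log (Ideal.absNorm v.asIdeal) else 0

omit [NumberField K] in
lemma aeval_smul (F : MvPolynomial (Fin (n + 1)) (𝓞 K)) {k : ℕ}
    (hk : F.IsHomogeneous k) (c : K) (x : Fin (n + 1) → K) :
    aeval (c • x) F = c ^ k * aeval x F := by
  rw [MvPolynomial.aeval_def, MvPolynomial.aeval_def, MvPolynomial.eval₂_eq,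
    MvPolynomial.eval₂_eq, Finset.mul_sum]
  refine Finset.sum_congr rfl fun d hd => ?_
  have hdk : ∑ i ∈ d.support, d i = k := by
    have := hk (MvPolynomial.mem_support_iff.mp hd)
    rw [Finsupp.weight_apply] at this
    simpa [Finsupp.sum] using this
  have h13 : ∏ i ∈ d.support, (c • x) i ^ d i = c ^ k * ∏ i ∈ d.support, x i ^ d i := by
    rw [← hdk, ← Finset.prod_pow_eq_pow_sum, ← Finset.prod_mul_distrib]
    exact Finset.prod_congr rfl fun i _ => by rw [Pi.smul_apply, smul_eq_mul, mul_pow]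
  rw [h13, mul_left_comm]

omit [NumberField K] in
lemma sup_smul (v : AbsoluteValue K ℝ) (c : K) (x : Fin (n + 1) → K) :
    (⨆ i, v ((c • x) i)) = v c * ⨆ i, v (x i) := by
  rw [Real.mul_iSup_of_nonneg (v.nonneg c)]
  congr 1
  funext i
  rw [Pi.smul_apply, smul_eq_mul, map_mul]

lemma truncatedCount_smul (S : Finset ℕ) (F : Fin q → MvPolynomial (Fin (n + 1)) (𝓞 K))
    (k : Fin q → ℕ) (hF : ∀ j, (F j).IsHomogeneous (k j)) {c : K} (hc : c ≠ 0)
    (x : Fin (n + 1) → K) : truncatedCount S F k (c • x) = truncatedCount S F k x := by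
  unfold truncatedCount
  refine finsum_congr fun v => ?_
  have h1 : ∀ j, (FinitePlace.mk v (aeval (c • x) (F j)) < (⨆ i, FinitePlace.mk v ((c • x) i)) ^ k j)
      ↔ (FinitePlace.mk v (aeval x (F j)) < (⨆ i, FinitePlace.mk v (x i)) ^ k j) := by
    intro j
    have hv : 0 < FinitePlace.mk v c := FinitePlace.pos_iff.2 hc
    have h2 : (⨆ i, FinitePlace.mk v ((c • x) i)) = FinitePlace.mk v c * ⨆ i, FinitePlace.mk v (x i) :=
      sup_smul (FinitePlace.mk v).1 c x
    rw [h2, aeval_smul (F j) (hF j), map_mul, map_pow, mul_pow]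
    exact mul_lt_mul_iff_right₀ (pow_pos hv _)
  simp only [h1]

omit [NumberField K] in
lemma idealLoc_smul (F G : MvPolynomial (Fin (n + 1)) (𝓞 K)) {k e : ℕ} (hF : F.IsHomogeneous k)
    (hG : G.IsHomogeneous e) {c : K} (hc : c ≠ 0) (x : Fin (n + 1) → K) (v : AbsoluteValue K ℝ) :
    idealLoc F G k e (c • x) v = idealLoc F G k e x v := by
  unfold idealLoc
  have hv : 0 < v c := v.pos hc
  rw [sup_smul, aeval_smul F hF, aeval_smul G hG, map_mul, map_mul, map_pow, map_pow, mul_pow,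
    mul_pow, mul_div_mul_left _ _ (pow_pos hv _).ne', mul_div_mul_left _ _ (pow_pos hv _).ne']

lemma idealHeight_smul (F G : MvPolynomial (Fin (n + 1)) (𝓞 K)) {k e : ℕ} (hF : F.IsHomogeneous k)
    (hG : G.IsHomogeneous e) {c : K} (hc : c ≠ 0) (x : Fin (n + 1) → K) :
    idealHeight F G k e (c • x) = idealHeight F G k e x := by
  unfold idealHeight
  congr 1
  · refine Finset.sum_congr rfl fun w _ => ?_
    congr 1
    exact idealLoc_smul F G hF hG hc x w.1
  · exact finsum_congr fun v => idealLoc_smul F G hF hG hc x v.1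

/-- integral coordinates with bounded content -/
lemma trunc_transfer (S : Finset ℕ) (F : Fin q → MvPolynomial (Fin (n + 1)) (𝓞 K))
    (k : Fin q → ℕ) (y : Fin (n + 1) → 𝓞 K)
    (hFy : ∀ j, eval y (F j) ≠ 0) (m : ℕ) (hm : 0 < m)
    (hmem : (m : 𝓞 K) ∈ Ideal.span (Set.range y)) :
    truncI S (fun j => eval y (F j)) ≤ truncatedCount S F k (fun i => (y i : K)) +
      Module.finrank ℚ K * Real.log m := by
  obtain ⟨S0, hS0, hsum⟩ := Pool.Agent.R366.UC.bad_places (K := K) (m := (m : ℤ)) (by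
    exact_mod_cast hm.ne')
  have hfin : (⋃ j, {v : HeightOneSpectrum (𝓞 K) | eval y (F j) ∈ v.asIdeal}).Finite :=
    Set.finite_iUnion fun j => finite_mem (hFy j)
  set T := hfin.toFinset with hT
  have hTmem : ∀ (v : HeightOneSpectrum (𝓞 K)) (j), eval y (F j) ∈ v.asIdeal → v ∈ T := by
    intro v j h
    rw [hT, Set.Finite.mem_toFinset, Set.mem_iUnion]
    exact ⟨j, h⟩
  have hval : ∀ (v : HeightOneSpectrum (𝓞 K)) (a : 𝓞 K), FinitePlace.mk v (a : K) < 1 ↔
      a ∈ v.asIdeal := by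
    intro v a
    rw [FinitePlace.mk_apply]
    exact FinitePlace.norm_lt_one_iff_mem K v a
  have hsup : ∀ v : HeightOneSpectrum (𝓞 K), (⨆ i, FinitePlace.mk v ((y i : K))) ≤ 1 :=
    fun v => ciSup_le fun i => fp_le_one _ (y i)
  have hcond : ∀ (v : HeightOneSpectrum (𝓞 K)) (j), FinitePlace.mk v (aeval (fun i => (y i : K)) (F j)) <
      (⨆ i, FinitePlace.mk v ((y i : K))) ^ k j → eval y (F j) ∈ v.asIdeal := by
    intro v j h
    rw [aeval_coe] at h
    rw [← hval]
    refine h.trans_le (pow_le_one₀ ?_ (hsup v))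
    exact Real.iSup_nonneg fun i => apply_nonneg _ _
  unfold truncI truncatedCount
  rw [finsum_eq_sum_of_support_subset _ (s := T) (by
      intro v hv
      rw [Function.mem_support] at hv
      by_contra hvT
      apply hv
      rw [if_neg]
      rintro ⟨-, j, hj⟩
      exact hvT (hTmem v j hj)),
    finsum_eq_sum_of_support_subset _ (s := T) (by
      intro v hv
      rw [Function.mem_support] at hv
      by_contra hvT
      apply hv
      rw [if_neg]
      rintro ⟨-, j, hj⟩
      exact hvT (hTmem v j (hcond v j hj)))]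
  have h1 : ∑ v ∈ T.filter (fun v => (m : 𝓞 K) ∈ v.asIdeal), Real.log (Ideal.absNorm v.asIdeal : ℝ) ≤
      Module.finrank ℚ K * Real.log m := by
    have h2 : ∑ v ∈ T.filter (fun v => (m : 𝓞 K) ∈ v.asIdeal),
        Real.log (Ideal.absNorm v.asIdeal : ℝ) =
        ∑ w ∈ (T.filter (fun v => (m : 𝓞 K) ∈ v.asIdeal)).image FinitePlace.mk,
          Real.log (Pool.Agent.H57R3.VJ.NN w) := by
      rw [Finset.sum_image (fun v _ v' _ h => by
        rw [← FinitePlace.maximalIdeal_mk v, ← FinitePlace.maximalIdeal_mk v', h])]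
      refine Finset.sum_congr rfl fun v _ => ?_
      unfold Pool.Agent.H57R3.VJ.NN
      rw [FinitePlace.maximalIdeal_mk]
    rw [h2]
    have h3 : |((m : ℤ) : ℝ)| = m := by rw [Int.cast_natCast, Nat.abs_cast]
    rw [h3] at hsum
    refine le_trans (Finset.sum_le_sum_of_subset_of_nonneg ?_ ?_) hsum
    · intro w hw
      rw [Finset.mem_image] at hw
      obtain ⟨v, hv, rfl⟩ := hw
      rw [Finset.mem_filter] at hv
      by_contra hcon
      have h4 := hS0 _ hcon
      have h5 := (hval v (m : 𝓞 K)).2 hv.2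
      have h6 : (((m : ℕ) : 𝓞 K) : K) = ((m : ℤ) : K) := by simp
      rw [h6, h4] at h5
      exact lt_irrefl _ h5
    · intro w _ _
      exact Real.log_nonneg (by linarith [Pool.Agent.H57R3.VJ.two_le_NN w])
  refine le_trans ?_ (add_le_add le_rfl h1)
  rw [Finset.sum_filter, ← Finset.sum_add_distrib]
  refine Finset.sum_le_sum fun v _ => ?_
  by_cases h2 : (∀ p ∈ S, (p : 𝓞 K) ∉ v.asIdeal) ∧ ∃ j, eval y (F j) ∈ v.asIdeal
  · rw [if_pos h2]
    by_cases h3 : (m : 𝓞 K) ∈ v.asIdeal
    · rw [if_pos h3]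
      have h4 : 0 ≤ (if (∀ p ∈ S, (p : 𝓞 K) ∉ v.asIdeal) ∧
          ∃ j, FinitePlace.mk v (aeval (fun i => (y i : K)) (F j)) <
            (⨆ i, FinitePlace.mk v ((y i : K))) ^ k j
          then Real.log (Ideal.absNorm v.asIdeal : ℝ) else 0) := by
        split_ifs
        · exact log_absNorm_nonneg v
        · exact le_rfl
      linarith
    · rw [if_neg h3, if_pos, add_zero]
      refine ⟨h2.1, ?_⟩
      obtain ⟨j, hj⟩ := h2.2
      refine ⟨j, ?_⟩
      have h5 : (⨆ i, FinitePlace.mk v ((y i : K))) = 1 := by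
        refine le_antisymm (hsup v) ?_
        by_contra hlt
        rw [not_le] at hlt
        apply h3
        have h6 : Ideal.span (Set.range y) ≤ v.asIdeal := by
          rw [Ideal.span_le]
          rintro _ ⟨i, rfl⟩
          refine (hval v (y i)).1 (lt_of_le_of_lt ?_ hlt)
          exact Finite.le_ciSup_of_le i le_rfl
        exact h6 hmem
      rw [h5, one_pow, aeval_coe]
      exact (hval v _).2 hj
  · rw [if_neg h2]
    have h4 : 0 ≤ (if (∀ p ∈ S, (p : 𝓞 K) ∉ v.asIdeal) ∧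
        ∃ j, FinitePlace.mk v (aeval (fun i => (y i : K)) (F j)) <
          (⨆ i, FinitePlace.mk v ((y i : K))) ^ k j
        then Real.log (Ideal.absNorm v.asIdeal : ℝ) else 0) := by
      split_ifs
      · exact log_absNorm_nonneg v
      · exact le_rfl
    have h5 : 0 ≤ (if (m : 𝓞 K) ∈ v.asIdeal then Real.log (Ideal.absNorm v.asIdeal : ℝ) else 0) := by
      split_ifs
      · exact log_absNorm_nonneg v
      · exact le_rfl
    linarith

open scoped LinearAlgebra.Projectivization in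
/-- **almost all points of projective space over a number field** -/
theorem main_points (F : Fin q → MvPolynomial (Fin (n + 1)) (𝓞 K)) (k m : Fin q → ℕ)
    (hhom : ∀ j, (F j).IsHomogeneous (k j)) (hirr : ∀ j, Irreducible (toK (F j)))
    (hdist : ∀ i j, i ≠ j → ¬ Associated (toK (F i)) (toK (F j)))
    (hm : ∀ j, m j ≤ 1 ∨ (m j ≤ k j ∧ k j ≤ 2) ∨ IsNormForm (F j) (m j))
    (S : Finset ℕ) (hS : ∀ p ∈ S, p.Prime)
    {t : ℕ} (F' G' : Fin t → MvPolynomial (Fin (n + 1)) (𝓞 K)) (k' e' : Fin t → ℕ)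
    (hF' : ∀ l, (F' l).IsHomogeneous (k' l)) (hG' : ∀ l, (G' l).IsHomogeneous (e' l))
    (hirr' : ∀ l, Irreducible (toK (F' l))) (hcop : ∀ l, ¬ toK (F' l) ∣ toK (G' l))
    (Λ : ℝ) (hΛ : 0 ≤ Λ) (θ : ℝ) (hθ : θ < ∑ j, (m j : ℝ)) :
    ∃ c : ℝ, 0 < c ∧ ∃ C : ℝ, ∀ B : ℕ, 1 ≤ B → ∃ Z : Finset (ℙ K (Fin (n + 1) → K)),
      (Z.card : ℝ) ≤ C * (B : ℝ) ^ ((n : ℝ) + 1 - c) ∧
      ∀ P : ℙ K (Fin (n + 1) → K), P.mulHeight ≤ B → P ∉ Z →
        (∀ j, aeval P.rep (F j) ≠ 0) ∧
        θ * Real.log B + Λ * ∑ l, idealHeight (F' l) (G' l) (k' l) (e' l) P.rep ≤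
          truncatedCount S F k P.rep := by
  set d : ℕ := Module.finrank ℚ K with hd
  have hd1 : 1 ≤ d := Module.finrank_pos (R := ℚ) (M := K)
  have hd0 : (0 : ℝ) < d := by exact_mod_cast hd1
  -- the identification
  obtain ⟨N, hN⟩ : ∃ N, (n + 1) * d = N + 1 := by
    have : 0 < (n + 1) * d := Nat.mul_pos (Nat.succ_pos n) hd1
    exact ⟨(n + 1) * d - 1, by omega⟩
  have hcardE : Fintype.card (Fin (n + 1) × Idx K) = N + 1 := by
    rw [Fintype.card_prod, Fintype.card_fin, card_idx, ← hN]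
  let e : Fin (n + 1) × Idx K ≃ Fin (N + 1) := Fintype.equivFinOfCardEq hcardE
  -- few coincidences
  have hfew : ∀ j, FewCoincidences (normPoly (weil e (F j))) (d * m j) := by
    intro j
    have h1 : m j ≤ 1 → FewCoincidences (normPoly (weil e (F j))) (d * m j) := fun h =>
      few_norm ((few_any_nf e (F j) (hirr j)).mono (by nlinarith))
    rcases hm j with h | h | h
    · exact h1 h
    · by_cases h2 : m j ≤ 1
      · exact h1 h2
      · have h3 : m j = 2 := by omega
        have h4 : k j = 2 := by omega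
        rw [h3]
        exact few_norm (few_two_nf e (F j) (h4 ▸ hhom j) (hirr j))
    · exact few_normform e (F j) (m j) h
  set Δ : ℝ := (∑ j, (m j : ℝ)) - θ with hΔ
  have hΔ0 : 0 < Δ := by rw [hΔ]; linarith
  set θ₁ : ℝ := θ + Δ / 2 with hθ₁
  set η : ℝ := d * Δ / (8 * (t + 1) * (Λ + 1)) with hη
  have hη0 : 0 < η := by positivity
  have hηd : Λ * (t * η) ≤ d * (Δ / 8) := by
    have h1 : Λ * (t * η) ≤ (Λ + 1) * ((t + 1) * η) := by
      apply mul_le_mul (by linarith) _ (by positivity) (by linarith)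
      apply mul_le_mul_of_nonneg_right (by linarith) hη0.le
    refine h1.trans (le_of_eq ?_)
    rw [hη]
    field_simp
  have hspT := sparse_trunc (fun j => weil e (F j)) k (fun j => d * m j)
    (fun j => weil_hom e (hhom j)) (fun j => weil_irreducible e (hirr j))
    (fun i j hij h => hdist i j hij (by
      have h1 : toK (F i) ∣ toK (F j) := weil_dvd e h.dvd
      exact (hirr i).associated_of_dvd (hirr j) h1)) hfew S hS (d * θ₁) (by
      push_cast
      rw [← Finset.mul_sum]
      refine mul_lt_mul_of_pos_left ?_ hd0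
      rw [hθ₁, hΔ]
      linarith)
  have hspI := fun l => sparse_ideal e (F' l) (G' l) (hF' l) (hirr' l) (hcop l) (e' l) hη0
  obtain ⟨c', hc', C', hC', hcount⟩ := hspT.or (Sparse.exists_fin hspI)
  obtain ⟨Cr, Mr, hCr, hrep⟩ := rep' K (n := n)
  obtain ⟨Ac, hAc, hcoord⟩ := coord_le K
  choose tt htt y hy hysize Nn hNn hNM hNmem using
    fun P : ℙ K (Fin (n + 1) → K) => hrep P.rep P.rep_nonzero
  set u : ℙ K (Fin (n + 1) → K) → Fin (N + 1) → ℤ := fun P z =>
    (RingOfIntegers.basis K).repr (y P (e.symm z).1) (e.symm z).2 with hu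
  have hvec : ∀ P, vec e (u P) = y P := by
    intro P
    funext i
    rw [vec, hu]
    simp only [Equiv.symm_apply_apply]
    have h1 := (RingOfIntegers.basis K).sum_repr (y P i)
    conv_rhs => rw [← h1]
    exact Finset.sum_congr rfl fun l _ => by rw [zsmul_eq_mul]
  have hysm : ∀ P, (fun i => (y P i : K)) = tt P • P.rep := by
    intro P
    funext i
    rw [Pi.smul_apply, smul_eq_mul]
    exact hy P i
  have hinj : Function.Injective u := by
    intro P P' h
    have h1 : y P = y P' := by rw [← hvec, ← hvec, h]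
    have h2 : tt P • P.rep = tt P' • P'.rep := by rw [← hysm, ← hysm, h1]
    rw [← P.mk_rep, ← P'.mk_rep, Projectivization.mk_eq_mk_iff']
    refine ⟨(tt P)⁻¹ * tt P', ?_⟩
    rw [mul_smul, ← h2, smul_smul, inv_mul_cancel₀ (htt P), one_smul]
  set A₂ : ℝ := max 1 (Ac * Cr) with hA₂
  have hA₂1 : 1 ≤ A₂ := le_max_left _ _
  set Bp : ℕ → ℕ := fun B => ⌈A₂ * (B : ℝ) ^ (1 / (d : ℝ))⌉₊ with hBp
  have hroot : ∀ B : ℕ, 1 ≤ B → 1 ≤ (B : ℝ) ^ (1 / (d : ℝ)) := fun B hB =>
    Real.one_le_rpow (by exact_mod_cast hB) (by positivity)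
  have hBp1 : ∀ B : ℕ, 1 ≤ B → 1 ≤ Bp B ∧ (B : ℝ) ^ (1 / (d : ℝ)) ≤ Bp B ∧
      (Bp B : ℝ) ≤ 2 * A₂ * (B : ℝ) ^ (1 / (d : ℝ)) := by
    intro B hB
    have h1 := hroot B hB
    have h2 : 1 ≤ A₂ * (B : ℝ) ^ (1 / (d : ℝ)) := one_le_mul_of_one_le_of_one_le hA₂1 h1
    have h3 := Nat.le_ceil (A₂ * (B : ℝ) ^ (1 / (d : ℝ)))
    have h4 := (Nat.ceil_lt_add_one (a := A₂ * (B : ℝ) ^ (1 / (d : ℝ))) (by linarith)).le
    refine ⟨?_, ?_, ?_⟩
    · have h5 : (1 : ℝ) ≤ Bp B := h2.trans h3
      exact_mod_cast h5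
    · refine le_trans ?_ h3
      exact le_mul_of_one_le_left (by linarith) hA₂1
    · refine h4.trans ?_
      nlinarith
  have hbox : ∀ B : ℕ, 1 ≤ B → ∀ P : ℙ K (Fin (n + 1) → K), P.mulHeight ≤ B →
      u P ∈ box (N + 1) (Bp B) := by
    intro B hB P hP
    rw [mem_box]
    intro z
    have h0 : (0 : ℝ) ≤ Cr * (B : ℝ) ^ (1 / (d : ℝ)) := by positivity
    have hPh : Height.mulHeight P.rep ≤ B := by
      have h1 : P.mulHeight = Height.mulHeight P.rep := by
        conv_lhs => rw [← P.mk_rep]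
        exact Projectivization.mulHeight_mk _
      rw [← h1]; exact hP
    have h1 := hcoord (y P (e.symm z).1) (Cr * (B : ℝ) ^ (1 / (d : ℝ))) h0 (fun w => by
      refine (hysize P w _).trans (mul_le_mul_of_nonneg_left ?_ hCr.le)
      exact Real.rpow_le_rpow (Height.mulHeight_pos _).le hPh (by positivity)) (e.symm z).2
    have h2 : |((u P z : ℤ) : ℝ)| ≤ (Bp B : ℝ) := by
      refine h1.trans (le_trans ?_ (Nat.le_ceil _))
      rw [← mul_assoc]
      exact mul_le_mul_of_nonneg_right (le_max_right _ _) (by positivity)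
    have h3 : ((|u P z| : ℤ) : ℝ) ≤ ((Bp B : ℤ) : ℝ) := by
      push_cast
      exact h2
    exact_mod_cast h3
  set L : ℝ := Real.log (2 * A₂) with hL
  have hL0 : 0 ≤ L := Real.log_nonneg (by linarith)
  obtain ⟨B₀, hB₀⟩ : ∃ B₀ : ℕ, ∀ B : ℕ, B₀ ≤ B →
      Λ * (t * η) * L + |θ₁| * (d * L) + d * Real.log Mr ≤ Δ / 4 * Real.log B := by
    have h1 : Filter.Tendsto (fun B : ℕ => Δ / 4 * Real.log B) Filter.atTop Filter.atTop :=
      (Real.tendsto_log_atTop.comp tendsto_natCast_atTop_atTop).const_mul_atTop (by positivity)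
    exact Filter.eventually_atTop.mp (h1.eventually_ge_atTop
      (Λ * (t * η) * L + |θ₁| * (d * L) + d * Real.log Mr))
  set c'' : ℝ := min c' 1 with hc''
  have hc''0 : 0 < c'' := lt_min hc' one_pos
  have hc''1 : c'' ≤ 1 := min_le_right _ _
  have hNd : ((n : ℝ) + 1) * d = (N : ℝ) + 1 := by exact_mod_cast hN
  have hNc : 0 ≤ ((N + 1 : ℕ) : ℝ) - c'' := by
    push_cast
    have : (0 : ℝ) ≤ N := Nat.cast_nonneg N
    linarith
  set Bm : ℕ := ⌈2 * A₂ * (B₀ : ℝ)⌉₊ with hBm
  refine ⟨c'' / d, by positivity, C' * (2 * A₂) ^ (((N + 1 : ℕ) : ℝ) - c'') +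
    (2 * Bm + 1 : ℕ) ^ (N + 1), fun B hB => ?_⟩
  have hB1 : (1 : ℝ) ≤ B := by exact_mod_cast hB
  have hBpos : (0 : ℝ) < B := by linarith
  obtain ⟨hb1, hb2, hb3⟩ := hBp1 B hB
  have hexp : (0 : ℝ) ≤ (n : ℝ) + 1 - c'' / d := by
    have h1 : c'' / d ≤ 1 := by
      rw [div_le_one hd0]
      have : (1 : ℝ) ≤ d := by exact_mod_cast hd1
      linarith
    have h2 : (0 : ℝ) ≤ n := Nat.cast_nonneg n
    linarith
  have hBexp : 1 ≤ (B : ℝ) ^ ((n : ℝ) + 1 - c'' / d) := Real.one_le_rpow hB1 hexp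
  by_cases hBB : B₀ ≤ B
  swap
  · -- small `B`
    rw [not_le] at hBB
    have hfin : ((box (N + 1) (Bp B) : Finset (Fin (N + 1) → ℤ)) : Set (Fin (N + 1) → ℤ)).Finite :=
      Finset.finite_toSet _
    have hfin' := hfin.preimage hinj.injOn
    refine ⟨hfin'.toFinset, ?_, ?_⟩
    · have h1 : hfin'.toFinset.card ≤ (box (N + 1) (Bp B)).card := by
        refine Finset.card_le_card_of_injOn u ?_ hinj.injOn
        intro P hP
        have := (Set.Finite.mem_toFinset hfin').1 hP
        exact this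
      rw [card_box] at h1
      have h2 : Bp B ≤ Bm := by
        have h3 : (Bp B : ℝ) ≤ Bm := by
          refine hb3.trans (le_trans ?_ (Nat.le_ceil _))
          refine mul_le_mul_of_nonneg_left ?_ (by linarith)
          calc (B : ℝ) ^ (1 / (d : ℝ)) ≤ (B : ℝ) ^ (1 : ℝ) :=
                Real.rpow_le_rpow_of_exponent_le hB1 (by
                  rw [div_le_one hd0]; exact_mod_cast hd1)
            _ = B := Real.rpow_one _
            _ ≤ B₀ := by exact_mod_cast hBB.le
        exact_mod_cast h3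
      have h3 : hfin'.toFinset.card ≤ (2 * Bm + 1) ^ (N + 1) :=
        h1.trans (Nat.pow_le_pow_left (by omega) _)
      have h4 : (hfin'.toFinset.card : ℝ) ≤ ((2 * Bm + 1 : ℕ) : ℝ) ^ (N + 1) := by
        exact_mod_cast h3
      have h5 : (0 : ℝ) ≤ C' * (2 * A₂) ^ (((N + 1 : ℕ) : ℝ) - c'') := by positivity
      calc (hfin'.toFinset.card : ℝ) ≤ (C' * (2 * A₂) ^ (((N + 1 : ℕ) : ℝ) - c'') +
            ((2 * Bm + 1 : ℕ) : ℝ) ^ (N + 1)) * 1 := by linarith
        _ ≤ _ := mul_le_mul_of_nonneg_left hBexp (by positivity)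
    · intro P hP hPZ
      exfalso
      apply hPZ
      rw [Set.Finite.mem_toFinset]
      exact hbox B hB P hP
  · -- large `B`
    have hfin := finite_sub (N + 1) (Bp B) (fun u => ((∃ j, val (weil e (F j)) u = 0) ∨
      truncI S (fun j => val (weil e (F j)) u) < d * θ₁ * Real.log (Bp B)) ∨
      ∃ l, eval (vec e u) (F' l) = 0 ∨ η * Real.log (Bp B) <
        idealHeight (F' l) (G' l) (k' l) (e' l) (fun i => (vec e u i : K)))
    have hfin' := hfin.preimage hinj.injOn
    refine ⟨hfin'.toFinset, ?_, ?_⟩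
    · have h1 : hfin'.toFinset.card ≤ hfin.toFinset.card := by
        refine Finset.card_le_card_of_injOn u ?_ hinj.injOn
        intro P hP
        have := (Set.Finite.mem_toFinset hfin').1 hP
        rw [Finset.mem_coe, Set.Finite.mem_toFinset]
        exact this
      have h2 := hcount (Bp B) hb1
      rw [Set.ncard_eq_toFinset_card _ hfin] at h2
      have h3 : (hfin'.toFinset.card : ℝ) ≤ hfin.toFinset.card := by exact_mod_cast h1
      have hbr : (1 : ℝ) ≤ Bp B := by exact_mod_cast hb1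
      have h4 : (Bp B : ℝ) ^ (((N + 1 : ℕ) : ℝ) - c') ≤ (Bp B : ℝ) ^ (((N + 1 : ℕ) : ℝ) - c'') :=
        Real.rpow_le_rpow_of_exponent_le hbr (by
          have := min_le_left c' 1
          linarith)
      have h5 : (Bp B : ℝ) ^ (((N + 1 : ℕ) : ℝ) - c'') ≤
          (2 * A₂ * (B : ℝ) ^ (1 / (d : ℝ))) ^ (((N + 1 : ℕ) : ℝ) - c'') :=
        Real.rpow_le_rpow (by linarith) hb3 hNc
      have h6 : (2 * A₂ * (B : ℝ) ^ (1 / (d : ℝ))) ^ (((N + 1 : ℕ) : ℝ) - c'') =
          (2 * A₂) ^ (((N + 1 : ℕ) : ℝ) - c'') * (B : ℝ) ^ ((n : ℝ) + 1 - c'' / d) := by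
        rw [Real.mul_rpow (by linarith) (by positivity), ← Real.rpow_mul hBpos.le]
        congr 2
        push_cast
        rw [← hNd]
        field_simp
      have h7 : (0 : ℝ) ≤ ((2 * Bm + 1 : ℕ) : ℝ) ^ (N + 1) := by positivity
      calc (hfin'.toFinset.card : ℝ) ≤ hfin.toFinset.card := h3
        _ ≤ C' * (Bp B : ℝ) ^ (((N + 1 : ℕ) : ℝ) - c') := h2
        _ ≤ C' * ((2 * A₂) ^ (((N + 1 : ℕ) : ℝ) - c'') * (B : ℝ) ^ ((n : ℝ) + 1 - c'' / d)) := by
            rw [← h6]
            exact mul_le_mul_of_nonneg_left (h4.trans h5) hC'.le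
        _ = (C' * (2 * A₂) ^ (((N + 1 : ℕ) : ℝ) - c'')) * (B : ℝ) ^ ((n : ℝ) + 1 - c'' / d) := by
            ring
        _ ≤ _ := by
            refine mul_le_mul_of_nonneg_right ?_ (by positivity)
            linarith
    · intro P hP hPZ
      have hPbox := hbox B hB P hP
      have hgood : ¬ (((∃ j, val (weil e (F j)) (u P) = 0) ∨
          truncI S (fun j => val (weil e (F j)) (u P)) < d * θ₁ * Real.log (Bp B)) ∨
          ∃ l, eval (vec e (u P)) (F' l) = 0 ∨ η * Real.log (Bp B) <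
            idealHeight (F' l) (G' l) (k' l) (e' l) (fun i => (vec e (u P) i : K))) := by
        intro h
        apply hPZ
        rw [Set.Finite.mem_toFinset]
        exact ⟨hPbox, h⟩
      rw [not_or, not_or] at hgood
      obtain ⟨⟨hg1, hg2⟩, hg3⟩ := hgood
      push Not at hg1 hg2 hg3
      simp only [val_weil, hvec] at hg1 hg2 hg3
      have hFrep : ∀ j, aeval P.rep (F j) ≠ 0 := by
        intro j h0
        apply hg1 j
        have h1 := aeval_coe (F j) (y P)
        rw [hysm, aeval_smul (F j) (hhom j), h0, mul_zero] at h1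
        exact RingOfIntegers.coe_injective (h1.symm.trans (map_zero (algebraMap (𝓞 K) K)).symm)
      refine ⟨hFrep, ?_⟩
      have hI : ∀ l, idealHeight (F' l) (G' l) (k' l) (e' l) P.rep ≤ η * Real.log (Bp B) := by
        intro l
        have h1 := (hg3 l).2
        rw [hysm, idealHeight_smul _ _ (hF' l) (hG' l) (htt P)] at h1
        exact h1
      have hIs : Λ * ∑ l, idealHeight (F' l) (G' l) (k' l) (e' l) P.rep ≤
          Λ * (t * η) * Real.log (Bp B) := by
        have h1 : ∑ l, idealHeight (F' l) (G' l) (k' l) (e' l) P.rep ≤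
            t * (η * Real.log (Bp B)) := by
          refine (Finset.sum_le_sum fun l _ => hI l).trans (le_of_eq ?_)
          rw [Finset.sum_const, Finset.card_univ, Fintype.card_fin, nsmul_eq_mul]
        calc Λ * ∑ l, idealHeight (F' l) (G' l) (k' l) (e' l) P.rep ≤
              Λ * (t * (η * Real.log (Bp B))) := mul_le_mul_of_nonneg_left h1 hΛ
          _ = _ := by ring
      have hT1 := trunc_transfer S F k (y P) hg1 (Nn P) (hNn P) (hNmem P)
      rw [hysm, truncatedCount_smul S F k hhom (htt P)] at hT1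
      have hMr : Real.log (Nn P) ≤ Real.log Mr :=
        Real.log_le_log (by exact_mod_cast hNn P) (by exact_mod_cast hNM P)
      have hlogb1 : Real.log B ≤ d * Real.log (Bp B) := by
        have h1 : Real.log ((B : ℝ) ^ (1 / (d : ℝ))) ≤ Real.log (Bp B) :=
          Real.log_le_log (by positivity) hb2
        rw [Real.log_rpow hBpos] at h1
        have h2 := mul_le_mul_of_nonneg_left h1 hd0.le
        have h3 : (d : ℝ) * (1 / d * Real.log B) = Real.log B := by field_simp
        linarith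
      have hlogb2 : d * Real.log (Bp B) ≤ Real.log B + d * L := by
        have h1 : Real.log (Bp B) ≤ Real.log (2 * A₂ * (B : ℝ) ^ (1 / (d : ℝ))) :=
          Real.log_le_log (by exact_mod_cast hb1) hb3
        rw [Real.log_mul (by linarith) (by positivity), Real.log_rpow hBpos] at h1
        have h2 := mul_le_mul_of_nonneg_left h1 hd0.le
        have h3 : (d : ℝ) * (Real.log (2 * A₂) + 1 / d * Real.log B) =
            Real.log B + d * Real.log (2 * A₂) := by field_simp; ring
        rw [h3] at h2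
        exact h2
      have hθ1 : θ₁ * Real.log B - |θ₁| * (d * L) ≤ d * θ₁ * Real.log (Bp B) := by
        have h1 : 0 ≤ d * Real.log (Bp B) - Real.log B := by linarith
        have h2 : d * Real.log (Bp B) - Real.log B ≤ d * L := by linarith
        have h3 : -(|θ₁| * (d * L)) ≤ θ₁ * (d * Real.log (Bp B) - Real.log B) := by
          have h4 : |θ₁ * (d * Real.log (Bp B) - Real.log B)| ≤ |θ₁| * (d * L) := by
            rw [abs_mul, abs_of_nonneg h1]
            exact mul_le_mul_of_nonneg_left h2 (abs_nonneg _)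
          exact (abs_le.1 h4).1
        have h5 : d * θ₁ * Real.log (Bp B) = θ₁ * Real.log B +
            θ₁ * (d * Real.log (Bp B) - Real.log B) := by ring
        linarith
      have hη2 : Λ * (t * η) * Real.log (Bp B) ≤ Δ / 8 * Real.log B + Λ * (t * η) * L := by
        have h0 : 0 ≤ Λ * (t * η) := by positivity
        have h1 : Real.log (Bp B) ≤ Real.log B / d + L := by
          rw [← sub_le_iff_le_add, le_div_iff₀ hd0]
          linarith
        have h2 := mul_le_mul_of_nonneg_left h1 h0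
        have h3 : Λ * (t * η) * (Real.log B / d) ≤ Δ / 8 * Real.log B := by
          have h4 : Λ * (t * η) * (Real.log B / d) ≤ d * (Δ / 8) * (Real.log B / d) :=
            mul_le_mul_of_nonneg_right hηd (div_nonneg (Real.log_nonneg hB1) hd0.le)
          refine h4.trans (le_of_eq ?_)
          field_simp
        linarith
      have h9 := hB₀ B hBB
      have h10 : θ₁ * Real.log B = θ * Real.log B + Δ / 2 * Real.log B := by rw [hθ₁]; ring
      have h11 : (d : ℝ) * Real.log (Nn P) ≤ d * Real.log Mr :=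
        mul_le_mul_of_nonneg_left hMr hd0.le
      have h12 : 0 ≤ Δ * Real.log B := mul_nonneg hΔ0.le (Real.log_nonneg hB1)
      linarith

end Pool.Agent.R366.NF
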